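import Pool.Agent.H.MP_1611f1_gt.T2.XiM

/-!
The collar function outside the strips.
-/

namespace Pool.Agent.H.MP_1611f1_gt.T2

open Topology Set Filter

variable {S : Type*} [TopologicalSpace S] {b : ℕ} [NeZero b] {E : Surf S (ZMod b)}
  {phi : S ≃ₜ S} {P : ℕ} {d : ZMod b → ℝ} {N : ZMod b → ℕ} {s : ZMod b → ℝ}
  (Y : Sys E phi P d N) (Z : Par N s)

theorem Rel0_XX (j : ZMod b) (k : ℤ) (θ : ℝ) (r : Ioo (1 : ℝ) 2)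
    (h : ∀ e : ZMod b × ℤ, e.2 = Y.cnt e.1 k → ‖Y.st e.1 e.2 (cl E j θ r)‖ < 1 / 4) :
    ∀ᶠ z : ℝ × Ioo (1 : ℝ) 2 in 𝓝 (θ, r), XX Y Z j z.1 k = XX Y Z j θ k := by
  have h1 : ‖((Y.Tl j (Y.cnt j k) θ : ℝ) : AddCircle (1 : ℝ))‖ < 1 / 4 := by
    have := h (j, Y.cnt j k) rfl
    rwa [Y.tail] at this
  have h2 : ‖((Y.Hd (j - 1) (Y.cnt (j - 1) k) θ : ℝ) : AddCircle (1 : ℝ))‖ < 1 / 4 := by
    have h3 := h (j - 1, Y.cnt (j - 1) k) rfl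
    have h4 := Y.head (j - 1) (Y.cnt (j - 1) k) θ r
    rw [sub_add_cancel] at h4
    simp only at h3
    rw [h4, AddCircle.coe_neg, norm_neg] at h3
    exact h3
  have hfst : Tendsto (fun z : ℝ × Ioo (1 : ℝ) 2 => z.1) (𝓝 (θ, r)) (𝓝 θ) :=
    continuous_fst.continuousAt (x := (θ, r))
  filter_upwards [hfst.eventually (chT_locconst (Y.Tl_cont j (Y.cnt j k)) h1),
    hfst.eventually (chT_locconst (Y.Hd_cont (j - 1) (Y.cnt (j - 1) k)) h2)] with z hz1 hz2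
  unfold XX
  rw [hz1, hz2]

theorem MX_none (j : ZMod b) (k : ℤ) (θ : ℝ) (r : Ioo (1 : ℝ) 2)
    (h : ∀ e : ZMod b × ℤ, e.2 = Y.cnt e.1 k ∨ e.2 = Y.cnt e.1 (k + 1) →
      ‖Y.st e.1 e.2 (cl E j θ r)‖ < 1 / 4) :
    ∀ᶠ z : ℝ × Ioo (1 : ℝ) 2 in 𝓝 (θ, r), ∀ t ∈ Icc (k : ℝ) (k + 1),
      MX Y Z j z.1 t = MX Y Z j θ t := by
  filter_upwards [Rel0_XX Y Z j k θ r fun e he => h e (Or.inl he),
    Rel0_XX Y Z j (k + 1) θ r fun e he => h e (Or.inr he)] with z hz1 hz2 t ht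
  exact plf_congr_zone hz1 hz2 ht

end Pool.Agent.H.MP_1611f1_gt.T2
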