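import Pool.Agent.H.MP_1611f1_gt.T2.XiM

/-!
The collar function and the tail strips.
-/

namespace Pool.Agent.H.MP_1611f1_gt.T2

open Topology Set Filter

theorem RelT_ne {b : ℕ} (hb : 2 ≤ b) (i : ZMod b) : i ≠ i - 1 := by
  have : Fact (1 < b) := ⟨hb⟩
  intro h
  have h1 : (1 : ZMod b) = 0 := by
    have h2 : i - (i - 1) = 0 := by rw [← h, sub_self]
    rw [sub_sub_cancel] at h2
    exact h2
  exact one_ne_zero h1

theorem RelT_up {T T' : ℝ} (h : ((T : ℝ) : AddCircle (1 : ℝ)) ≠ 0)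
    (h' : ((T' : ℝ) : AddCircle (1 : ℝ)) = 0) (h1 : T' ≤ T ∧ T ≤ T' + 1) : T' = ⌊T⌋ := by
  obtain ⟨n, hn⟩ := (coe_eq_zero _).mp h'
  have h2 : T ≠ n + 1 := fun h2 => h ((coe_eq_zero _).mpr ⟨n + 1, by push_cast; exact h2⟩)
  have h3 : ⌊T⌋ = n := by
    rw [Int.floor_eq_iff]
    rw [hn] at h1
    exact ⟨h1.1, lt_of_le_of_ne h1.2 h2⟩
  rw [h3]
  exact hn

theorem RelT_dn {T T' : ℝ} (h : ((T : ℝ) : AddCircle (1 : ℝ)) ≠ 0)
    (h' : ((T' : ℝ) : AddCircle (1 : ℝ)) = 0) (h1 : T ≤ T' ∧ T' ≤ T + 1) : T' = ⌊T⌋ + 1 := by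
  obtain ⟨n, hn⟩ := (coe_eq_zero _).mp h'
  have h2 : T ≠ n := fun h2 => h ((coe_eq_zero _).mpr ⟨n, h2⟩)
  have h3 : ⌊T⌋ = n - 1 := by
    rw [Int.floor_eq_iff]
    rw [hn] at h1
    push_cast
    exact ⟨by linarith [h1.2], by
      have h4 := lt_of_le_of_ne h1.1 h2
      linarith⟩
  rw [h3]
  push_cast
  linarith

theorem RelT_floor {X : Type*} [TopologicalSpace X] {F : X → ℝ} (hF : Continuous F) {x : X}
    (h : ((F x : ℝ) : AddCircle (1 : ℝ)) ≠ 0) : ∀ᶠ x' in 𝓝 x, ⌊F x'⌋ = ⌊F x⌋ := by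
  have h1 : F x ≠ ⌊F x⌋ := fun h1 => h ((coe_eq_zero _).mpr ⟨⌊F x⌋, h1⟩)
  have h2 : F x ∈ Ioo (⌊F x⌋ : ℝ) (⌊F x⌋ + 1) :=
    ⟨lt_of_le_of_ne (Int.floor_le _) (Ne.symm h1), Int.lt_floor_add_one _⟩
  filter_upwards [hF.continuousAt.eventually (isOpen_Ioo.mem_nhds h2)] with x' hx'
  rw [Int.floor_eq_iff]
  exact ⟨hx'.1.le, hx'.2⟩

theorem RelT_plf {S S' : ℤ → ℝ} (k : ℤ) (h : ∀ k', k - 1 ≤ k' → k' ≤ k + 1 → S k' = S' k')
    {t : ℝ} (ht : t ∈ Icc ((k : ℝ) - 1) (k + 1)) : plf S t = plf S' t := by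
  rcases le_total t k with h1 | h1
  · refine plf_congr_zone (k := k - 1) (h _ le_rfl (by omega)) (h _ (by omega) (by omega)) ?_
    push_cast
    exact ⟨ht.1, by linarith⟩
  · exact plf_congr_zone (k := k) (h _ (by omega) (by omega)) (h _ (by omega) le_rfl)
      ⟨h1, ht.2⟩

/-- the values of `Tl` at the neighbouring times -/
theorem RelT_T {S : Type*} [TopologicalSpace S] {b : ℕ} {E : Surf S (ZMod b)}
    {phi : S ≃ₜ S} {P : ℕ} {d : ZMod b → ℝ} {N : ZMod b → ℕ} (Y : Sys E phi P d N)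
    (i : ZMod b) (k : ℤ) (θ : ℝ)
    (hθ : ((Y.Tl i (Y.cnt i k) θ : ℝ) : AddCircle (1 : ℝ)) ≠ 0) (k' : ℤ) (h1 : k - 1 ≤ k')
    (h2 : k' ≤ k + 1) :
    chT (Y.Tl i (Y.cnt i k') θ) = ⌊Y.Tl i (Y.cnt i k) θ⌋ + 1 -
      (1 - chi (Int.fract (Y.Tl i (Y.cnt i k) θ))) *
        (if Y.cnt i k ≤ Y.cnt i k' then 1 else 0) -
      chi (Int.fract (Y.Tl i (Y.cnt i k) θ)) *
        (if Y.cnt i k + 1 ≤ Y.cnt i k' then 1 else 0) := by
  let r : Ioo (1 : ℝ) 2 := ⟨3 / 2, by norm_num, by norm_num⟩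
  have hst : Y.st i (Y.cnt i k) (cl E i θ r) ≠ 0 := by
    rw [Y.tail]
    exact hθ
  have hcases : Y.cnt i k' = Y.cnt i k ∨ Y.cnt i k' = Y.cnt i k + 1 ∨
      Y.cnt i k' + 1 = Y.cnt i k := by
    have h3 : k' = k - 1 ∨ k' = k ∨ k' = k + 1 := by omega
    rcases h3 with rfl | rfl | rfl
    · have h4 := Y.cnt_le i (k - 1)
      rw [sub_add_cancel] at h4
      omega
    · exact Or.inl rfl
    · have h4 := Y.cnt_le i k
      omega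
  rcases hcases with h | h | h
  · rw [h, if_pos le_rfl, if_neg (by omega)]
    unfold chT
    ring
  · rw [h, if_pos (by omega), if_pos le_rfl]
    have h3 : Y.st i (Y.cnt i k + 1) (cl E i θ r) = 0 := (Y.off i _ _).resolve_left hst
    rw [Y.tail] at h3
    rw [RelT_up hθ h3 (Y.Tl_right i _ θ), chT_int]
    ring
  · rw [if_neg (by omega), if_neg (by omega)]
    have h3 : Y.st i (Y.cnt i k') (cl E i θ r) = 0 := by
      have h4 := Y.off i (Y.cnt i k') (cl E i θ r)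
      rw [h] at h4
      exact h4.resolve_right hst
    rw [Y.tail] at h3
    have h5 := Y.Tl_right i (Y.cnt i k') θ
    rw [h] at h5
    have h6 := RelT_dn hθ h3 h5
    rw [h6]
    have h7 := chT_int (⌊Y.Tl i (Y.cnt i k) θ⌋ + 1)
    push_cast at h7
    rw [h7]
    ring

/-- `chT` of `Hd (i - 1)` does not change at the neighbouring times -/
theorem RelT_H {S : Type*} [TopologicalSpace S] {b : ℕ} {E : Surf S (ZMod b)}
    {phi : S ≃ₜ S} {P : ℕ} {d : ZMod b → ℝ} {N : ZMod b → ℕ} (Y : Sys E phi P d N)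
    (hb : 2 ≤ b) (i : ZMod b) (k : ℤ) (θ : ℝ)
    (hθ : ((Y.Tl i (Y.cnt i k) θ : ℝ) : AddCircle (1 : ℝ)) ≠ 0) (k' : ℤ) (h1 : k - 1 ≤ k')
    (h2 : k' ≤ k + 1) :
    Y.Hd (i - 1) (Y.cnt (i - 1) k') θ = Y.Hd (i - 1) (Y.cnt (i - 1) k) θ := by
  have h3 : k' = k - 1 ∨ k' = k ∨ k' = k + 1 := by omega
  rcases h3 with rfl | rfl | rfl
  · by_cases h : Y.own (k - 1) = i
    · have h4 : Y.own (k - 1) ≠ i - 1 := by
        rw [h]
        exact RelT_ne hb i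
      have h5 := Y.cnt_ne h4
      rw [sub_add_cancel] at h5
      rw [h5]
    · have h5 := Y.cnt_ne h
      rw [sub_add_cancel] at h5
      rw [h5] at hθ
      have h6 := Y.fixH (k - 1) i θ h hθ
      rw [sub_add_cancel] at h6
      exact h6.symm
  · rfl
  · by_cases h : Y.own k = i
    · have h4 : Y.own k ≠ i - 1 := by
        rw [h]
        exact RelT_ne hb i
      rw [Y.cnt_ne h4]
    · exact Y.fixH k i θ h hθ

variable {S : Type*} [TopologicalSpace S] {b : ℕ} [NeZero b] {E : Surf S (ZMod b)}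
  {phi : S ≃ₜ S} {P : ℕ} {d : ZMod b → ℝ} {N : ZMod b → ℕ} {s : ZMod b → ℝ}
  (Y : Sys E phi P d N) (Z : Par N s)

/-- the relation at the integer times -/
theorem XX_tail (hb : 2 ≤ b) (i : ZMod b) (k : ℤ) (θ : ℝ)
    (hθ : ((Y.Tl i (Y.cnt i k) θ : ℝ) : AddCircle (1 : ℝ)) ≠ 0) (k' : ℤ) (h1 : k - 1 ≤ k')
    (h2 : k' ≤ k + 1) :
    XX Y Z i θ k' = (1 - chi (Int.fract (Y.Tl i (Y.cnt i k) θ))) * SA Y Z (i, Y.cnt i k) k' +
      chi (Int.fract (Y.Tl i (Y.cnt i k) θ)) * SB Y Z (i, Y.cnt i k) k' +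
      (Z.ρ (i - 1) * chT (Y.Hd (i - 1) (Y.cnt (i - 1) k) θ) -
        Z.f i * (⌊Y.Tl i (Y.cnt i k) θ⌋ + 1)) := by
  have hA := RelT_H Y hb i k θ hθ k' h1 h2
  have hB := RelT_T Y i k θ hθ k' h1 h2
  unfold XX SA SB
  simp only
  rw [hA, hB]
  ring

theorem MX_tail (hb : 2 ≤ b) (i : ZMod b) (k : ℤ) (θ : ℝ) (r : Ioo (1 : ℝ) 2)
    (hθ : Y.st i (Y.cnt i k) (cl E i θ r) ≠ 0) :
    ∃ C : ℝ, ∀ᶠ z : ℝ × Ioo (1 : ℝ) 2 in 𝓝 (θ, r), ∀ t ∈ Icc ((k : ℝ) - 1) (k + 1),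
      MX Y Z i z.1 t =
        (1 - chi (lft (Y.st i (Y.cnt i k) (cl E i z.1 z.2)))) *
            plf (SA Y Z (i, Y.cnt i k)) t +
          chi (lft (Y.st i (Y.cnt i k) (cl E i z.1 z.2))) * plf (SB Y Z (i, Y.cnt i k)) t + C := by
  have hT : ((Y.Tl i (Y.cnt i k) θ : ℝ) : AddCircle (1 : ℝ)) ≠ 0 := by
    rw [← Y.tail i (Y.cnt i k) θ r]
    exact hθ
  have hTc : Continuous (fun z : ℝ × Ioo (1 : ℝ) 2 => Y.Tl i (Y.cnt i k) z.1) :=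
    (Y.Tl_cont i (Y.cnt i k)).comp continuous_fst
  have ha : ∀ᶠ z : ℝ × Ioo (1 : ℝ) 2 in 𝓝 (θ, r),
      ((Y.Tl i (Y.cnt i k) z.1 : ℝ) : AddCircle (1 : ℝ)) ≠ 0 :=
    ((AddCircle.continuous_mk' (1 : ℝ)).comp hTc).continuousAt.eventually_ne hT
  have hb' : ∀ᶠ z : ℝ × Ioo (1 : ℝ) 2 in 𝓝 (θ, r),
      ⌊Y.Tl i (Y.cnt i k) z.1⌋ = ⌊Y.Tl i (Y.cnt i k) θ⌋ :=
    RelT_floor hTc hT
  have hc : ∀ᶠ z : ℝ × Ioo (1 : ℝ) 2 in 𝓝 (θ, r),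
      chT (Y.Hd (i - 1) (Y.cnt (i - 1) k) z.1) = chT (Y.Hd (i - 1) (Y.cnt (i - 1) k) θ) := by
    refine chT_locconst (F := fun z : ℝ × Ioo (1 : ℝ) 2 => Y.Hd (i - 1) (Y.cnt (i - 1) k) z.1)
      ((Y.Hd_cont (i - 1) (Y.cnt (i - 1) k)).comp continuous_fst) (x := (θ, r)) ?_
    have h1 : Y.st (i - 1) (Y.cnt (i - 1) k) (cl E i θ r) = 0 :=
      (Y.disj k i (i - 1) (cl E i θ r) (RelT_ne hb i)).resolve_left hθ
    have h2 := Y.head (i - 1) (Y.cnt (i - 1) k) θ r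
    rw [sub_add_cancel, h1] at h2
    have h3 : ((Y.Hd (i - 1) (Y.cnt (i - 1) k) θ : ℝ) : AddCircle (1 : ℝ)) = 0 := by
      obtain ⟨n, hn⟩ := (coe_eq_zero _).mp h2.symm
      refine (coe_eq_zero _).mpr ⟨-n, ?_⟩
      push_cast
      linarith
    show ‖((Y.Hd (i - 1) (Y.cnt (i - 1) k) θ : ℝ) : AddCircle (1 : ℝ))‖ < 1 / 4
    rw [h3, norm_zero]
    norm_num
  refine ⟨Z.ρ (i - 1) * chT (Y.Hd (i - 1) (Y.cnt (i - 1) k) θ) -
        Z.f i * (⌊Y.Tl i (Y.cnt i k) θ⌋ + 1), ?_⟩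
  filter_upwards [ha, hb', hc] with z hza hzb hzc t ht
  have h1 : lft (Y.st i (Y.cnt i k) (cl E i z.1 z.2)) = Int.fract (Y.Tl i (Y.cnt i k) z.1) := by
    rw [Y.tail, lft_mk]
  rw [h1]
  unfold MX
  rw [← plf_lin]
  refine RelT_plf k (fun k' hk1 hk2 => ?_) ht
  rw [XX_tail Y Z hb i k z.1 hza k' hk1 hk2, hzb, hzc]

end Pool.Agent.H.MP_1611f1_gt.T2
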