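import Pool.Agent.H.MP_1611f1_gt.T2.XiM
import Pool.Agent.H.MP_1611f1_gt.T2.RelT

/-!
The collar function and the head strips.
-/

namespace Pool.Agent.H.MP_1611f1_gt.T2

open Topology Set Filter

theorem RelH_ne {b : ℕ} (hb : 2 ≤ b) (i : ZMod b) : i ≠ i + 1 := by
  have h := RelT_ne hb (i + 1)
  rw [add_sub_cancel_right] at h
  exact h.symm

theorem RelH_neg {y : ℝ} (h : ((-y : ℝ) : AddCircle (1 : ℝ)) = 0) :
    ((y : ℝ) : AddCircle (1 : ℝ)) = 0 := by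
  obtain ⟨n, hn⟩ := (coe_eq_zero _).mp h
  refine (coe_eq_zero _).mpr ⟨-n, ?_⟩
  push_cast
  linarith

theorem RelH_ne0 {S : Type*} [TopologicalSpace S] {b : ℕ} {E : Surf S (ZMod b)}
    {phi : S ≃ₜ S} {P : ℕ} {d : ZMod b → ℝ} {N : ZMod b → ℕ} (Y : Sys E phi P d N)
    (i : ZMod b) (c : ℤ) (θ : ℝ) (r : Ioo (1 : ℝ) 2) (h : Y.st i c (cl E (i + 1) θ r) ≠ 0) :
    ((Y.Hd i c θ : ℝ) : AddCircle (1 : ℝ)) ≠ 0 := by
  intro h1
  apply h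
  rw [Y.head]
  apply RelH_neg
  rw [neg_neg]
  exact h1

/-- the values of `Hd` at the neighbouring times -/
theorem RelH_H {S : Type*} [TopologicalSpace S] {b : ℕ} {E : Surf S (ZMod b)}
    {phi : S ≃ₜ S} {P : ℕ} {d : ZMod b → ℝ} {N : ZMod b → ℕ} (Y : Sys E phi P d N)
    (i : ZMod b) (k : ℤ) (θ : ℝ)
    (hθ : ((Y.Hd i (Y.cnt i k) θ : ℝ) : AddCircle (1 : ℝ)) ≠ 0) (k' : ℤ) (h1 : k - 1 ≤ k')
    (h2 : k' ≤ k + 1) :
    chT (Y.Hd i (Y.cnt i k') θ) = Y.cnt i k + ⌊Y.Hd i (Y.cnt i k) θ⌋ - Y.cnt i k' +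
      chi (Int.fract (Y.Hd i (Y.cnt i k) θ)) *
        (if Y.cnt i k ≤ Y.cnt i k' then 1 else 0) +
      (1 - chi (Int.fract (Y.Hd i (Y.cnt i k) θ))) *
        (if Y.cnt i k + 1 ≤ Y.cnt i k' then 1 else 0) := by
  let r : Ioo (1 : ℝ) 2 := ⟨3 / 2, by norm_num, by norm_num⟩
  have hst : Y.st i (Y.cnt i k) (cl E (i + 1) θ r) ≠ 0 := by
    intro h
    rw [Y.head] at h
    exact hθ (RelH_neg h)
  have hcases : Y.cnt i k' = Y.cnt i k ∨ Y.cnt i k' = Y.cnt i k + 1 ∨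
      Y.cnt i k' + 1 = Y.cnt i k := by
    have h3 : k' = k - 1 ∨ k' = k ∨ k' = k + 1 := by omega
    rcases h3 with rfl | rfl | rfl
    · have h4 := Y.cnt_le i (k - 1)
      rw [sub_add_cancel] at h4
      omega
    · exact Or.inl rfl
    · have h4 := Y.cnt_le i k
      omega
  rcases hcases with h | h | h
  · rw [h, if_pos le_rfl, if_neg (by omega)]
    unfold chT
    ring
  · rw [h, if_pos (by omega), if_pos le_rfl]
    have h3 : Y.st i (Y.cnt i k + 1) (cl E (i + 1) θ r) = 0 := (Y.off i _ _).resolve_left hst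
    rw [Y.head] at h3
    rw [RelT_up hθ (RelH_neg h3) (Y.Hd_right i _ θ), chT_int]
    push_cast
    ring
  · rw [if_neg (by omega), if_neg (by omega)]
    have h3 : Y.st i (Y.cnt i k') (cl E (i + 1) θ r) = 0 := by
      have h4 := Y.off i (Y.cnt i k') (cl E (i + 1) θ r)
      rw [h] at h4
      exact h4.resolve_right hst
    rw [Y.head] at h3
    have h5 := Y.Hd_right i (Y.cnt i k') θ
    rw [h] at h5
    have h6 := RelT_dn hθ (RelH_neg h3) h5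
    rw [h6]
    have h7 := chT_int (⌊Y.Hd i (Y.cnt i k) θ⌋ + 1)
    push_cast at h7
    rw [h7, ← h]
    push_cast
    ring

/-- `Tl (i + 1)` does not change at the neighbouring times -/
theorem RelH_T {S : Type*} [TopologicalSpace S] {b : ℕ} {E : Surf S (ZMod b)}
    {phi : S ≃ₜ S} {P : ℕ} {d : ZMod b → ℝ} {N : ZMod b → ℕ} (Y : Sys E phi P d N)
    (hb : 2 ≤ b) (i : ZMod b) (k : ℤ) (θ : ℝ)
    (hθ : ((Y.Hd i (Y.cnt i k) θ : ℝ) : AddCircle (1 : ℝ)) ≠ 0) (k' : ℤ) (h1 : k - 1 ≤ k')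
    (h2 : k' ≤ k + 1) :
    Y.Tl (i + 1) (Y.cnt (i + 1) k') θ = Y.Tl (i + 1) (Y.cnt (i + 1) k) θ := by
  have h3 : k' = k - 1 ∨ k' = k ∨ k' = k + 1 := by omega
  rcases h3 with rfl | rfl | rfl
  · by_cases h : Y.own (k - 1) = i
    · have h4 : Y.own (k - 1) ≠ i + 1 := by
        rw [h]
        exact RelH_ne hb i
      have h5 := Y.cnt_ne h4
      rw [sub_add_cancel] at h5
      rw [h5]
    · have h5 := Y.cnt_ne h
      rw [sub_add_cancel] at h5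
      rw [h5] at hθ
      have h6 := Y.fixT (k - 1) i θ h hθ
      rw [sub_add_cancel] at h6
      exact h6.symm
  · rfl
  · by_cases h : Y.own k = i
    · have h4 : Y.own k ≠ i + 1 := by
        rw [h]
        exact RelH_ne hb i
      rw [Y.cnt_ne h4]
    · exact Y.fixT k i θ h hθ

variable {S : Type*} [TopologicalSpace S] {b : ℕ} [NeZero b] {E : Surf S (ZMod b)}
  {phi : S ≃ₜ S} {P : ℕ} {d : ZMod b → ℝ} {N : ZMod b → ℕ} {s : ZMod b → ℝ}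
  (Y : Sys E phi P d N) (Z : Par N s)

/-- the relation at the integer times -/
theorem XX_head (hb : 2 ≤ b) (i : ZMod b) (k : ℤ) (θ : ℝ)
    (hθ : ((Y.Hd i (Y.cnt i k) θ : ℝ) : AddCircle (1 : ℝ)) ≠ 0) (k' : ℤ) (h1 : k - 1 ≤ k')
    (h2 : k' ≤ k + 1) :
    XX Y Z (i + 1) θ k' = (1 - N i * Z.ρ i) *
      (chi (Int.fract (Y.Hd i (Y.cnt i k) θ)) * SA Y Z (i, Y.cnt i k) k' +
      (1 - chi (Int.fract (Y.Hd i (Y.cnt i k) θ))) * SB Y Z (i, Y.cnt i k) k') +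
      (Z.ρ i * (Y.cnt i k + ⌊Y.Hd i (Y.cnt i k) θ⌋) -
        Z.f (i + 1) * chT (Y.Tl (i + 1) (Y.cnt (i + 1) k) θ)) := by
  have hA := RelH_T Y hb i k θ hθ k' h1 h2
  have hB := RelH_H Y i k θ hθ k' h1 h2
  have hf := Z.f_eq i
  have hk := kp_rec Y Z i k'
  unfold XX SA SB
  simp only [add_sub_cancel_right]
  rw [hA, hB, hk]
  linear_combination (-(chi (Int.fract (Y.Hd i (Y.cnt i k) θ)) *
    (if Y.cnt i k ≤ Y.cnt i k' then (1 : ℝ) else 0) +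
    (1 - chi (Int.fract (Y.Hd i (Y.cnt i k) θ))) *
    (if Y.cnt i k + 1 ≤ Y.cnt i k' then (1 : ℝ) else 0))) * hf

theorem MX_head (hb : 2 ≤ b) (i : ZMod b) (k : ℤ) (θ : ℝ) (r : Ioo (1 : ℝ) 2)
    (hθ : Y.st i (Y.cnt i k) (cl E (i + 1) θ r) ≠ 0) :
    ∃ C : ℝ, ∀ᶠ z : ℝ × Ioo (1 : ℝ) 2 in 𝓝 (θ, r), ∀ t ∈ Icc ((k : ℝ) - 1) (k + 1),
      MX Y Z (i + 1) z.1 t = (1 - N i * Z.ρ i) *
        ((1 - chi (lft (Y.st i (Y.cnt i k) (cl E (i + 1) z.1 z.2)))) *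
            plf (SA Y Z (i, Y.cnt i k)) t +
          chi (lft (Y.st i (Y.cnt i k) (cl E (i + 1) z.1 z.2))) *
            plf (SB Y Z (i, Y.cnt i k)) t) + C := by
  have hH : ((Y.Hd i (Y.cnt i k) θ : ℝ) : AddCircle (1 : ℝ)) ≠ 0 :=
    RelH_ne0 Y i _ θ r hθ
  have hHc : Continuous (fun z : ℝ × Ioo (1 : ℝ) 2 => Y.Hd i (Y.cnt i k) z.1) :=
    (Y.Hd_cont i (Y.cnt i k)).comp continuous_fst
  have ha : ∀ᶠ z : ℝ × Ioo (1 : ℝ) 2 in 𝓝 (θ, r),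
      ((Y.Hd i (Y.cnt i k) z.1 : ℝ) : AddCircle (1 : ℝ)) ≠ 0 :=
    ((AddCircle.continuous_mk' (1 : ℝ)).comp hHc).continuousAt.eventually_ne hH
  have hb' : ∀ᶠ z : ℝ × Ioo (1 : ℝ) 2 in 𝓝 (θ, r),
      ⌊Y.Hd i (Y.cnt i k) z.1⌋ = ⌊Y.Hd i (Y.cnt i k) θ⌋ :=
    RelT_floor hHc hH
  have hc : ∀ᶠ z : ℝ × Ioo (1 : ℝ) 2 in 𝓝 (θ, r),
      chT (Y.Tl (i + 1) (Y.cnt (i + 1) k) z.1) = chT (Y.Tl (i + 1) (Y.cnt (i + 1) k) θ) := by
    refine chT_locconst (F := fun z : ℝ × Ioo (1 : ℝ) 2 => Y.Tl (i + 1) (Y.cnt (i + 1) k) z.1)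
      ((Y.Tl_cont (i + 1) (Y.cnt (i + 1) k)).comp continuous_fst) (x := (θ, r)) ?_
    have h1 : Y.st (i + 1) (Y.cnt (i + 1) k) (cl E (i + 1) θ r) = 0 :=
      (Y.disj k i (i + 1) (cl E (i + 1) θ r) (RelH_ne hb i)).resolve_left hθ
    have h2 := Y.tail (i + 1) (Y.cnt (i + 1) k) θ r
    rw [h1] at h2
    show ‖((Y.Tl (i + 1) (Y.cnt (i + 1) k) θ : ℝ) : AddCircle (1 : ℝ))‖ < 1 / 4
    rw [← h2, norm_zero]
    norm_num
  refine ⟨Z.ρ i * (Y.cnt i k + ⌊Y.Hd i (Y.cnt i k) θ⌋) -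
        Z.f (i + 1) * chT (Y.Tl (i + 1) (Y.cnt (i + 1) k) θ), ?_⟩
  filter_upwards [ha, hb', hc] with z hza hzb hzc t ht
  have h0 : Int.fract (Y.Hd i (Y.cnt i k) z.1) ≠ 0 := by
    intro h0
    refine hza ((coe_eq_zero _).mpr ⟨⌊Y.Hd i (Y.cnt i k) z.1⌋, ?_⟩)
    have h3 := Int.floor_add_fract (Y.Hd i (Y.cnt i k) z.1)
    rw [h0, add_zero] at h3
    exact h3.symm
  have h1 : lft (Y.st i (Y.cnt i k) (cl E (i + 1) z.1 z.2)) =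
      1 - Int.fract (Y.Hd i (Y.cnt i k) z.1) := by
    rw [Y.head, lft_mk, Int.fract_neg h0]
  rw [h1, chi_sub]
  unfold MX
  have h2 : (1 - N i * Z.ρ i) *
        ((1 - (1 - chi (Int.fract (Y.Hd i (Y.cnt i k) z.1)))) *
            plf (SA Y Z (i, Y.cnt i k)) t +
          (1 - chi (Int.fract (Y.Hd i (Y.cnt i k) z.1))) *
            plf (SB Y Z (i, Y.cnt i k)) t) +
        (Z.ρ i * (Y.cnt i k + ⌊Y.Hd i (Y.cnt i k) θ⌋) -
        Z.f (i + 1) * chT (Y.Tl (i + 1) (Y.cnt (i + 1) k) θ)) =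
      ((1 - N i * Z.ρ i) * chi (Int.fract (Y.Hd i (Y.cnt i k) z.1))) *
        plf (SA Y Z (i, Y.cnt i k)) t +
      ((1 - N i * Z.ρ i) * (1 - chi (Int.fract (Y.Hd i (Y.cnt i k) z.1)))) *
        plf (SB Y Z (i, Y.cnt i k)) t +
        (Z.ρ i * (Y.cnt i k + ⌊Y.Hd i (Y.cnt i k) θ⌋) -
        Z.f (i + 1) * chT (Y.Tl (i + 1) (Y.cnt (i + 1) k) θ)) := by
    ring
  rw [h2, ← plf_lin]
  refine RelT_plf k (fun k' hk1 hk2 => ?_) ht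
  rw [XX_head Y Z hb i k z.1 hza k' hk1 hk2, hzb, hzc]
  ring

end Pool.Agent.H.MP_1611f1_gt.T2
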