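import Pool.Agent.H.MP_1611f1_gt.T2.RelT
import Pool.Agent.H.MP_1611f1_gt.T2.RelH
import Pool.Agent.H.MP_1611f1_gt.T2.Rel0

/-!
Assembly of the abstract data.
-/

namespace Pool.Agent.H.MP_1611f1_gt.T2

open Topology Set Filter

variable {S : Type*} [TopologicalSpace S] {b : ℕ} [NeZero b] {E : Surf S (ZMod b)}
  {phi : S ≃ₜ S} {P : ℕ} {d : ZMod b → ℝ} {N : ZMod b → ℕ} {s : ZMod b → ℝ}
  (Y : Sys E phi P d N) (Z : Par N s)

/-- the shift of the strips -/
def Asm_sh (N : ZMod b → ℕ) (m : ℤ) : (ZMod b × ℤ) ≃ (ZMod b × ℤ) where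
  toFun e := (e.1, e.2 + N e.1 * m)
  invFun e := (e.1, e.2 - N e.1 * m)
  left_inv e := by
    refine Prod.ext rfl ?_
    show e.2 + N e.1 * m - N e.1 * m = e.2
    ring
  right_inv e := by
    refine Prod.ext rfl ?_
    show e.2 - N e.1 * m + N e.1 * m = e.2
    ring

omit [NeZero b] in
/-- two strips which are active in the same zone are disjoint -/
theorem Asm_disj (k : ℤ) (e e' : ZMod b × ℤ)
    (h : e.2 = Y.cnt e.1 k ∨ e.2 = Y.cnt e.1 (k + 1))
    (h' : e'.2 = Y.cnt e'.1 k ∨ e'.2 = Y.cnt e'.1 (k + 1)) (hne : e ≠ e') (x : S) :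
    Y.st e.1 e.2 x = 0 ∨ Y.st e'.1 e'.2 x = 0 := by
  obtain ⟨i, c⟩ := e
  obtain ⟨i', c'⟩ := e'
  simp only at h h' ⊢
  by_cases hi : i = i'
  · subst hi
    have hc : c ≠ c' := fun h0 => hne (by rw [h0])
    have h1 := Y.cnt_le i k
    rcases h with h | h <;> rcases h' with h' | h'
    · exact absurd (h.trans h'.symm) hc
    · have h2 : c' = c + 1 := by omega
      rw [h2]
      exact Y.off i c x
    · have h2 : c = c' + 1 := by omega
      rw [h2]
      exact (Y.off i c' x).symm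
    · exact absurd (h.trans h'.symm) hc
  · rcases h with h | h <;> rcases h' with h' | h'
    · rw [h, h']
      exact Y.disj k i i' x hi
    · by_cases ho : Y.own k = i
      · have h2 : Y.own k ≠ i' := fun h0 => hi (ho.symm.trans h0)
        rw [h, h', Y.cnt_ne h2]
        exact Y.disj k i i' x hi
      · rw [h, h', ← Y.cnt_ne ho]
        exact Y.disj (k + 1) i i' x hi
    · by_cases ho : Y.own k = i'
      · have h2 : Y.own k ≠ i := fun h0 => hi (h0.symm.trans ho)
        rw [h, h', Y.cnt_ne h2]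
        exact Y.disj k i i' x hi
      · rw [h, h', ← Y.cnt_ne ho]
        exact Y.disj (k + 1) i i' x hi
    · rw [h, h']
      exact Y.disj (k + 1) i i' x hi

/-- shift of a piecewise linear function -/
theorem Asm_shift {S₁ S₂ : ℤ → ℝ} {m : ℤ} {P : ℕ} (h : ∀ k, S₁ (k + P * m) = S₂ k + m) (t : ℝ) :
    plf S₁ (t + P * m) = plf S₂ t + m := by
  have h1 := plf_add_int S₁ ((P : ℤ) * m) t
  have e1 : t + (((P : ℤ) * m : ℤ) : ℝ) = t + P * m := by push_cast; ring
  rw [e1] at h1
  have e2 : (fun n => S₁ (n + (P : ℤ) * m)) = fun n => 1 * S₂ n + 0 * S₂ n + (m : ℝ) := by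
    funext n
    rw [h]
    ring
  rw [h1, e2, plf_lin]
  ring

include Y Z in
theorem exists_loc (hb : 2 ≤ b) (hP : 0 < P) : Nonempty (Loc E phi P d s (ZMod b × ℤ)) := by
  have _ := hP
  refine ⟨{
    K := fun e => Y.st e.1 e.2
    per := fun k e => e.2 = Y.cnt e.1 k
    A := fun e => plI (SA Y Z e) (SA_step Y Z e) (SA_lo Y Z e) (SA_hi Y Z e)
    B := fun e => plI (SB Y Z e) (SB_step Y Z e) (SB_lo Y Z e) (SB_hi Y Z e)
    AB := ?_
    fin := ?_
    disj := ?_
    sh := Asm_sh N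
    sh_K := ?_
    sh_per := ?_
    sh_A := ?_
    sh_B := ?_
    rot := Y.rot
    rad := ?_
    M := MX Y Z
    M_cont := MX_cont Y Z
    M_mono := MX_mono Y Z hb
    M_th := MX_th Y Z
    M_t := MX_t Y Z
    rel1 := ?_
    rel0 := ?_
    reach := ?_ }⟩
  · intro k e h
    rw [plI_apply, plI_apply, plf_int, plf_int]
    exact SA_eq_SB Y Z h
  · intro k
    refine (Set.finite_range fun i : ZMod b => (i, Y.cnt i k)).subset ?_
    rintro ⟨i, c⟩ h
    exact ⟨i, Prod.ext rfl (Eq.symm h)⟩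
  · intro k e e' h h' hne x
    exact Asm_disj Y k e e' h h' hne x
  · intro m e x
    exact Y.st_per e.1 e.2 m x
  · intro m k e
    show e.2 + N e.1 * m = Y.cnt e.1 (k + P * m) ↔ e.2 = Y.cnt e.1 k
    rw [Y.cnt_per_int]
    constructor
    · intro h; linarith
    · intro h; rw [h]
  · intro m e t
    rw [plI_apply, plI_apply]
    exact Asm_shift (fun k => SA_shift Y Z e m k) t
  · intro m e t
    rw [plI_apply, plI_apply]
    exact Asm_shift (fun k => SB_shift Y Z e m k) t
  · rintro ⟨i, c⟩ j θ r r'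
    show Y.st i c (cl E j θ r) = Y.st i c (cl E j θ r')
    by_cases h1 : j = i
    · subst h1
      rw [Y.tail, Y.tail]
    · by_cases h2 : j = i + 1
      · subst h2
        rw [Y.head, Y.head]
      · rw [Y.other i c j θ r h1 h2, Y.other i c j θ r' h1 h2]
  · rintro k ⟨i, c⟩ j θ r hp hK
    change c = Y.cnt i k at hp
    change Y.st i c (cl E j θ r) ≠ 0 at hK
    subst hp
    by_cases h1 : j = i
    · subst h1
      obtain ⟨C, hC⟩ := MX_tail Y Z hb j k θ r hK
      refine ⟨fun v => v + C, fun u v huv => by show u + C < v + C; linarith, ?_⟩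
      filter_upwards [hC] with z hz t ht
      exact hz t ht
    · by_cases h2 : j = i + 1
      · subst h2
        obtain ⟨C, hC⟩ := MX_head Y Z hb i k θ r hK
        refine ⟨fun v => (1 - N i * Z.ρ i) * v + C, fun u v huv => ?_, ?_⟩
        · show (1 - N i * Z.ρ i) * u + C < (1 - N i * Z.ρ i) * v + C
          have := mul_lt_mul_of_pos_left huv (Z.q_pos i)
          linarith
        · filter_upwards [hC] with z hz t ht
          exact hz t ht
      · exact absurd (Y.other i _ j θ r h1 h2) hK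
  · intro k j θ r h
    exact ⟨MX Y Z j θ, MX_mono Y Z hb j θ, MX_none Y Z j k θ r fun e he => h e he⟩
  · intro k x
    obtain ⟨j, z, hz⟩ := Y.reach k x
    refine ⟨j, z, hz.mono ?_⟩
    rintro y ⟨h1, h2⟩ ⟨i, c⟩ hc
    change c = Y.cnt i k ∨ c = Y.cnt i (k + 1) at hc
    show Y.st i c y = Y.st i c x
    rcases hc with hc | hc
    · rw [hc]; exact h1 i
    · rw [hc]; exact h2 i

end Pool.Agent.H.MP_1611f1_gt.T2
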