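import Pool.Agent.H.MP_1611f1_gt.T2.Sys

/-!
The sign of the rotation of the collars.
-/

namespace Pool.Agent.H.MP_1611f1_gt.T2

open Topology Set Filter

variable {S : Type*} [TopologicalSpace S] {b : ℕ} {E : Surf S (ZMod b)}
  {phi : S ≃ₜ S} {P : ℕ} {d : ZMod b → ℝ} {N : ZMod b → ℕ} (Y : Sys E phi P d N)

/-- a continuous function with `g (θ + 1) = g θ + 1` is at a bounded distance of the identity -/
theorem AsmD_bd {g : ℝ → ℝ} (hg : Continuous g) (h1 : ∀ θ, g (θ + 1) = g θ + 1) :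
    ∃ C : ℝ, ∀ θ, θ - C ≤ g θ := by
  obtain ⟨C, hC⟩ := isCompact_Icc.exists_bound_of_continuousOn (s := Icc (0 : ℝ) 1)
    hg.continuousOn
  have hnat : ∀ (n : ℕ) (θ : ℝ), g (θ + n) = g θ + n := by
    intro n θ
    induction n with
    | zero => simp
    | succ n ih =>
      rw [Nat.cast_succ, ← add_assoc, h1, ih, add_assoc]
  have hint : ∀ (n : ℤ) (θ : ℝ), g (θ + n) = g θ + n := by
    intro n θ
    rcases Int.eq_nat_or_neg n with ⟨m, rfl | rfl⟩
    · simpa using hnat m θ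
    · have := hnat m (θ + -(m : ℝ))
      rw [neg_add_cancel_right] at this
      push_cast
      linarith
  refine ⟨C + 1, fun θ => ?_⟩
  have h2 := hint ⌊θ⌋ (Int.fract θ)
  rw [Int.fract_add_floor] at h2
  have h3 := hC (Int.fract θ) ⟨Int.fract_nonneg θ, (Int.fract_lt_one θ).le⟩
  rw [Real.norm_eq_abs] at h3
  have h4 := (abs_le.1 h3).1
  have h5 := Int.lt_floor_add_one θ
  linarith

include Y in
/-- positive moves turn the collars back -/
theorem d_nonpos (j : ZMod b) : d j ≤ 0 := by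
  obtain ⟨C, hC⟩ := AsmD_bd (Y.Tl_cont j 0) (Y.Tl_one j 0)
  have hdec : ∀ (n : ℕ) (θ : ℝ), Y.Tl j n θ ≤ Y.Tl j 0 θ := by
    intro n θ
    induction n with
    | zero => exact le_rfl
    | succ n ih =>
      have := (Y.Tl_right j n θ).1
      push_cast
      exact this.trans ih
  have hstep : ∀ θ, Y.Tl j 0 (θ + d j) ≤ Y.Tl j 0 θ := by
    intro θ
    rw [← Y.Tl_per j 0 θ, zero_add]
    exact hdec (N j) θ
  have hn : ∀ n : ℕ, Y.Tl j 0 (n * d j) ≤ Y.Tl j 0 0 := by
    intro n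
    induction n with
    | zero => simp
    | succ n ih =>
      have := hstep (n * d j)
      rw [Nat.cast_succ, add_mul, one_mul]
      exact this.trans ih
  by_contra hd
  rw [not_le] at hd
  obtain ⟨n, hn'⟩ := exists_nat_gt ((Y.Tl j 0 0 + C) / d j)
  rw [div_lt_iff₀ hd] at hn'
  have h1 := hC (n * d j)
  have h2 := hn n
  linarith

end Pool.Agent.H.MP_1611f1_gt.T2
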