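import Pool.Agent.H.MP_1611f1_gt.T2.ParA

/-!
The parameters: the clocks.
-/

namespace Pool.Agent.H.MP_1611f1_gt.T2

open Topology Set Filter

/-- the linear map of the recursion -/
noncomputable def ParB_L {b : ℕ} (q : ZMod b → ℝ) : (ZMod b → ℝ) →ₗ[ℝ] (ZMod b → ℝ) where
  toFun v := fun j => v j - q j * v (j - 1)
  map_add' u v := by
    funext j
    simp only [Pi.add_apply]
    ring
  map_smul' c v := by
    funext j
    simp only [Pi.smul_apply, smul_eq_mul, RingHom.id_apply]
    ring

theorem ParB_zero {b : ℕ} [NeZero b] (q : ZMod b → ℝ) (h0 : ∀ j, 0 < q j) (h1 : ∀ j, q j < 1)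
    (v : ZMod b → ℝ) (hv : ∀ j, v j = q j * v (j - 1)) : ∀ j, v j = 0 := by
  obtain ⟨i, hi⟩ := Finite.exists_max fun j => |v j|
  have h2 : |v i| ≤ q i * |v i| := by
    conv_lhs => rw [hv i]
    rw [abs_mul, abs_of_pos (h0 i)]
    exact mul_le_mul_of_nonneg_left (hi (i - 1)) (h0 i).le
  have h3 : |v i| = 0 := by
    have h4 := abs_nonneg (v i)
    have h5 := h1 i
    nlinarith
  intro j
  have h6 := hi j
  have h7 : |v j| ≤ 0 := by
    rw [← h3]
    exact h6
  exact abs_eq_zero.1 (le_antisymm h7 (abs_nonneg _))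

theorem ParB_solve {b : ℕ} [NeZero b] (q : ZMod b → ℝ) (h0 : ∀ j, 0 < q j) (h1 : ∀ j, q j < 1)
    (c : ZMod b → ℝ) (hc : ∀ j, 0 ≤ c j) :
    ∃ v : ZMod b → ℝ, (∀ j, 0 ≤ v j) ∧ ∀ j, v j = q j * v (j - 1) + c j := by
  have hinj : Function.Injective (ParB_L q) := by
    rw [← LinearMap.ker_eq_bot, LinearMap.ker_eq_bot']
    intro v hv
    funext j
    refine ParB_zero q h0 h1 v (fun i => ?_) j
    have h2 := congrFun hv i
    have h3 : v i - q i * v (i - 1) = 0 := h2
    linarith
  have hsurj : Function.Surjective (ParB_L q) := LinearMap.injective_iff_surjective.1 hinj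
  obtain ⟨v, hv⟩ := hsurj c
  have hv' : ∀ j, v j = q j * v (j - 1) + c j := by
    intro j
    have h2 : v j - q j * v (j - 1) = c j := congrFun hv j
    linarith
  obtain ⟨i, hi⟩ := Finite.exists_min v
  have h3 : 0 ≤ v i := by
    have h4 : q i * v i ≤ q i * v (i - 1) := mul_le_mul_of_nonneg_left (hi (i - 1)) (h0 i).le
    have h5 := hv' i
    have h6 := hc i
    have h7 := h1 i
    have h8 : 0 ≤ (1 - q i) * v i := by linarith
    exact nonneg_of_mul_nonneg_right h8 (by linarith)
  exact ⟨v, fun j => h3.trans (hi j), hv'⟩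

/-- the clocks -/
theorem exists_w {b : ℕ} [NeZero b] (N : ZMod b → ℕ) (hN : ∀ j, 0 < N j) (ρ : ZMod b → ℝ)
    (hρ : ∀ j, 0 < ρ j) (hq : ∀ j, 0 < 1 - N j * ρ j) :
    ∃ w : ZMod b → ZMod b → ℝ, (∀ j a, 0 < w j a) ∧ (∀ a, ρ a < w a a) ∧
      (∀ j a, w j a = (1 - N j * ρ j) * w (j - 1) a + if j = a then ρ j else 0) ∧
      ∀ j, ∑ a, w j a * N a = 1 := by
  have hq1 : ∀ j, 1 - N j * ρ j < 1 := by
    intro j
    have h1 : (0 : ℝ) < N j := Nat.cast_pos.2 (hN j)
    have h2 := mul_pos h1 (hρ j)
    linarith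
  have hex : ∀ a : ZMod b, ∃ v : ZMod b → ℝ, (∀ j, 0 ≤ v j) ∧
      ∀ j, v j = (1 - N j * ρ j) * v (j - 1) + if j = a then ρ j else 0 := by
    intro a
    refine ParB_solve _ hq hq1 (fun j => if j = a then ρ j else 0) (fun j => ?_)
    split_ifs
    · exact (hρ j).le
    · exact le_rfl
  choose v hv0 hvr using hex
  have hpos : ∀ a j, 0 < v a j := by
    intro a
    refine cyc_ind a ?_ ?_
    · have h1 := hvr a a
      rw [if_pos rfl] at h1
      have h2 := mul_nonneg (hq a).le (hv0 a (a - 1))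
      have h3 := hρ a
      linarith
    · intro j hj
      have h1 := hvr a (j + 1)
      rw [add_sub_cancel_right] at h1
      have h2 := mul_pos (hq (j + 1)) hj
      have h3 : 0 ≤ if j + 1 = a then ρ (j + 1) else 0 := by
        split_ifs
        · exact (hρ _).le
        · exact le_rfl
      linarith
  refine ⟨fun j a => v a j, fun j a => hpos a j, fun a => ?_, fun j a => hvr a j, ?_⟩
  · have h1 := hvr a a
    rw [if_pos rfl] at h1
    have h2 := mul_pos (hq a) (hpos a (a - 1))
    show ρ a < v a a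
    linarith
  · have hz := ParB_zero (fun j => 1 - N j * ρ j) hq hq1 (fun j => ∑ a, v a j * N a - 1) ?_
    · intro j
      have h1 : ∑ a, v a j * N a - 1 = 0 := hz j
      show ∑ a, v a j * N a = 1
      linarith
    · intro j
      show ∑ a, v a j * N a - 1 = (1 - N j * ρ j) * (∑ a, v a (j - 1) * N a - 1)
      have h1 : ∑ a, v a j * N a = (1 - N j * ρ j) * ∑ a, v a (j - 1) * N a + ρ j * N j := by
        have h2 : ∀ a, v a j * N a = (1 - N j * ρ j) * (v a (j - 1) * N a) +
            if j = a then ρ j * N j else 0 := by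
          intro a
          rw [hvr a j]
          split_ifs with h
          · subst h
            ring
          · ring
        rw [Finset.sum_congr rfl fun a _ => h2 a, Finset.sum_add_distrib, ← Finset.mul_sum,
          Finset.sum_ite_eq, if_pos (Finset.mem_univ _)]
      rw [h1]
      ring

theorem exists_par {b : ℕ} [NeZero b] (N : ZMod b → ℕ) (hN : ∀ j, 0 < N j) (s : ZMod b → ℝ)
    (hs : ∀ j, 0 ≤ s j) : Nonempty (Par N s) := by
  by_cases hs0 : ∃ j, s j ≠ 0
  · obtain ⟨ρ, hρ, hq, hρs⟩ := exists_rho N hN s hs hs0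
    obtain ⟨w, h1, h2, h3, h4⟩ := exists_w N hN ρ hρ hq
    exact ⟨{
      ρ := ρ
      f := fun j => s j + ρ (j - 1)
      w := w
      ρ_nonneg := fun j => (hρ j).le
      f_nonneg := fun j => add_nonneg (hs j) (hρ _).le
      q_pos := hq
      f_eq := hρs
      s_eq := fun j => by ring
      w_pos := h1
      w_diag := h2
      w_rec := h3
      w_sum := h4 }⟩
  · push Not at hs0
    have hb : (0 : ℝ) < b := Nat.cast_pos.2 (Nat.pos_of_ne_zero (NeZero.ne b))
    have hNp : ∀ j, (0 : ℝ) < N j := fun j => Nat.cast_pos.2 (hN j)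
    have hw : ∀ a, (0 : ℝ) < 1 / (b * N a) := fun a => one_div_pos.2 (mul_pos hb (hNp a))
    exact ⟨{
      ρ := fun _ => 0
      f := fun _ => 0
      w := fun _ a => 1 / (b * N a)
      ρ_nonneg := fun j => le_rfl
      f_nonneg := fun j => le_rfl
      q_pos := fun j => by simp
      f_eq := fun j => by simp
      s_eq := fun j => by simp [hs0 j]
      w_pos := fun j a => hw a
      w_diag := fun a => hw a
      w_rec := fun j a => by simp
      w_sum := fun j => by
        have h1 : ∀ a, 1 / ((b : ℝ) * N a) * N a = 1 / b := by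
          intro a
          have h2 := (hNp a).ne'
          have h3 := hb.ne'
          field_simp
        rw [Finset.sum_congr rfl fun a _ => h1 a, Finset.sum_const, Finset.card_univ, ZMod.card,
          nsmul_eq_mul]
        have h3 := hb.ne'
        field_simp }⟩

end Pool.Agent.H.MP_1611f1_gt.T2
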