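import Pool.Agent.H.MP_1611f1_gt.T2.AsmD
import Pool.Agent.H.MP_1611f1_gt.T2.ParB

/-!
The size of the rotation of the collars, and the parameters for given weights.
-/

namespace Pool.Agent.H.MP_1611f1_gt.T2

open Topology Set Filter

/-- a continuous function with `F (θ + 1) = F θ + 1` is at bounded distance from the identity -/
theorem AsmE_bdd {F : ℝ → ℝ} (hF : Continuous F) (h1 : ∀ θ, F (θ + 1) = F θ + 1) :
    ∃ C, ∀ θ, |F θ - θ| ≤ C := by
  obtain ⟨C, hC⟩ := (isCompact_Icc (a := (0 : ℝ)) (b := 1)).exists_bound_of_continuousOn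
    ((hF.sub continuous_id).continuousOn)
  refine ⟨C, fun θ => ?_⟩
  have hint : ∀ (n : ℤ) θ, F (θ + n) = F θ + n := by
    intro n
    induction n using Int.induction_on with
    | zero => intro θ; simp
    | succ n ih =>
      intro θ
      push_cast
      rw [← add_assoc, h1]
      have := ih θ
      push_cast at this
      rw [this]; ring
    | pred n ih =>
      intro θ
      have h2 := h1 (θ + ((-(n : ℤ) - 1 : ℤ) : ℝ))
      have h3 := ih θ
      have e : θ + ((-(n : ℤ) - 1 : ℤ) : ℝ) + 1 = θ + ((-(n : ℤ) : ℤ) : ℝ) := by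
        push_cast; ring
      rw [e, h3] at h2
      push_cast at h2 ⊢
      linarith
  have h2 := hC (Int.fract θ) ⟨Int.fract_nonneg _, (Int.fract_lt_one _).le⟩
  have h3 := hint ⌊θ⌋ (Int.fract θ)
  rw [Int.fract_add_floor] at h3
  have h4 : F θ - θ = F (Int.fract θ) - Int.fract θ := by
    rw [h3]
    have := Int.fract_add_floor θ
    linarith
  rw [h4]
  exact h2

variable {S : Type*} [TopologicalSpace S] {b : ℕ} {E : Surf S (ZMod b)}
  {phi : S ≃ₜ S} {P : ℕ} {d : ZMod b → ℝ} {N : ZMod b → ℕ} (Y : Sys E phi P d N)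

include Y in
/-- a period turns the collar by at most as many full turns as there are moves -/
theorem d_ge (j : ZMod b) : -(N (j - 1) : ℝ) ≤ d j := by
  obtain ⟨C, hC⟩ := AsmE_bdd (Y.Hd_cont (j - 1) 0) (Y.Hd_one (j - 1) 0)
  have hmv : ∀ (n : ℕ) (c : ℤ) θ, Y.Hd (j - 1) c θ ≤ Y.Hd (j - 1) (c + n) θ + n := by
    intro n
    induction n with
    | zero => intro c θ; simp
    | succ n ih =>
      intro c θ
      have h1 := ih c θ
      have h2 := (Y.Hd_right (j - 1) (c + n) θ).2
      have e : c + ((n + 1 : ℕ) : ℤ) = c + n + 1 := by push_cast; ring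
      rw [e]
      push_cast
      linarith
  have hone : ∀ θ, Y.Hd (j - 1) 0 θ ≤ Y.Hd (j - 1) 0 (θ + d j) + N (j - 1) := by
    intro θ
    have h1 := hmv (N (j - 1)) 0 θ
    rw [Y.Hd_per, sub_add_cancel] at h1
    exact h1
  have hn : ∀ n : ℕ, Y.Hd (j - 1) 0 0 ≤ Y.Hd (j - 1) 0 (n * d j) + n * N (j - 1) := by
    intro n
    induction n with
    | zero => simp
    | succ n ih =>
      have h1 := hone (n * d j)
      have e : (n : ℝ) * d j + d j = ((n + 1 : ℕ) : ℝ) * d j := by push_cast; ring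
      rw [e] at h1
      push_cast at h1 ⊢
      linarith
  by_contra hlt
  push Not at hlt
  have hpos : 0 < -(N (j - 1) : ℝ) - d j := by linarith
  obtain ⟨n, hn1⟩ := exists_nat_gt ((C - Y.Hd (j - 1) 0 0) / (-(N (j - 1) : ℝ) - d j))
  rw [div_lt_iff₀ hpos] at hn1
  have h2 := hn n
  have h3 := (abs_le.1 (hC (n * d j))).2
  nlinarith

/-- the parameters for given weights -/
theorem par_of_rho [NeZero b] (hN : ∀ j, 0 < N j) {s : ZMod b → ℝ} (ρ : ZMod b → ℝ)
    (hρ : ∀ j, 0 < ρ j) (hq : ∀ j, N j * ρ j < 1)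
    (hs : ∀ j, s j = ρ j / (1 - N j * ρ j) - ρ (j - 1)) : Nonempty (Par N s) := by
  have hq' : ∀ j, 0 < 1 - N j * ρ j := fun j => by linarith [hq j]
  obtain ⟨w, h1, h2, h3, h4⟩ := exists_w N hN ρ hρ hq'
  exact ⟨{
    ρ := ρ
    f := fun j => ρ j / (1 - N j * ρ j)
    w := w
    ρ_nonneg := fun j => (hρ j).le
    f_nonneg := fun j => div_nonneg (hρ j).le (hq' j).le
    q_pos := hq'
    f_eq := fun j => mul_div_cancel₀ _ (hq' j).ne'
    s_eq := hs
    w_pos := h1
    w_diag := h2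
    w_rec := h3
    w_sum := h4 }⟩

end Pool.Agent.H.MP_1611f1_gt.T2
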