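import Pool.Agent.H.MP_1611f1_gt.T2.Loc

/-!
The mapping torus part of the filled manifold.
-/

namespace Pool.Agent.H.MP_1611f1_gt.T2

open Topology Set Filter

variable {S : Type*} [TopologicalSpace S] {J : Type*} {E : Surf S J} {phi : S ≃ₜ S} {d : J → ℝ}
  {al be ga de : J → ℤ} {Y : Type*} [TopologicalSpace Y]

/-- the mapping torus part, with the time rescaled so that the deck transformation is `P` -/
noncomputable def PP (Fl : RotFilling E phi d al be ga de Y) (P : ℕ) (z : S × ℝ) : Y :=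
  Fl.p (z.1, z.2 / P)

/-- the collar part in the coordinates `(θ, r, t)` -/
noncomputable def QQ (Fl : RotFilling E phi d al be ga de Y) (P : ℕ) (j : J)
    (z : ℝ × Ioo (1 : ℝ) 2 × ℝ) : Y :=
  PP Fl P (cl E j z.1 z.2.1, z.2.2)

variable (Fl : RotFilling E phi d al be ga de Y) {P : ℕ}

/-- the rescaling of time -/
noncomputable def ChA_scale (S : Type*) [TopologicalSpace S] (P : ℕ) (hP : 0 < P) :
    (S × ℝ) ≃ₜ (S × ℝ) :=
  (Homeomorph.refl S).prodCongr
    (Homeomorph.mulRight₀ ((P : ℝ)⁻¹) (inv_ne_zero (by positivity)))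

theorem PP_loc (hP : 0 < P) : IsLocalHomeomorph (PP Fl P) := by
  have h : PP Fl P = Fl.p ∘ (ChA_scale S P hP) := by
    funext z
    obtain ⟨x, t⟩ := z
    simp [PP, ChA_scale, div_eq_mul_inv, Homeomorph.prodCongr]
  rw [h]
  exact Fl.p_loc.comp (ChA_scale S P hP).isLocalHomeomorph

theorem PP_cont (hP : 0 < P) : Continuous (PP Fl P) := (PP_loc Fl hP).continuous

theorem PP_open (hP : 0 < P) : IsOpenMap (PP Fl P) := (PP_loc Fl hP).isOpenMap

theorem PP_eq (hP : 0 < P) (x : S) (t : ℝ) (x' : S) (t' : ℝ) :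
    PP Fl P (x, t) = PP Fl P (x', t') ↔ ∃ k : ℤ, t' = t + P * k ∧ x = (phi ^ k) x' := by
  have hP' : (P : ℝ) ≠ 0 := by positivity
  simp only [PP]
  rw [Fl.p_eq]
  refine exists_congr fun k => and_congr_left fun _ => ?_
  constructor
  · intro h
    field_simp at h
    linarith
  · rintro rfl
    field_simp

theorem PP_inj (hP : 2 ≤ P) (U : Set S) {c c' : ℝ} (hcc : c' - c ≤ 2) :
    InjOn (PP Fl P) (U ×ˢ Ioo c c') := by
  rintro ⟨x, t⟩ ⟨_, ht⟩ ⟨x', t'⟩ ⟨_, ht'⟩ h
  have hP0 : 0 < P := by omega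
  obtain ⟨k, h1, h2⟩ := (PP_eq Fl hP0 x t x' t').1 h
  simp only [mem_Ioo] at ht ht'
  have hn1 : (2 : ℝ) ≤ P := by exact_mod_cast hP
  have hk : k = 0 := by
    by_contra hk
    have h3 : (1 : ℝ) ≤ |(k : ℝ)| := by
      rw [← Int.cast_abs]
      exact_mod_cast Int.one_le_abs hk
    have h4 : |t' - t| < 2 := by
      rw [abs_lt]
      constructor <;> linarith [ht.1, ht.2, ht'.1, ht'.2]
    have h5 : t' - t = P * k := by linarith
    rw [h5, abs_mul, Nat.abs_cast] at h4
    nlinarith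
  subst hk
  simp only [Int.cast_zero, mul_zero, add_zero] at h1
  simp only [zpow_zero, Homeomorph.one_apply] at h2
  rw [h1, h2]

end Pool.Agent.H.MP_1611f1_gt.T2
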