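import Pool.Agent.H.MP_1611f1_gt.ChB
import Pool.Agent.H.MP_1611f1_gt.T2.ChA

/-!
The collars of the filled manifold.
-/

namespace Pool.Agent.H.MP_1611f1_gt.T2

open Topology Set Filter

variable {S : Type*} [TopologicalSpace S] {J : Type*} {E : Surf S J} {phi : S ≃ₜ S} {d : J → ℝ}
  {al be ga de : J → ℤ} {Y : Type*} [TopologicalSpace Y]

variable (Fl : RotFilling E phi d al be ga de Y) {P : ℕ}

theorem cl_cont (j : J) : Continuous fun z : ℝ × Ioo (1 : ℝ) 2 => cl E j z.1 z.2 :=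
  (E.emb j).continuous.comp
    (((AddCircle.continuous_mk' (1 : ℝ)).comp continuous_fst).prodMk continuous_snd)

theorem cl_open (j : J) : IsOpenMap fun z : ℝ × Ioo (1 : ℝ) 2 => cl E j z.1 z.2 := by
  have h0 : IsOpenMap (fun y : ℝ => (y : AddCircle (1 : ℝ))) := QuotientAddGroup.isOpenMap_coe
  have h1 : IsOpenMap (Prod.map (fun y : ℝ => (y : AddCircle (1 : ℝ)))
      (id : Ioo (1 : ℝ) 2 → Ioo (1 : ℝ) 2)) := h0.prodMap IsOpenMap.id
  exact (E.emb j).isOpenMap.comp h1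

theorem cl_eq {i j : J} {θ θ' : ℝ} {r r' : Ioo (1 : ℝ) 2} (h : cl E i θ r = cl E j θ' r') :
    i = j ∧ r = r' ∧ ∃ n : ℤ, θ' = θ + n := by
  have hj : i = j := E.disj _ _ _ _ h
  subst hj
  have hw := (E.emb i).injective h
  have hr : r = r' := congrArg Prod.snd hw
  have hy : ((θ : ℝ) : AddCircle (1 : ℝ)) = ((θ' : ℝ) : AddCircle (1 : ℝ)) := congrArg Prod.fst hw
  rw [QuotientAddGroup.eq, AddSubgroup.mem_zmultiples_iff] at hy
  obtain ⟨m, hm⟩ := hy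
  refine ⟨rfl, hr, m, ?_⟩
  rw [zsmul_eq_mul, mul_one] at hm
  rw [hm]
  ring

theorem cl_int (j : J) (θ : ℝ) (r : Ioo (1 : ℝ) 2) (n : ℤ) : cl E j (θ + n) r = cl E j θ r := by
  have h1 : (((θ + n : ℝ)) : AddCircle (1 : ℝ)) = ((θ : ℝ) : AddCircle (1 : ℝ)) := by
    symm
    rw [QuotientAddGroup.eq, AddSubgroup.mem_zmultiples_iff]
    refine ⟨n, ?_⟩
    rw [zsmul_eq_mul, mul_one]
    ring
  unfold cl
  rw [h1]

/-- every point of the collar -/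
theorem exists_cl (j : J) (w : AddCircle (1 : ℝ) × Ioo (1 : ℝ) 2) :
    ∃ θ : ℝ, E.collar j w = cl E j θ w.2 := by
  obtain ⟨θ, hθ⟩ := QuotientAddGroup.mk_surjective w.1
  refine ⟨θ, ?_⟩
  have h1 : w = (((θ : ℝ) : AddCircle (1 : ℝ)), w.2) := Prod.ext hθ.symm rfl
  unfold cl
  rw [← h1]

theorem zpow_cl (hrot : ∀ j θ r, phi (cl E j θ r) = cl E j (θ + d j) r) (k : ℤ) (j : J) (θ : ℝ)
    (r : Ioo (1 : ℝ) 2) : (phi ^ k) (cl E j θ r) = cl E j (θ + d j * k) r := by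
  have hinv : ∀ θ : ℝ, (phi⁻¹ : S ≃ₜ S) (cl E j θ r) = cl E j (θ - d j) r := by
    intro θ
    have h : phi.symm (cl E j θ r) = cl E j (θ - d j) r := by
      rw [Homeomorph.symm_apply_eq, hrot]
      congr 1
      ring
    exact h
  induction k using Int.induction_on generalizing θ with
  | zero => simp
  | succ i ih =>
    rw [zpow_add_one]
    change (phi ^ (i : ℤ)) (phi (cl E j θ r)) = _
    rw [hrot, ih]
    congr 1
    push_cast
    ring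
  | pred i ih =>
    rw [zpow_sub_one]
    change (phi ^ (-(i : ℤ))) ((phi⁻¹ : S ≃ₜ S) (cl E j θ r)) = _
    rw [hinv, ih]
    congr 1
    push_cast
    ring

theorem QQ_cont (hP : 0 < P) (j : J) : Continuous (QQ Fl P j) := by
  have h1 : Continuous (fun z : ℝ × Ioo (1 : ℝ) 2 × ℝ => (z.1, z.2.1)) :=
    continuous_fst.prodMk (continuous_fst.comp continuous_snd)
  have h2 : Continuous (fun z : ℝ × Ioo (1 : ℝ) 2 × ℝ => (cl E j z.1 z.2.1, z.2.2)) :=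
    ((cl_cont j).comp h1).prodMk (continuous_snd.comp continuous_snd)
  exact (PP_cont Fl hP).comp h2

theorem QQ_open (hP : 0 < P) (j : J) : IsOpenMap (QQ Fl P j) := by
  have h2 := (cl_open (E := E) j).prodMap (IsOpenMap.id (X := ℝ))
  have h3 := h2.comp (Homeomorph.prodAssoc ℝ (Ioo (1 : ℝ) 2) ℝ).symm.isOpenMap
  exact (PP_open Fl hP).comp h3

theorem QQ_torus (j : J) (z : ℝ × Ioo (1 : ℝ) 2 × ℝ) :
    QQ Fl P j z = Fl.q j
      (polar z.2.1 (al j • ((z.1 + d j * (z.2.2 / P) : ℝ) : AddCircle (1 : ℝ)) +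
        ((be j * (z.2.2 / P) : ℝ) : AddCircle (1 : ℝ))),
        ga j • ((z.1 + d j * (z.2.2 / P) : ℝ) : AddCircle (1 : ℝ)) +
        ((de j * (z.2.2 / P) : ℝ) : AddCircle (1 : ℝ))) :=
  Fl.glue j _ _ _

/-- points with the same image in the collar part -/
theorem QQ_eq (hP : 0 < P) (hrot : ∀ j θ r, phi (cl E j θ r) = cl E j (θ + d j) r) (j j' : J)
    (z z' : ℝ × Ioo (1 : ℝ) 2 × ℝ) (h : QQ Fl P j z = QQ Fl P j' z') :
    j = j' ∧ z.2.1 = z'.2.1 ∧ ∃ k m : ℤ, z'.1 = z.1 - d j * k + m ∧ z'.2.2 = z.2.2 + P * k := by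
  obtain ⟨k, hk, hx⟩ := (PP_eq Fl hP _ _ _ _).mp h
  rw [zpow_cl hrot] at hx
  obtain ⟨hj, hr, m, hm⟩ := cl_eq hx
  subst hj
  exact ⟨rfl, hr, k, m, by linarith, hk⟩

theorem QQ_per (hP : 0 < P) (hrot : ∀ j θ r, phi (cl E j θ r) = cl E j (θ + d j) r) (j : J)
    (θ : ℝ) (r : Ioo (1 : ℝ) 2) (t : ℝ) (k m : ℤ) :
    QQ Fl P j (θ - d j * k + m, r, t + P * k) = QQ Fl P j (θ, r, t) := by
  symm
  refine (PP_eq Fl hP _ _ _ _).mpr ⟨k, rfl, ?_⟩
  show cl E j θ r = (phi ^ k) (cl E j (θ - d j * k + m) r)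
  rw [zpow_cl hrot]
  have h1 : θ - d j * k + m + d j * k = θ + m := by ring
  rw [h1, cl_int]

end Pool.Agent.H.MP_1611f1_gt.T2
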