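import Pool.Agent.H.MP_1611f1_gt.T2.ChB

/-!
Points over the collars; trichotomy.
-/

namespace Pool.Agent.H.MP_1611f1_gt.T2

open Topology Set Filter

variable {S : Type*} [TopologicalSpace S] {J : Type*} {E : Surf S J} {phi : S ≃ₜ S} {d : J → ℝ}
  {al be ga de : J → ℤ} {Y : Type*} [TopologicalSpace Y]

variable (Fl : RotFilling E phi d al be ga de Y) {P : ℕ}

theorem norm_polar (r : Ioo (1 : ℝ) 2) (ψ : AddCircle (1 : ℝ)) :
    ‖((polar r ψ : Metric.ball (0 : ℂ) 2) : ℂ)‖ = r := by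
  have h1 := r.2.1
  rw [polar, norm_mul, Circle.norm_coe, mul_one, Complex.norm_real,
      Real.norm_of_nonneg (by linarith)]

/-- the outer part of the solid torus is in the image of `QQ`, with the same radius -/
theorem exists_QQ_torus (hP : 0 < P) (hdet : ∀ j, al j * de j - be j * ga j = 1) (j : J)
    (w : Metric.ball (0 : ℂ) 2) (h : AddCircle (1 : ℝ)) (hw : 1 < ‖(w : ℂ)‖) :
    ∃ z : ℝ × Ioo (1 : ℝ) 2 × ℝ, Fl.q j (w, h) = QQ Fl P j z ∧ (z.2.1 : ℝ) = ‖(w : ℂ)‖ := by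
  have hr : ‖(w : ℂ)‖ ∈ Ioo (1 : ℝ) 2 := ⟨hw, mem_ball_zero_iff.1 w.2⟩
  obtain ⟨b, hb⟩ := QuotientAddGroup.mk_surjective h
  set a : ℝ := Complex.arg (w : ℂ) / (2 * Real.pi) with ha
  have hpol : polar ⟨‖(w : ℂ)‖, hr⟩ ((a : ℝ) : AddCircle (1 : ℝ)) = w := by
    apply Subtype.ext
    show ((‖(w : ℂ)‖ : ℝ) : ℂ) * (AddCircle.toCircle ((a : ℝ) : AddCircle (1 : ℝ)) : ℂ) = w
    rw [AddCircle.toCircle_apply_mk, Circle.coe_exp]
    have h3 : 2 * Real.pi / 1 * a = Complex.arg (w : ℂ) := by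
      rw [ha]
      field_simp
    rw [h3]
    exact Complex.norm_mul_exp_arg_mul_I _
  have hP' : (P : ℝ) ≠ 0 := by positivity
  have hd : (al j : ℝ) * de j - be j * ga j = 1 := by exact_mod_cast hdet j
  refine ⟨((de j * a - be j * b) - d j * (-(ga j) * a + al j * b), ⟨‖(w : ℂ)‖, hr⟩,
    P * (-(ga j) * a + al j * b)), ?_, rfl⟩
  rw [QQ_torus]
  have h2 : (P * (-(ga j) * a + al j * b)) / (P : ℝ) = -(ga j) * a + al j * b := by
    field_simp
  simp only [h2]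
  have h1 : (de j * a - be j * b) - d j * (-(ga j) * a + al j * b) +
      d j * (-(ga j) * a + al j * b) = de j * a - be j * b := by ring
  rw [h1]
  have e1 : al j • (((de j * a - be j * b : ℝ)) : AddCircle (1 : ℝ)) +
      ((be j * (-(ga j) * a + al j * b) : ℝ) : AddCircle (1 : ℝ)) =
      ((a : ℝ) : AddCircle (1 : ℝ)) := by
    rw [← AddCircle.coe_zsmul, ← AddCircle.coe_add]
    congr 1
    rw [zsmul_eq_mul]
    linear_combination a * hd
  have e2 : ga j • (((de j * a - be j * b : ℝ)) : AddCircle (1 : ℝ)) +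
      ((de j * (-(ga j) * a + al j * b) : ℝ) : AddCircle (1 : ℝ)) =
      ((b : ℝ) : AddCircle (1 : ℝ)) := by
    rw [← AddCircle.coe_zsmul, ← AddCircle.coe_add]
    congr 1
    rw [zsmul_eq_mul]
    linear_combination b * hd
  rw [e1, e2, hpol]
  exact congrArg (fun x => Fl.q j (w, x)) hb.symm

/-- every point of `Y` is over the surface outside the collars, or over a collar, or in the
core of a solid torus -/
theorem trichotomy (hP : 0 < P) (hdet : ∀ j, al j * de j - be j * ga j = 1) (y : Y) :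
    (∃ x t, y = PP Fl P (x, t) ∧ ∀ j w, x ≠ E.collar j w) ∨
    (∃ j z, y = QQ Fl P j z) ∨
    (∃ j w h, y = Fl.q j (w, h) ∧ ‖(w : ℂ)‖ ≤ 1) := by
  rcases Fl.cover y with ⟨⟨x, t⟩, hz⟩ | ⟨j, ⟨w, h⟩, hz⟩
  · have hP' : (P : ℝ) ≠ 0 := by positivity
    have h1 : y = PP Fl P (x, P * t) := by
      rw [← hz]
      unfold PP
      congr 2
      field_simp
    by_cases hx : ∃ j w, x = E.collar j w
    · obtain ⟨j, w, rfl⟩ := hx
      obtain ⟨θ, hθ⟩ := exists_cl (E := E) j w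
      refine Or.inr (Or.inl ⟨j, (θ, w.2, P * t), h1.trans ?_⟩)
      unfold QQ
      rw [← hθ]
    · push Not at hx
      exact Or.inl ⟨x, _, h1, hx⟩
  · by_cases hw : ‖(w : ℂ)‖ ≤ 1
    · exact Or.inr (Or.inr ⟨j, w, h, hz.symm, hw⟩)
    · obtain ⟨z, hz', -⟩ := exists_QQ_torus Fl hP hdet j w h (not_le.1 hw)
      exact Or.inr (Or.inl ⟨j, z, hz.symm.trans hz'⟩)

/-- no point of the mapping torus is in the core -/
theorem core_ne (j : J) (w : Metric.ball (0 : ℂ) 2)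
    (h : AddCircle (1 : ℝ)) (hw : ‖(w : ℂ)‖ ≤ 1) (x : S) (t : ℝ) :
    PP Fl P (x, t) ≠ Fl.q j (w, h) := by
  intro he
  obtain ⟨w', hw'⟩ := Fl.overlap x (t / P) j (w, h) he
  obtain ⟨θ, hθ⟩ := exists_cl (E := E) j w'
  have h1 : QQ Fl P j (θ, w'.2, t) = Fl.q j (w, h) := by
    rw [← he, hw', hθ]
    rfl
  rw [QQ_torus] at h1
  have h2 := (Fl.q_emb j).injective h1
  have h3 := (Prod.mk.inj h2).1
  have h4 := congrArg (fun v : Metric.ball (0 : ℂ) 2 => ‖(v : ℂ)‖) h3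
  simp only [norm_polar] at h4
  have h5 := w'.2.2.1
  linarith

end Pool.Agent.H.MP_1611f1_gt.T2
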