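import Pool.Agent.H.MP_1611f1_gt.Defs

/-!
Definitions for the theorem on positive monodromies: cyclic systems of arcs, moves, fillings.
-/

namespace Pool.Agent.H.MP_1611f1_gt.T2

open Topology Set Filter

/-- `Y` is the Dehn filling of the mapping torus of `phi` (mapping torus: `p`; solid tori: `q j`),
where `phi` turns the collar `j` by the angle `d j`. The longitude and the angle are measured in
the frame which turns with the same speed: the point `(θ, r, t)` has the angle `θ + d j t` in this
frame. (So `Y` is a filling of the mapping torus of the homeomorphism `phi'` which is the identity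
near the ends and which one obtains from `phi` by turning the collar `j` back by the angle `d j`;
for `d = 0` this is `Filling`.) The solid torus is glued by the matrix `(al, be; ga, de)`: the
point with the angle `ω` in the turning frame, radius `r` and time `t` is glued to the point with
polar coordinates `(r, al ω + be t)` and height `ga ω + de t`; the meridian disc is
`height = const`, and the slope of the meridian in the `(ω, t)`-torus is `- ga / de`. -/
structure RotFilling {S : Type*} [TopologicalSpace S] {J : Type*} (E : Surf S J) (phi : S ≃ₜ S)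
    (d : J → ℝ) (al be ga de : J → ℤ) (Y : Type*) [TopologicalSpace Y] where
  p : S × ℝ → Y
  q : J → Metric.ball (0 : ℂ) 2 × AddCircle (1 : ℝ) → Y
  p_loc : IsLocalHomeomorph p
  p_eq : ∀ x t x' t', p (x, t) = p (x', t') ↔ ∃ k : ℤ, t' = t + k ∧ x = (phi ^ k) x'
  q_emb : ∀ j, IsOpenEmbedding (q j)
  q_disj : ∀ i j z w, q i z = q j w → i = j
  glue : ∀ (j : J) (θ : ℝ) (r : Ioo (1 : ℝ) 2) (t : ℝ),
    p (E.collar j ((θ : AddCircle (1 : ℝ)), r), t) =
      q j (polar r (al j • ((θ + d j * t : ℝ) : AddCircle (1 : ℝ)) +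
          ((be j * t : ℝ) : AddCircle (1 : ℝ))),
        ga j • ((θ + d j * t : ℝ) : AddCircle (1 : ℝ)) + ((de j * t : ℝ) : AddCircle (1 : ℝ)))
  overlap : ∀ x t j z, p (x, t) = q j z → ∃ w, x = E.collar j w
  cover : ∀ y, (∃ z, p z = y) ∨ ∃ j z, q j z = y

/-- A cyclic system of `b` disjoint arcs in a surface with `b` ends: the arc `i` goes from the end
`i` to the end `i + 1` (`i ∈ ℤ/b`). It is given by its collapse map `c i` (the value is `0` outside
a co-oriented strip around the arc, and runs from `0` to `1` when one crosses the strip); the strips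
are disjoint. Going once around the end `i` (in the direction of increasing angle) one crosses the
strip `i` once in the positive direction, and going once around the end `i + 1` one crosses it once
in the negative direction: `Tl i`, `Hd i` are the lifts of `c i` and `- c i` on these circles. -/
structure Strips {S : Type*} [TopologicalSpace S] {b : ℕ} (E : Surf S (ZMod b)) where
  c : ZMod b → C(S, AddCircle (1 : ℝ))
  disj : ∀ i k x, i ≠ k → c i x = 0 ∨ c k x = 0
  Tl : ZMod b → ℝ → ℝ
  Hd : ZMod b → ℝ → ℝ
  Tl_cont : ∀ i, Continuous (Tl i)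
  Hd_cont : ∀ i, Continuous (Hd i)
  Tl_mono : ∀ i, Monotone (Tl i)
  Hd_mono : ∀ i, Monotone (Hd i)
  Tl_one : ∀ i θ, Tl i (θ + 1) = Tl i θ + 1
  Hd_one : ∀ i θ, Hd i (θ + 1) = Hd i θ + 1
  tail : ∀ (i : ZMod b) (θ : ℝ) (r : Ioo (1 : ℝ) 2),
    c i (E.collar i ((θ : AddCircle (1 : ℝ)), r)) = ((Tl i θ : ℝ) : AddCircle (1 : ℝ))
  head : ∀ (i : ZMod b) (θ : ℝ) (r : Ioo (1 : ℝ) 2),
    c i (E.collar (i + 1) ((θ : AddCircle (1 : ℝ)), r)) = ((-(Hd i θ) : ℝ) : AddCircle (1 : ℝ))
  other : ∀ (i j : ZMod b) z, j ≠ i → j ≠ i + 1 → c i (E.collar j z) = 0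

/-- A sequence of moves `g 0, …, g (P-1)`: the homeomorphism `g k` preserves the collars (acting on
the angles of the collar `j` by `G k j`), it preserves all strips except the strip `own k`, and it
moves the strip `own k` off itself, to the same side at both ends (`right_T`, `right_H`: on the
circles around the two ends the preimage of the strip is on the side of larger angles of the
strip). Every strip is moved at least once, and the product of the moves turns the collar `j` by
the angle `d j`. The last condition says that every point can be joined to an end inside the level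
sets of the collapse maps (of the arcs before and after the move). -/
structure Moves {S : Type*} [TopologicalSpace S] {b : ℕ} {E : Surf S (ZMod b)} (A : Strips E)
    (P : ℕ) (d : ZMod b → ℝ) where
  g : Fin P → (S ≃ₜ S)
  own : Fin P → ZMod b
  G : Fin P → ZMod b → (ℝ ≃o ℝ)
  G_one : ∀ k j θ, G k j (θ + 1) = G k j θ + 1
  g_col : ∀ (k : Fin P) (j : ZMod b) (θ : ℝ) (r : Ioo (1 : ℝ) 2),
    g k (E.collar j ((θ : AddCircle (1 : ℝ)), r)) =
      E.collar j (((G k j θ : ℝ) : AddCircle (1 : ℝ)), r)
  keep : ∀ k i x, i ≠ own k → A.c i (g k x) = A.c i x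
  keep_T : ∀ k i θ, i ≠ own k → A.Tl i (G k i θ) = A.Tl i θ
  keep_H : ∀ k i θ, i ≠ own k → A.Hd i (G k (i + 1) θ) = A.Hd i θ
  off : ∀ k x, A.c (own k) (g k x) = 0 ∨ A.c (own k) x = 0
  right_T : ∀ k θ, A.Tl (own k) (G k (own k) θ) ≤ A.Tl (own k) θ ∧
    A.Tl (own k) θ ≤ A.Tl (own k) (G k (own k) θ) + 1
  right_H : ∀ k θ, A.Hd (own k) (G k (own k + 1) θ) ≤ A.Hd (own k) θ ∧
    A.Hd (own k) θ ≤ A.Hd (own k) (G k (own k + 1) θ) + 1
  surj : Function.Surjective own
  rot : ∀ j θ, (List.ofFn fun i => G (Fin.rev i) j).prod θ = θ + d j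
  reach : ∀ (k : Fin P) (x : S), ∃ (j : ZMod b) (z : AddCircle (1 : ℝ) × Ioo (1 : ℝ) 2),
    JoinedIn {y | (∀ i, A.c i y = A.c i x) ∧ A.c (own k) (g k y) = A.c (own k) (g k x)} x
      (E.collar j z)

/-- the monodromy `g (P-1) ⋯ g 1 g 0` -/
def Moves.phi {S : Type*} [TopologicalSpace S] {b : ℕ} {E : Surf S (ZMod b)} {A : Strips E}
    {P : ℕ} {d : ZMod b → ℝ} (Φ : Moves A P d) : S ≃ₜ S :=
  (List.ofFn fun i => Φ.g (Fin.rev i)).prod

/-- the number of moves of the strip `j` -/
def Moves.num {S : Type*} [TopologicalSpace S] {b : ℕ} {E : Surf S (ZMod b)} {A : Strips E}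
    {P : ℕ} {d : ZMod b → ℝ} (Φ : Moves A P d) (j : ZMod b) : ℕ :=
  (Finset.univ.filter fun k => Φ.own k = j).card

end Pool.Agent.H.MP_1611f1_gt.T2
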