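import Pool.Agent.H.MP_1611f1_gt.Fib
import Pool.Agent.H.MP_1611f1_gt.TypA
import Pool.Agent.H.MP_1611f1_gt.TypB
import Pool.Agent.H.MP_1611f1_gt.T2.Defs

/-!
The abstract data (strips, functions in the strips, functions over the collars), and the
definitions of the slices.
-/

namespace Pool.Agent.H.MP_1611f1_gt.T2

open Topology Set Filter

/-- the point of the collar with the angle `θ : ℝ` -/
noncomputable def cl {S : Type*} [TopologicalSpace S] {J : Type*} (E : Surf S J) (j : J) (θ : ℝ)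
    (r : Ioo (1 : ℝ) 2) : S := E.collar j ((θ : AddCircle (1 : ℝ)), r)

/-- blending from `A` to `B` -/
noncomputable def Fe2 (A B : ℝ ≃o ℝ) (u t : ℝ) : ℝ := (1 - chi u) * A t + chi u * B t

/-- Strips (with collapse maps `K e`), the times at which they are present (`per k e`), the
functions in them (blending of `A e` and `B e`; they agree at the integer times at which the strip
is not present), the functions `M j` over the collars, of slope `s j`. A strip which is present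
at the time `k` is active in the zones `[k-1,k]` and `[k,k+1]`. -/
structure Loc {S : Type*} [TopologicalSpace S] {J : Type*} (E : Surf S J) (phi : S ≃ₜ S) (P : ℕ)
    (d s : J → ℝ) (ι : Type*) where
  K : ι → C(S, AddCircle (1 : ℝ))
  per : ℤ → ι → Prop
  A : ι → (ℝ ≃o ℝ)
  B : ι → (ℝ ≃o ℝ)
  AB : ∀ k e, ¬ per k e → A e k = B e k
  fin : ∀ k, {e | per k e}.Finite
  disj : ∀ k e e', (per k e ∨ per (k + 1) e) → (per k e' ∨ per (k + 1) e') → e ≠ e' →
    ∀ x, K e x = 0 ∨ K e' x = 0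
  sh : ℤ → (ι ≃ ι)
  sh_K : ∀ m e x, K (sh m e) x = K e ((phi ^ m) x)
  sh_per : ∀ m k e, per (k + P * m) (sh m e) ↔ per k e
  sh_A : ∀ m e t, A (sh m e) (t + P * m) = A e t + m
  sh_B : ∀ m e t, B (sh m e) (t + P * m) = B e t + m
  rot : ∀ j θ r, phi (cl E j θ r) = cl E j (θ + d j) r
  rad : ∀ e j θ r r', K e (cl E j θ r) = K e (cl E j θ r')
  M : J → ℝ → ℝ → ℝ
  M_cont : ∀ j, Continuous fun z : ℝ × ℝ => M j z.1 z.2
  M_mono : ∀ j θ, StrictMono (M j θ)
  M_th : ∀ j θ t, M j (θ + 1) t = M j θ t - s j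
  M_t : ∀ j θ t, M j θ (t + P) = M j (θ + d j) t + 1
  rel1 : ∀ k e j θ r, per k e → K e (cl E j θ r) ≠ 0 → ∃ G : ℝ → ℝ, StrictMono G ∧
    ∀ᶠ z : ℝ × Ioo (1 : ℝ) 2 in 𝓝 (θ, r), ∀ t ∈ Icc ((k : ℝ) - 1) (k + 1),
      M j z.1 t = G (Fe2 (A e) (B e) (lft (K e (cl E j z.1 z.2))) t)
  rel0 : ∀ k j θ r, (∀ e, per k e ∨ per (k + 1) e → ‖K e (cl E j θ r)‖ < 1 / 4) →
    ∃ G : ℝ → ℝ, StrictMono G ∧ ∀ᶠ z : ℝ × Ioo (1 : ℝ) 2 in 𝓝 (θ, r),
      ∀ t ∈ Icc (k : ℝ) (k + 1), M j z.1 t = G t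
  reach : ∀ (k : ℤ) (x : S), ∃ (j : J) (z : AddCircle (1 : ℝ) × Ioo (1 : ℝ) 2),
    JoinedIn {y | ∀ e, per k e ∨ per (k + 1) e → K e y = K e x} x (E.collar j z)

variable {S : Type*} [TopologicalSpace S] {J : Type*} {E : Surf S J} {phi : S ≃ₜ S} {P : ℕ}
  {d s : J → ℝ} {ι : Type*} (Λ : Loc E phi P d s ι)

namespace Loc

/-- the strip `e` is active in the zone `[k, k+1]` -/
def act (k : ℤ) (e : ι) : Prop := Λ.per k e ∨ Λ.per (k + 1) e

/-- types active in a zone -/
def actO (k : ℤ) (a : Option ι) : Prop :=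
  match a with
  | none => True
  | some e => Λ.act k e

/-- types not present at the time `k` -/
def inaO (k : ℤ) (a : Option ι) : Prop :=
  match a with
  | none => True
  | some e => ¬ Λ.per k e

/-- the open sets of the types, in the zone `[k, k+1]` -/
def VV (k : ℤ) (a : Option ι) : Set S :=
  match a with
  | none => {x | ∀ e, Λ.act k e → ‖Λ.K e x‖ < 1 / 4}
  | some e => {x | Λ.K e x ≠ 0}

/-- the transverse functions of the types -/
noncomputable def Fa (a : Option ι) (x : S) (t : ℝ) : ℝ :=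
  match a with
  | none => t
  | some e => Fe2 (Λ.A e) (Λ.B e) (lft (Λ.K e x)) t

/-- the value of the transverse function at an integer time at which the type is not present -/
noncomputable def val (k : ℤ) (a : Option ι) : ℝ :=
  match a with
  | none => k
  | some e => Λ.A e k

/-- the shift of the types -/
def shO (m : ℤ) (a : Option ι) : Option ι := a.map (Λ.sh m)

/-- admissible pairs of types at the slice `k`: `a` in the zone `[k-1,k]`, `b` in the zone
`[k,k+1]` -/
def Adm (k : ℤ) (a b : Option ι) : Prop :=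
  Λ.actO (k - 1) a ∧ Λ.actO k b ∧
    ((Λ.inaO k a ∧ Λ.inaO k b) ∨ ∃ e, Λ.per k e ∧ a = some e ∧ b = some e)

/-- the domain of a pair of types -/
def DD (k : ℤ) (a b : Option ι) : Set S := Λ.VV (k - 1) a ∩ Λ.VV k b

/-- the function of a pair of types -/
noncomputable def Fs (k : ℤ) (a b : Option ι) (x : S) (t : ℝ) : ℝ :=
  if t ≤ k then Λ.Fa a x t - Λ.val k a else Λ.Fa b x t - Λ.val k b

end Loc

theorem Fe2_cont (A B : ℝ ≃o ℝ) : Continuous fun z : ℝ × ℝ => Fe2 A B z.1 z.2 := by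
  have h1 : Continuous fun z : ℝ × ℝ => chi z.1 := chi_cont.comp continuous_fst
  have h2 : Continuous fun z : ℝ × ℝ => A z.2 := A.continuous.comp continuous_snd
  have h3 : Continuous fun z : ℝ × ℝ => B z.2 := B.continuous.comp continuous_snd
  unfold Fe2
  exact ((continuous_const.sub h1).mul h2).add (h1.mul h3)

theorem Fe2_mono (A B : ℝ ≃o ℝ) (u : ℝ) : StrictMono (Fe2 A B u) := by
  intro s t hst
  have h1 : A s < A t := A.strictMono hst
  have h1' : B s < B t := B.strictMono hst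
  have h2 := chi_nonneg u
  have h3 := chi_le_one u
  unfold Fe2
  rcases h2.lt_or_eq with h | h
  · have h4 : chi u * B s < chi u * B t := mul_lt_mul_of_pos_left h1' h
    have h5 : (1 - chi u) * A s ≤ (1 - chi u) * A t :=
      mul_le_mul_of_nonneg_left h1.le (by linarith)
    linarith
  · rw [← h]; linarith

theorem Fe2_small (A B : ℝ ≃o ℝ) {u : ℝ} (hu : u ≤ 1 / 4) (t : ℝ) : Fe2 A B u t = A t := by
  rw [Fe2, chi_zero hu]; ring

theorem Fe2_large (A B : ℝ ≃o ℝ) {u : ℝ} (hu : 3 / 4 ≤ u) (t : ℝ) : Fe2 A B u t = B t := by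
  rw [Fe2, chi_one hu]; ring

theorem Fe2_eq (A B : ℝ ≃o ℝ) (u : ℝ) {t : ℝ} (h : A t = B t) : Fe2 A B u t = A t := by
  rw [Fe2, ← h]; ring

end Pool.Agent.H.MP_1611f1_gt.T2
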