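import Pool.Agent.H.MP_1611f1_gt.ColC
import Pool.Agent.H.MP_1611f1_gt.T2.Loc

/-!
Blending with the linear function.
-/

namespace Pool.Agent.H.MP_1611f1_gt.T2

open Topology Set Filter

variable {S : Type*} [TopologicalSpace S] {J : Type*} {E : Surf S J} {phi : S ≃ₜ S} {P : ℕ}
  {d s : J → ℝ} {ι : Type*} (Λ : Loc E phi P d s ι)

namespace Loc

theorem M_th_int (j : J) (θ t : ℝ) (n : ℤ) : Λ.M j (θ + n) t = Λ.M j θ t - s j * n := by
  induction n using Int.induction_on with
  | zero => simp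
  | succ n ih =>
    have h := Λ.M_th j (θ + ((n : ℤ) : ℝ)) t
    rw [ih] at h
    have e : θ + (((n : ℤ) + 1 : ℤ) : ℝ) = θ + ((n : ℤ) : ℝ) + 1 := by push_cast; ring
    rw [e, h]
    push_cast
    ring
  | pred n ih =>
    have h := Λ.M_th j (θ + ((-(n : ℤ) - 1 : ℤ) : ℝ)) t
    have e : θ + ((-(n : ℤ) - 1 : ℤ) : ℝ) + 1 = θ + ((-(n : ℤ) : ℤ) : ℝ) := by push_cast; ring
    rw [e, ih] at h
    have h' : Λ.M j (θ + ((-(n : ℤ) - 1 : ℤ) : ℝ)) t =
        Λ.M j θ t - s j * ((-(n : ℤ) : ℤ) : ℝ) + s j := by linarith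
    rw [h']
    push_cast
    ring

theorem M_t_int (j : J) (θ t : ℝ) (m : ℤ) :
    Λ.M j (θ - d j * m) (t + P * m) = Λ.M j θ t + m := by
  induction m using Int.induction_on with
  | zero => simp
  | succ n ih =>
    have h := Λ.M_t j (θ - d j * (((n : ℤ) + 1 : ℤ) : ℝ)) (t + P * ((n : ℤ) : ℝ))
    have e1 : θ - d j * (((n : ℤ) + 1 : ℤ) : ℝ) + d j = θ - d j * ((n : ℤ) : ℝ) := by
      push_cast; ring
    have e2 : t + P * ((n : ℤ) : ℝ) + P = t + P * (((n : ℤ) + 1 : ℤ) : ℝ) := by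
      push_cast; ring
    rw [e1, e2, ih] at h
    rw [h]
    push_cast
    ring
  | pred n ih =>
    have h := Λ.M_t j (θ - d j * ((-(n : ℤ) : ℤ) : ℝ)) (t + P * ((-(n : ℤ) - 1 : ℤ) : ℝ))
    have e1 : θ - d j * ((-(n : ℤ) : ℤ) : ℝ) + d j = θ - d j * ((-(n : ℤ) - 1 : ℤ) : ℝ) := by
      push_cast; ring
    have e2 : t + P * ((-(n : ℤ) - 1 : ℤ) : ℝ) + P = t + P * ((-(n : ℤ) : ℤ) : ℝ) := by
      push_cast; ring
    rw [e1, e2, ih] at h
    have h' : Λ.M j (θ - d j * ((-(n : ℤ) - 1 : ℤ) : ℝ)) (t + P * ((-(n : ℤ) - 1 : ℤ) : ℝ)) =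
        Λ.M j θ t + ((-(n : ℤ) : ℤ) : ℝ) - 1 := by linarith
    rw [h']
    push_cast
    ring

/-- the blended function: `M` for `r ≥ 5/3`, linear for `r ≤ 4/3` -/
noncomputable def MR (j : J) (θ r t : ℝ) : ℝ :=
  lam r * Λ.M j θ t + (1 - lam r) * ((1 - s j * d j) / P * t - s j * θ)

theorem MR_cont (j : J) : Continuous fun z : ℝ × ℝ × ℝ => Λ.MR j z.1 z.2.1 z.2.2 := by
  have h1 : Continuous fun z : ℝ × ℝ × ℝ => Λ.M j z.1 z.2.2 :=
    (Λ.M_cont j).comp (continuous_fst.prodMk (continuous_snd.comp continuous_snd))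
  have h2 : Continuous fun z : ℝ × ℝ × ℝ => lam z.2.1 :=
    lam_cont.comp (continuous_fst.comp continuous_snd)
  have h3 : Continuous fun z : ℝ × ℝ × ℝ => (1 - s j * d j) / P * z.2.2 - s j * z.1 :=
    (continuous_const.mul (continuous_snd.comp continuous_snd)).sub
      (continuous_const.mul continuous_fst)
  exact (h2.mul h1).add ((continuous_const.sub h2).mul h3)

/-- the slope of the linear function is positive -/
theorem CoC_slope (hP : 0 < P) (j : J) (hsd : s j * d j < 1) : 0 < (1 - s j * d j) / P := by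
  have h : (0 : ℝ) < P := by exact_mod_cast hP
  exact div_pos (by linarith) h

theorem MR_mono (hP : 0 < P) (j : J) (hsd : s j * d j < 1) (θ r : ℝ) :
    StrictMono (Λ.MR j θ r) := by
  intro t t' h
  have h1 : Λ.M j θ t < Λ.M j θ t' := Λ.M_mono j θ h
  have h0 := lam_nonneg r
  have h2 := lam_le_one r
  have ha := CoC_slope (s := s) (d := d) hP j hsd
  have h6 : (1 - s j * d j) / P * t < (1 - s j * d j) / P * t' := mul_lt_mul_of_pos_left h ha
  change lam r * Λ.M j θ t + (1 - lam r) * ((1 - s j * d j) / P * t - s j * θ) <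
    lam r * Λ.M j θ t' + (1 - lam r) * ((1 - s j * d j) / P * t' - s j * θ)
  rcases h0.eq_or_lt with h3 | h3
  · rw [← h3]
    linarith
  · have h4 : lam r * Λ.M j θ t < lam r * Λ.M j θ t' := mul_lt_mul_of_pos_left h1 h3
    have h5 : (1 - lam r) * ((1 - s j * d j) / P * t - s j * θ) ≤
        (1 - lam r) * ((1 - s j * d j) / P * t' - s j * θ) :=
      mul_le_mul_of_nonneg_left (by linarith) (by linarith)
    linarith

theorem MR_shift (hP : 0 < P) (j : J) (θ r t : ℝ) (m n : ℤ) :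
    Λ.MR j (θ - d j * m + n) r (t + P * m) = Λ.MR j θ r t + (m - s j * n) := by
  have h : (P : ℝ) ≠ 0 := by
    have : (0 : ℝ) < P := by exact_mod_cast hP
    exact this.ne'
  have e : (1 - s j * d j) / P * (t + P * m) =
      (1 - s j * d j) / P * t + (1 - s j * d j) * m := by
    field_simp
  unfold MR
  rw [Λ.M_th_int, Λ.M_t_int, e]
  ring

theorem MR_outer (j : J) (θ t : ℝ) {r : ℝ} (hr : 5 / 3 ≤ r) : Λ.MR j θ r t = Λ.M j θ t := by
  rw [MR, lam_one hr]; ring

theorem MR_inner (j : J) (θ t : ℝ) {r : ℝ} (hr : r ≤ 4 / 3) :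
    Λ.MR j θ r t = (1 - s j * d j) / P * t - s j * θ := by
  rw [MR, lam_zero hr]; ring

/-- the function `M` is at bounded distance from the linear function -/
theorem CoC_bdd (hP : 0 < P) (j : J) :
    ∃ C : ℝ, ∀ θ t, |Λ.M j θ t - ((1 - s j * d j) / P * t - s j * θ)| ≤ C := by
  have hP' : (0 : ℝ) < P := by exact_mod_cast hP
  have hc : Continuous fun z : ℝ × ℝ =>
      Λ.M j z.1 z.2 - ((1 - s j * d j) / P * z.2 - s j * z.1) :=
    (Λ.M_cont j).sub ((continuous_const.mul continuous_snd).sub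
      (continuous_const.mul continuous_fst))
  obtain ⟨C, hC⟩ := (isCompact_Icc.prod isCompact_Icc : IsCompact
    (Icc (0 : ℝ) 1 ×ˢ Icc (0 : ℝ) P)).exists_bound_of_continuousOn hc.continuousOn
  refine ⟨C, fun θ t => ?_⟩
  let m : ℤ := -⌊t / P⌋
  let n : ℤ := -⌊θ - d j * m⌋
  have h := hC (θ - d j * m + n, t + P * m) ?_
  · have e : (1 - s j * d j) / P * (t + P * m) =
        (1 - s j * d j) / P * t + (1 - s j * d j) * m := by
      field_simp
    rw [Λ.M_th_int, Λ.M_t_int, e, Real.norm_eq_abs] at h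
    have e2 : Λ.M j θ t - ((1 - s j * d j) / P * t - s j * θ) =
        Λ.M j θ t + m - s j * n - ((1 - s j * d j) / P * t + (1 - s j * d j) * m -
          s j * (θ - d j * m + n)) := by ring
    rw [e2]
    exact h
  · have e1 : t = t / P * P := by field_simp
    have h1 := Int.floor_le (t / P)
    have h2 := (Int.lt_floor_add_one (t / P)).le
    have h3 := Int.floor_le (θ - d j * m)
    have h4 := (Int.lt_floor_add_one (θ - d j * m)).le
    have h5 : (m : ℝ) = -(⌊t / P⌋ : ℝ) := by simp [m]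
    have h6 : (n : ℝ) = -(⌊θ - d j * m⌋ : ℝ) := by simp [n]
    have h7 : (⌊t / P⌋ : ℝ) * P ≤ t / P * P := mul_le_mul_of_nonneg_right h1 hP'.le
    have h8 : t / P * P ≤ ((⌊t / P⌋ : ℝ) + 1) * P := mul_le_mul_of_nonneg_right h2 hP'.le
    refine ⟨⟨?_, ?_⟩, ⟨?_, ?_⟩⟩
    · show 0 ≤ θ - d j * m + n
      rw [h6]; linarith
    · show θ - d j * m + n ≤ 1
      rw [h6]; linarith
    · show 0 ≤ t + P * m
      rw [h5]; linarith
    · show t + P * m ≤ P
      rw [h5]; linarith

/-- the leaves over a radial segment: for every `θ, r, t, r'` there is a unique `t'` on the same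
level, depending continuously on `r'` -/
theorem MR_solve (hP : 0 < P) (j : J) (hsd : s j * d j < 1) (θ c : ℝ) :
    ∃ g : ℝ → ℝ, Continuous g ∧ ∀ r, Λ.MR j θ r (g r) = c := by
  have hmono : ∀ r, StrictMono (Λ.MR j θ r) := fun r => Λ.MR_mono hP j hsd θ r
  have hcont : ∀ r, Continuous (Λ.MR j θ r) := fun r =>
    (Λ.MR_cont j).comp (continuous_const.prodMk (continuous_const.prodMk continuous_id))
  have ha := CoC_slope (s := s) (d := d) hP j hsd
  obtain ⟨C, hC⟩ := Λ.CoC_bdd hP j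
  have hb : ∀ r t, |Λ.MR j θ r t - ((1 - s j * d j) / P * t - s j * θ)| ≤ C := by
    intro r t
    have e : Λ.MR j θ r t - ((1 - s j * d j) / P * t - s j * θ) =
        lam r * (Λ.M j θ t - ((1 - s j * d j) / P * t - s j * θ)) := by
      unfold MR; ring
    rw [e, abs_mul, abs_of_nonneg (lam_nonneg r)]
    have h1 := hC θ t
    have h2 := mul_le_mul (lam_le_one r) h1 (abs_nonneg _) zero_le_one
    linarith
  have htop : ∀ r, Tendsto (Λ.MR j θ r) atTop atTop := by
    intro r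
    refine tendsto_atTop_mono (f := fun t => (1 - s j * d j) / P * t + (-(s j * θ) - C))
      (fun t => ?_) (tendsto_atTop_add_const_right _ _ (tendsto_id.const_mul_atTop ha))
    have := (abs_le.1 (hb r t)).1
    linarith
  have hbot : ∀ r, Tendsto (Λ.MR j θ r) atBot atBot := by
    intro r
    refine tendsto_atBot_mono (f := fun t => (1 - s j * d j) / P * t + (-(s j * θ) + C))
      (fun t => ?_) (tendsto_atBot_add_const_right _ _ (tendsto_id.const_mul_atBot ha))
    have := (abs_le.1 (hb r t)).2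
    linarith
  choose g hg using fun r => (hcont r).surjective (htop r) (hbot r) c
  refine ⟨g, ?_, hg⟩
  rw [continuous_iff_continuousAt]
  intro r0
  have hr : ∀ t, Continuous fun r => Λ.MR j θ r t := fun t =>
    (Λ.MR_cont j).comp (continuous_const.prodMk (continuous_id.prodMk continuous_const))
  refine tendsto_order.2 ⟨fun t ht => ?_, fun t ht => ?_⟩
  · have h1 : Λ.MR j θ r0 t < c := by
      rw [← hg r0]
      exact hmono r0 ht
    have h2 : ∀ᶠ r in 𝓝 r0, Λ.MR j θ r t < c :=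
      ((hr t).tendsto r0).eventually (gt_mem_nhds h1)
    filter_upwards [h2] with r h3
    rw [← hg r] at h3
    exact (hmono r).lt_iff_lt.1 h3
  · have h1 : c < Λ.MR j θ r0 t := by
      rw [← hg r0]
      exact hmono r0 ht
    have h2 : ∀ᶠ r in 𝓝 r0, c < Λ.MR j θ r t :=
      ((hr t).tendsto r0).eventually (lt_mem_nhds h1)
    filter_upwards [h2] with r h3
    rw [← hg r] at h3
    exact (hmono r).lt_iff_lt.1 h3

end Loc

end Pool.Agent.H.MP_1611f1_gt.T2
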