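import Pool.Agent.H.MP_1611f1_gt.ChD
import Pool.Agent.H.MP_1611f1_gt.T2.ChB
import Pool.Agent.H.MP_1611f1_gt.T2.CoC

/-!
The types of charts.
-/

namespace Pool.Agent.H.MP_1611f1_gt.T2

open Topology Set Filter

variable {S : Type*} [TopologicalSpace S] {J : Type*} {E : Surf S J} {phi : S ≃ₜ S} {P : ℕ}
  {d s : J → ℝ} {ι : Type*} (Λ : Loc E phi P d s ι) {al be ga de : J → ℤ} {Y : Type*}
  [TopologicalSpace Y] (Fl : RotFilling E phi d al be ga de Y)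

/-- charts over the outer part of the surface -/
def IsI (c : OpenPartialHomeomorph Y ((ℝ × ℝ) × ℝ)) : Prop :=
  ∃ (k : ℤ) (a b : Option ι) (ξ : OpenPartialHomeomorph S (ℝ × ℝ)), Λ.Adm k a b ∧
    c.source = PP Fl P '' ((ξ.source ∩ Out E ∩ Λ.DD k a b) ×ˢ Ioo ((k : ℝ) - 1) (k + 1)) ∧
    ∀ z ∈ (ξ.source ∩ Out E ∩ Λ.DD k a b) ×ˢ Ioo ((k : ℝ) - 1) (k + 1),
      (c (PP Fl P z)).2 = Λ.Fs k a b z.1 z.2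

/-- charts over the collars -/
def IsII (c : OpenPartialHomeomorph Y ((ℝ × ℝ) × ℝ)) : Prop :=
  ∃ (j : J) (θ₀ t₀ : ℝ),
    c.source = QQ Fl P j '' (Ioo θ₀ (θ₀ + 1) ×ˢ (univ ×ˢ Ioo t₀ (t₀ + 1))) ∧
    ∀ z ∈ Ioo θ₀ (θ₀ + 1) ×ˢ ((univ : Set (Ioo (1 : ℝ) 2)) ×ˢ Ioo t₀ (t₀ + 1)),
      (c (QQ Fl P j z)).2 = Λ.MR j z.1 z.2.1 z.2.2

/-- charts in the cores of the solid tori -/
def IsIII (c : OpenPartialHomeomorph Y ((ℝ × ℝ) × ℝ)) : Prop :=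
  ∃ (j : J) (s₀ : ℝ),
    c.source = Fl.q j '' {z | ‖(z.1 : ℂ)‖ < 4 / 3 ∧ ∃ s ∈ Ioo s₀ (s₀ + 1),
      z.2 = ((s : ℝ) : AddCircle (1 : ℝ))} ∧
    ∀ (w : Metric.ball (0 : ℂ) 2) (s : ℝ), ‖(w : ℂ)‖ < 4 / 3 → s ∈ Ioo s₀ (s₀ + 1) →
      (c (Fl.q j (w, ((s : ℝ) : AddCircle (1 : ℝ))))).2 = ((de j).sign : ℝ) * s

/-- all charts -/
def AllCharts : Set (OpenPartialHomeomorph Y ((ℝ × ℝ) × ℝ)) :=
  {c | IsI Λ Fl c ∨ IsII Λ Fl c ∨ IsIII Fl c}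

end Pool.Agent.H.MP_1611f1_gt.T2
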