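import Pool.Agent.H.MP_1611f1_gt.T2.SlA

/-!
Slices: the domains.
-/

namespace Pool.Agent.H.MP_1611f1_gt.T2

open Topology Set Filter

variable {S : Type*} [TopologicalSpace S] {J : Type*} {E : Surf S J} {phi : S ≃ₜ S} {P : ℕ}
  {d s : J → ℝ} {ι : Type*} (Λ : Loc E phi P d s ι)

namespace Loc

theorem DD_open (k : ℤ) (a b : Option ι) : IsOpen (Λ.DD k a b) :=
  (Λ.VV_open _ a).inter (Λ.VV_open _ b)

theorem SlB_type (k m : ℤ) (x : S) (h : ∀ e, Λ.per k e → Λ.K e x = 0) :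
    ∃ a, Λ.actO m a ∧ Λ.inaO k a ∧ x ∈ Λ.VV m a := by
  by_cases h1 : ∃ e, Λ.act m e ∧ Λ.K e x ≠ 0
  · obtain ⟨e, he, hne⟩ := h1
    exact ⟨some e, he, fun h2 => hne (h e h2), hne⟩
  · refine ⟨none, trivial, trivial, ?_⟩
    intro e he
    have h2 : Λ.K e x = 0 := by
      by_contra hne
      exact h1 ⟨e, he, hne⟩
    rw [h2, norm_zero]
    norm_num

/-- every point has an admissible pair of types -/
theorem DD_cover (k : ℤ) (x : S) : ∃ a b, Λ.Adm k a b ∧ x ∈ Λ.DD k a b := by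
  by_cases h : ∃ e, Λ.per k e ∧ Λ.K e x ≠ 0
  · obtain ⟨e, he, hne⟩ := h
    refine ⟨some e, some e, ⟨?_, Or.inl he, Or.inr ⟨e, he, rfl, rfl⟩⟩, hne, hne⟩
    refine Or.inr ?_
    rw [sub_add_cancel]
    exact he
  · have h0 : ∀ e, Λ.per k e → Λ.K e x = 0 := by
      intro e he
      by_contra hne
      exact h ⟨e, he, hne⟩
    obtain ⟨a, ha, ha', hxa⟩ := SlB_type Λ k (k - 1) x h0
    obtain ⟨b, hb, hb', hxb⟩ := SlB_type Λ k k x h0
    exact ⟨a, b, ⟨ha, hb, Or.inl ⟨ha', hb'⟩⟩, hxa, hxb⟩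

end Loc

end Pool.Agent.H.MP_1611f1_gt.T2
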