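import Pool.Agent.H.MP_1611f1_gt.T2.SlA

/-!
Slices: the functions, deck transformations.
-/

namespace Pool.Agent.H.MP_1611f1_gt.T2

open Topology Set Filter

variable {S : Type*} [TopologicalSpace S] {J : Type*} {E : Surf S J} {phi : S ≃ₜ S} {P : ℕ}
  {d s : J → ℝ} {ι : Type*} (Λ : Loc E phi P d s ι)

namespace Loc

theorem Fs_junction {k : ℤ} {a b : Option ι} (h : Λ.Adm k a b) (x : S) :
    Λ.Fa a x k - Λ.val k a = Λ.Fa b x k - Λ.val k b := by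
  obtain ⟨-, -, ⟨h1, h2⟩ | ⟨e, -, rfl, rfl⟩⟩ := h
  · rw [Λ.Fa_val h1, Λ.Fa_val h2, sub_self, sub_self]
  · rfl

theorem Fs_ge {k : ℤ} {a b : Option ι} (h : Λ.Adm k a b) (x : S) {t : ℝ} (ht : (k : ℝ) ≤ t) :
    Λ.Fs k a b x t = Λ.Fa b x t - Λ.val k b := by
  unfold Fs
  rcases ht.eq_or_lt with rfl | ht
  · rw [if_pos le_rfl]
    exact Λ.Fs_junction h x
  · rw [if_neg (not_le.2 ht)]

theorem Fs_le {k : ℤ} {a b : Option ι} {x : S} {t : ℝ} (ht : t ≤ (k : ℝ)) :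
    Λ.Fs k a b x t = Λ.Fa a x t - Λ.val k a := if_pos ht

theorem Fs_cont {k : ℤ} {a b : Option ι} (h : Λ.Adm k a b) :
    ContinuousOn (fun z : S × ℝ => Λ.Fs k a b z.1 z.2) (Λ.DD k a b ×ˢ univ) := by
  have h1 : ContinuousOn (fun z : S × ℝ => Λ.Fa a z.1 z.2 - Λ.val k a)
      (Λ.DD k a b ×ˢ univ) :=
    ((Λ.Fa_cont (k - 1) a).mono (prod_mono inter_subset_left le_rfl)).sub continuousOn_const
  have h2 : ContinuousOn (fun z : S × ℝ => Λ.Fa b z.1 z.2 - Λ.val k b)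
      (Λ.DD k a b ×ˢ univ) :=
    ((Λ.Fa_cont k b).mono (prod_mono inter_subset_right le_rfl)).sub continuousOn_const
  rw [continuousOn_iff_continuous_domRestrict] at h1 h2 ⊢
  have h3 : Continuous (fun z : (Λ.DD k a b ×ˢ (univ : Set ℝ)) => (z : S × ℝ).2) :=
    continuous_snd.comp continuous_subtype_val
  have h4 := Continuous.if_le (f := fun z : (Λ.DD k a b ×ˢ (univ : Set ℝ)) => (z : S × ℝ).2)
    (g := fun _ => (k : ℝ)) h1 h2 h3 continuous_const (by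
      rintro ⟨⟨x, t⟩, ⟨hx, hu⟩⟩ hz
      have hz' : t = (k : ℝ) := hz
      subst hz'
      exact Λ.Fs_junction h x)
  exact h4

theorem Fs_mono {k : ℤ} {a b : Option ι} (h : Λ.Adm k a b) (x : S) :
    StrictMono (Λ.Fs k a b x) := by
  intro t t' htt
  rcases le_total t' (k : ℝ) with h1 | h1
  · rw [Λ.Fs_le h1, Λ.Fs_le (htt.le.trans h1)]
    exact sub_lt_sub_right (Λ.Fa_mono a x htt) _
  · rcases le_total (k : ℝ) t with h2 | h2
    · rw [Λ.Fs_ge h x h1, Λ.Fs_ge h x h2]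
      exact sub_lt_sub_right (Λ.Fa_mono b x htt) _
    · rw [Λ.Fs_ge h x h1, Λ.Fs_le h2]
      have e := Λ.Fs_junction h x
      have l1 := (Λ.Fa_mono a x).monotone h2
      have l2 := (Λ.Fa_mono b x).monotone h1
      rcases h2.eq_or_lt with h3 | h3
      · subst h3
        rw [e]
        exact sub_lt_sub_right (Λ.Fa_mono b x htt) _
      · have l3 := Λ.Fa_mono a x h3
        linarith

theorem SlC_act (k m : ℤ) (e : ι) : Λ.act (k + P * m) (Λ.sh m e) ↔ Λ.act k e := by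
  have e1 : k + P * m + 1 = (k + 1) + P * m := by ring
  unfold act
  rw [e1, Λ.sh_per, Λ.sh_per]

theorem SlC_actO (k m : ℤ) (a : Option ι) :
    Λ.actO (k + P * m) (Λ.shO m a) ↔ Λ.actO k a := by
  cases a with
  | none => exact Iff.rfl
  | some e => exact Λ.SlC_act k m e

theorem SlC_inaO (k m : ℤ) (a : Option ι) :
    Λ.inaO (k + P * m) (Λ.shO m a) ↔ Λ.inaO k a := by
  cases a with
  | none => exact Iff.rfl
  | some e => exact not_congr (Λ.sh_per m k e)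

theorem SlC_VV (k m : ℤ) (a : Option ι) (x : S) :
    x ∈ Λ.VV (k + P * m) (Λ.shO m a) ↔ (phi ^ m) x ∈ Λ.VV k a := by
  cases a with
  | none =>
    constructor
    · intro h e he
      have h1 := h (Λ.sh m e) ((Λ.SlC_act k m e).2 he)
      rwa [Λ.sh_K] at h1
    · intro h e he
      have h1 : Λ.sh m ((Λ.sh m).symm e) = e := (Λ.sh m).apply_symm_apply e
      have h2 := h ((Λ.sh m).symm e) ((Λ.SlC_act k m _).1 (by rw [h1]; exact he))
      rw [← Λ.sh_K, h1] at h2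
      exact h2
  | some e =>
    show Λ.K (Λ.sh m e) x ≠ 0 ↔ Λ.K e ((phi ^ m) x) ≠ 0
    rw [Λ.sh_K]

theorem SlC_Fa (m : ℤ) (a : Option ι) (k : ℤ) (x : S) (t : ℝ) :
    Λ.Fa (Λ.shO m a) x (t + P * m) - Λ.val (k + P * m) (Λ.shO m a) =
      Λ.Fa a ((phi ^ m) x) t - Λ.val k a := by
  cases a with
  | none =>
    show t + P * m - ((k + P * m : ℤ) : ℝ) = t - (k : ℝ)
    push_cast
    ring
  | some e =>
    show Fe2 (Λ.A (Λ.sh m e)) (Λ.B (Λ.sh m e)) (lft (Λ.K (Λ.sh m e) x)) (t + P * m) -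
      Λ.A (Λ.sh m e) ((k + P * m : ℤ) : ℝ) =
        Fe2 (Λ.A e) (Λ.B e) (lft (Λ.K e ((phi ^ m) x))) t - Λ.A e k
    have e1 : (((k + P * m : ℤ)) : ℝ) = (k : ℝ) + P * m := by push_cast; ring
    rw [e1, Λ.sh_A, Λ.sh_K]
    unfold Fe2
    rw [Λ.sh_A, Λ.sh_B]
    ring

theorem Adm_shift {k : ℤ} {a b : Option ι} (h : Λ.Adm k a b) (m : ℤ) :
    Λ.Adm (k + P * m) (Λ.shO m a) (Λ.shO m b) := by
  have e1 : k + P * m - 1 = (k - 1) + P * m := by ring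
  obtain ⟨h1, h2, h3⟩ := h
  refine ⟨?_, (Λ.SlC_actO k m b).2 h2, ?_⟩
  · rw [e1]
    exact (Λ.SlC_actO (k - 1) m a).2 h1
  · rcases h3 with ⟨h4, h5⟩ | ⟨e, h4, rfl, rfl⟩
    · exact Or.inl ⟨(Λ.SlC_inaO k m a).2 h4, (Λ.SlC_inaO k m b).2 h5⟩
    · exact Or.inr ⟨Λ.sh m e, (Λ.sh_per m k e).2 h4, rfl, rfl⟩

theorem DD_shift (k m : ℤ) (a b : Option ι) (x : S) :
    x ∈ Λ.DD (k + P * m) (Λ.shO m a) (Λ.shO m b) ↔ (phi ^ m) x ∈ Λ.DD k a b := by
  have e1 : k + P * m - 1 = (k - 1) + P * m := by ring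
  unfold DD
  rw [e1]
  exact and_congr (Λ.SlC_VV (k - 1) m a x) (Λ.SlC_VV k m b x)

theorem Fs_shift (k m : ℤ) (a b : Option ι) (x : S) (t : ℝ) :
    Λ.Fs (k + P * m) (Λ.shO m a) (Λ.shO m b) x (t + P * m) = Λ.Fs k a b ((phi ^ m) x) t := by
  have hc : (t + P * m ≤ ((k + P * m : ℤ) : ℝ)) ↔ t ≤ (k : ℝ) := by
    push_cast
    constructor
    · intro h; linarith
    · intro h; linarith
  unfold Fs
  by_cases h : t ≤ (k : ℝ)
  · rw [if_pos (hc.2 h), if_pos h, Λ.SlC_Fa]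
  · rw [if_neg (fun h' => h (hc.1 h')), if_neg h, Λ.SlC_Fa]

end Loc

end Pool.Agent.H.MP_1611f1_gt.T2
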