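import Pool.Agent.H.MP_1611f1_gt.T2.ChD
import Pool.Agent.H.MP_1611f1_gt.T2.SlB
import Pool.Agent.H.MP_1611f1_gt.T2.SlC

/-!
Existence of the charts of type I.
-/

namespace Pool.Agent.H.MP_1611f1_gt.T2

open Topology Set Filter

variable {S : Type*} [TopologicalSpace S] {J : Type*} {E : Surf S J} {phi : S ≃ₜ S} {P : ℕ}
  {d s : J → ℝ} {ι : Type*} (Λ : Loc E phi P d s ι) {al be ga de : J → ℤ} {Y : Type*}
  [TopologicalSpace Y] (Fl : RotFilling E phi d al be ga de Y)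

theorem exI [Finite J] (hP : 2 ≤ P) (k : ℤ) (a b : Option ι) (h : Λ.Adm k a b)
    (ξ : OpenPartialHomeomorph S (ℝ × ℝ)) :
    ∃ c : OpenPartialHomeomorph Y ((ℝ × ℝ) × ℝ), IsI Λ Fl c ∧
      c.source = PP Fl P '' ((ξ.source ∩ Out E ∩ Λ.DD k a b) ×ˢ Ioo ((k : ℝ) - 1) (k + 1)) ∧
      ∀ z ∈ (ξ.source ∩ Out E ∩ Λ.DD k a b) ×ˢ Ioo ((k : ℝ) - 1) (k + 1),
        (c (PP Fl P z)).2 = Λ.Fs k a b z.1 z.2 := by
  have hU : IsOpen (ξ.source ∩ Out E ∩ Λ.DD k a b) :=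
    (ξ.open_source.inter Out_open).inter (Λ.DD_open k a b)
  have hUξ : ξ.source ∩ Out E ∩ Λ.DD k a b ⊆ ξ.source := fun x hx => hx.1.1
  have hinj : InjOn (PP Fl P)
      ((ξ.source ∩ Out E ∩ Λ.DD k a b) ×ˢ Ioo ((k : ℝ) - 1) (k + 1)) :=
    PP_inj Fl hP _ (by linarith)
  obtain ⟨c, hc, hc'⟩ := exists_chart (PP_loc Fl (by omega)) ξ hU hUξ hinj
    (fun z : S × ℝ => Λ.Fs k a b z.1 z.2)
    ((Λ.Fs_cont h).mono (fun z hz => ⟨hz.1.2, mem_univ _⟩))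
    (fun x hx => (Λ.Fs_mono h x).strictMonoOn _)
  have hc2 : ∀ z ∈ (ξ.source ∩ Out E ∩ Λ.DD k a b) ×ˢ Ioo ((k : ℝ) - 1) (k + 1),
      (c (PP Fl P z)).2 = Λ.Fs k a b z.1 z.2 := by
    intro z hz
    rw [hc' z hz]
  exact ⟨c, ⟨k, a, b, ξ, h, hc, hc2⟩, hc, hc2⟩

end Pool.Agent.H.MP_1611f1_gt.T2
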