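import Pool.Agent.H.MP_1611f1_gt.T2.ChD

/-!
Existence of the charts of type II.
-/

namespace Pool.Agent.H.MP_1611f1_gt.T2

open Topology Set Filter

variable {S : Type*} [TopologicalSpace S] {J : Type*} {E : Surf S J} {phi : S ≃ₜ S} {P : ℕ}
  {d s : J → ℝ} {ι : Type*} (Λ : Loc E phi P d s ι) {al be ga de : J → ℤ} {Y : Type*}
  [TopologicalSpace Y] (Fl : RotFilling E phi d al be ga de Y)

theorem ChF_inj (hP : 0 < P) (hrot : ∀ j θ r, phi (cl E j θ r) = cl E j (θ + d j) r) (j : J)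
    (θ₀ t₀ : ℝ) {y1 y2 t1 t2 : ℝ}
    {r1 r2 : Ioo (1 : ℝ) 2} (hy1 : y1 ∈ Ioo θ₀ (θ₀ + 1)) (h1 : t1 ∈ Ioo t₀ (t₀ + 1))
    (hy2 : y2 ∈ Ioo θ₀ (θ₀ + 1)) (h2 : t2 ∈ Ioo t₀ (t₀ + 1))
    (h : QQ Fl P j (y1, r1, t1) = QQ Fl P j (y2, r2, t2)) :
    ((y1, r1), t1) = ((y2, r2), t2) := by
  obtain ⟨-, hr, k, m, hy, ht⟩ := QQ_eq Fl hP hrot j j _ _ h
  simp only at hr hy ht
  have hn1 : (1 : ℝ) ≤ P := by exact_mod_cast hP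
  have hk : k = 0 := by
    by_contra hk
    have h3 : (1 : ℝ) ≤ |(k : ℝ)| := by exact_mod_cast Int.one_le_abs hk
    have h4 : |t2 - t1| = P * |(k : ℝ)| := by
      rw [ht, add_sub_cancel_left, abs_mul, abs_of_nonneg (by positivity)]
    have h5 : |t2 - t1| < 1 := by
      rw [abs_lt]; constructor <;> linarith [h1.1, h1.2, h2.1, h2.2]
    nlinarith
  subst hk
  have hm : m = 0 := by
    by_contra hm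
    have h3 : (1 : ℝ) ≤ |(m : ℝ)| := by exact_mod_cast Int.one_le_abs hm
    have h4 : |y2 - y1| = |(m : ℝ)| := by
      rw [hy]
      congr 1
      push_cast
      ring
    have h5 : |y2 - y1| < 1 := by
      rw [abs_lt]; constructor <;> linarith [hy1.1, hy1.2, hy2.1, hy2.2]
    linarith
  subst hm
  have e1 : y1 = y2 := by rw [hy]; simp
  have e2 : t1 = t2 := by rw [ht]; simp
  rw [e1, e2, hr]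

theorem ChF_P (hP : 0 < P) (hrot : ∀ j θ r, phi (cl E j θ r) = cl E j (θ + d j) r) (j : J) :
    IsLocalHomeomorph
    (fun z : (ℝ × Ioo (1 : ℝ) 2) × ℝ => QQ Fl P j (z.1.1, z.1.2, z.2)) := by
  rw [isLocalHomeomorph_iff_isOpenEmbedding_restrict]
  have hc : Continuous (fun z : (ℝ × Ioo (1 : ℝ) 2) × ℝ => QQ Fl P j (z.1.1, z.1.2, z.2)) :=
    (QQ_cont Fl hP j).comp (by fun_prop)
  have ho : IsOpenMap (fun z : (ℝ × Ioo (1 : ℝ) 2) × ℝ => QQ Fl P j (z.1.1, z.1.2, z.2)) :=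
    (QQ_open Fl hP j).comp
      (Homeomorph.prodAssoc ℝ (Ioo (1 : ℝ) 2) ℝ).isOpenMap
  rintro ⟨⟨y, r⟩, t⟩
  have hU : IsOpen ((Ioo (y - 1 / 2) (y - 1 / 2 + 1) ×ˢ (univ : Set (Ioo (1 : ℝ) 2))) ×ˢ
      Ioo (t - 1 / 2) (t - 1 / 2 + 1)) := (isOpen_Ioo.prod isOpen_univ).prod isOpen_Ioo
  refine ⟨_, hU.mem_nhds ⟨⟨by constructor <;> simp; linarith, mem_univ _⟩,
    by constructor <;> simp; linarith⟩, IsOpenEmbedding.of_continuous_injective_isOpenMap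
    (hc.comp continuous_subtype_val) (injOn_iff_injective.mp ?_)
    (ho.comp hU.isOpenMap_subtype_val)⟩
  rintro ⟨⟨y1, r1⟩, t1⟩ ⟨⟨hy1, -⟩, h1⟩ ⟨⟨y2, r2⟩, t2⟩ ⟨⟨hy2, -⟩, h2⟩ heq
  exact ChF_inj Fl hP hrot j _ _ hy1 h1 hy2 h2 heq

theorem exII (hP : 2 ≤ P) (hsd : ∀ j, s j * d j < 1) (j : J) (θ₀ t₀ : ℝ) :
    ∃ c : OpenPartialHomeomorph Y ((ℝ × ℝ) × ℝ), IsII Λ Fl c ∧
      c.source = QQ Fl P j '' (Ioo θ₀ (θ₀ + 1) ×ˢ (univ ×ˢ Ioo t₀ (t₀ + 1))) ∧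
      ∀ z ∈ Ioo θ₀ (θ₀ + 1) ×ˢ ((univ : Set (Ioo (1 : ℝ) 2)) ×ˢ Ioo t₀ (t₀ + 1)),
        (c (QQ Fl P j z)).2 = Λ.MR j z.1 z.2.1 z.2.2 := by
  have hP0 : 0 < P := by omega
  have hne : Nonempty (ℝ × Ioo (1 : ℝ) 2) := ⟨(0, ⟨3 / 2, by norm_num, by norm_num⟩)⟩
  have hemb : IsOpenEmbedding (fun w : ℝ × Ioo (1 : ℝ) 2 => (w.1, (w.2 : ℝ))) :=
    (IsOpenEmbedding.id (X := ℝ)).prodMap isOpen_Ioo.isOpenEmbedding_subtypeVal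
  have hU : IsOpen (Ioo θ₀ (θ₀ + 1) ×ˢ (univ : Set (Ioo (1 : ℝ) 2))) :=
    isOpen_Ioo.prod isOpen_univ
  obtain ⟨C, hCs, hCf⟩ := exists_chart (ChF_P Fl hP0 Λ.rot j)
    (hemb.toOpenPartialHomeomorph _) hU
    (by intro w _; simp) (c := t₀) (d := t₀ + 1)
    (by
      rintro ⟨⟨y1, r1⟩, t1⟩ ⟨⟨hy1, -⟩, h1⟩ ⟨⟨y2, r2⟩, t2⟩ ⟨⟨hy2, -⟩, h2⟩ heq
      exact ChF_inj Fl hP0 Λ.rot j θ₀ t₀ hy1 h1 hy2 h2 heq)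
    (fun z => Λ.MR j z.1.1 z.1.2 z.2)
    (((Λ.MR_cont j).comp (f := fun z : (ℝ × Ioo (1 : ℝ) 2) × ℝ =>
      (z.1.1, ((z.1.2 : ℝ), z.2))) (by fun_prop)).continuousOn)
    (fun x _ => (Λ.MR_mono hP0 j (hsd j) x.1 x.2).strictMonoOn _)
  have hsrc : C.source = QQ Fl P j '' (Ioo θ₀ (θ₀ + 1) ×ˢ (univ ×ˢ Ioo t₀ (t₀ + 1))) := by
    rw [hCs]
    ext y
    constructor
    · rintro ⟨⟨⟨y1, r1⟩, t1⟩, ⟨⟨hy1, -⟩, h1⟩, rfl⟩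
      exact ⟨(y1, r1, t1), ⟨hy1, mem_univ _, h1⟩, rfl⟩
    · rintro ⟨⟨y1, r1, t1⟩, ⟨hy1, -, h1⟩, rfl⟩
      exact ⟨((y1, r1), t1), ⟨⟨hy1, mem_univ _⟩, h1⟩, rfl⟩
  have hval : ∀ z ∈ Ioo θ₀ (θ₀ + 1) ×ˢ ((univ : Set (Ioo (1 : ℝ) 2)) ×ˢ Ioo t₀ (t₀ + 1)),
      (C (QQ Fl P j z)).2 = Λ.MR j z.1 z.2.1 z.2.2 := by
    rintro ⟨y1, r1, t1⟩ ⟨hy1, -, h1⟩
    have h := hCf ((y1, r1), t1) ⟨⟨hy1, mem_univ _⟩, h1⟩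
    exact congrArg Prod.snd h
  exact ⟨C, ⟨j, θ₀, t₀, hsrc, hval⟩, hsrc, hval⟩

end Pool.Agent.H.MP_1611f1_gt.T2
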