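import Pool.Agent.H.MP_1611f1_gt.TypA
import Pool.Agent.H.MP_1611f1_gt.TypB

/-!
The step function `chT`.
-/

namespace Pool.Agent.H.MP_1611f1_gt.T2

open Topology Set Filter

/-- the continuous step function -/
noncomputable def chT (y : ℝ) : ℝ := ⌊y⌋ + chi (Int.fract y)

theorem chi_sub (u : ℝ) : chi (1 - u) = 1 - chi u := by
  unfold chi
  rcases le_total (2 * u - 1 / 2) 0 with h | h
  · rw [min_eq_right (by linarith : 2 * u - 1 / 2 ≤ 1), max_eq_left h,
      min_eq_left (by linarith : 1 ≤ 2 * (1 - u) - 1 / 2), max_eq_right zero_le_one]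
    ring
  · rcases le_total 1 (2 * u - 1 / 2) with h' | h'
    · rw [min_eq_left h', max_eq_right zero_le_one,
        min_eq_right (by linarith : 2 * (1 - u) - 1 / 2 ≤ 1),
        max_eq_left (by linarith)]
      ring
    · rw [min_eq_right h', max_eq_right h,
        min_eq_right (by linarith : 2 * (1 - u) - 1 / 2 ≤ 1),
        max_eq_right (by linarith)]
      ring

theorem chi_mono : Monotone chi := by
  intro u v h
  unfold chi
  exact max_le_max le_rfl (min_le_min le_rfl (by linarith))

theorem chT_int (n : ℤ) : chT n = n := by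
  unfold chT
  rw [Int.floor_intCast, Int.fract_intCast, chi_zero (by norm_num), add_zero]

theorem chT_near {y : ℝ} {n : ℤ} (h : |y - n| ≤ 1 / 4) : chT y = n := by
  rw [abs_le] at h
  unfold chT
  rcases le_or_gt (n : ℝ) y with h1 | h1
  · have hf : ⌊y⌋ = n := by
      rw [Int.floor_eq_iff]
      constructor
      · exact h1
      · linarith [h.2]
    rw [hf, chi_zero, add_zero]
    rw [Int.fract, hf]
    exact h.2
  · have hf : ⌊y⌋ = n - 1 := by
      rw [Int.floor_eq_iff]
      push_cast
      constructor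
      · linarith [h.1]
      · linarith
    rw [hf, chi_one]
    · push_cast; ring
    · rw [Int.fract, hf]
      push_cast
      linarith [h.1]

theorem chT_mono : Monotone chT := by
  intro x y h
  unfold chT
  have hf : ⌊x⌋ ≤ ⌊y⌋ := Int.floor_mono h
  rcases hf.eq_or_lt with h1 | h1
  · rw [h1]
    have h2 : Int.fract x ≤ Int.fract y := by
      rw [Int.fract, Int.fract, h1]
      linarith
    have := chi_mono h2
    linarith
  · have h2 : (⌊x⌋ : ℝ) + 1 ≤ ⌊y⌋ := by exact_mod_cast h1
    have h3 := chi_le_one (Int.fract x)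
    have h4 := chi_nonneg (Int.fract y)
    linarith

theorem chT_add_one (y : ℝ) : chT (y + 1) = chT y + 1 := by
  unfold chT
  rw [Int.floor_add_one, Int.fract_add_one]
  push_cast
  ring

theorem chT_cont : Continuous chT := by
  have h1 : Continuous fun y : ℝ => (fun (_ : ℝ) (v : ℝ) => chi v - v) y (Int.fract y) := by
    refine ContinuousOn.comp_fract (f := fun (_ : ℝ) (v : ℝ) => chi v - v) ?_
      continuous_id fun z => ?_
    · exact ((chi_cont.comp continuous_snd).sub continuous_snd).continuousOn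
    · show chi 0 - 0 = chi 1 - 1
      rw [chi_zero (by norm_num), chi_one (by norm_num)]
      ring
  have h2 : chT = fun y : ℝ => (chi (Int.fract y) - Int.fract y) + y := by
    funext y
    unfold chT
    have := Int.floor_add_fract y
    linarith
  rw [h2]
  exact h1.add continuous_id

/-- locally constant where the norm modulo `1` is small -/
theorem chT_locconst {X : Type*} [TopologicalSpace X] {F : X → ℝ} (hF : Continuous F) {x : X}
    (h : ‖((F x : ℝ) : AddCircle (1 : ℝ))‖ < 1 / 4) : ∀ᶠ x' in 𝓝 x, chT (F x') = chT (F x) := by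
  rw [UnitAddCircle.norm_eq] at h
  have hc : Continuous fun x' => |F x' - round (F x)| := (hF.sub continuous_const).abs
  have hev : ∀ᶠ x' in 𝓝 x, |F x' - round (F x)| < 1 / 4 :=
    hc.continuousAt.eventually (gt_mem_nhds h)
  filter_upwards [hev] with x' hx'
  rw [chT_near (n := round (F x)) hx'.le, chT_near (n := round (F x)) h.le]

/-- `lft` of a real number modulo `1` -/
theorem lft_mk (y : ℝ) : lft (y : AddCircle (1 : ℝ)) = Int.fract y := by
  have h1 : (y : AddCircle (1 : ℝ)) = ((Int.fract y : ℝ) : AddCircle (1 : ℝ)) := by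
    have h2 : ((⌊y⌋ : ℝ) : AddCircle (1 : ℝ)) = 0 :=
      (AddCircle.coe_eq_zero_iff (1 : ℝ)).2 ⟨⌊y⌋, by rw [zsmul_eq_mul, mul_one]⟩
    conv_lhs => rw [← Int.floor_add_fract y]
    rw [AddCircle.coe_add, h2, zero_add]
  rw [h1, lft_coe ⟨Int.fract_nonneg y, Int.fract_lt_one y⟩]

theorem coe_eq_zero (y : ℝ) : ((y : ℝ) : AddCircle (1 : ℝ)) = 0 ↔ ∃ n : ℤ, y = n := by
  rw [AddCircle.coe_eq_zero_iff]
  constructor
  · rintro ⟨n, hn⟩
    exact ⟨n, by rw [← hn, zsmul_eq_mul, mul_one]⟩
  · rintro ⟨n, hn⟩
    exact ⟨n, by rw [hn, zsmul_eq_mul, mul_one]⟩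

end Pool.Agent.H.MP_1611f1_gt.T2
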