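import Pool.Agent.H.MP_1611f1_gt.T2.SlC

/-!
Slices: compatibility.
-/

namespace Pool.Agent.H.MP_1611f1_gt.T2

open Topology Set Filter

variable {S : Type*} [TopologicalSpace S] {J : Type*} {E : Surf S J} {phi : S ≃ₜ S} {P : ℕ}
  {d s : J → ℝ} {ι : Type*} (Λ : Loc E phi P d s ι)

namespace Loc

theorem SlD_gt {k : ℤ} {a b : Option ι} {x : S} {t : ℝ} (ht : (k : ℝ) < t) :
    Λ.Fs k a b x t = Λ.Fa b x t - Λ.val k b := if_neg (not_le.2 ht)

/-- comparison of the functions of two types, in the product -/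
theorem SlD_rel (k : ℤ) (a b : Option ι) (ha : Λ.actO k a) (hb : Λ.actO k b) {x : S}
    (hxa : x ∈ Λ.VV k a) (hxb : x ∈ Λ.VV k b) :
    ∃ G : ℝ → ℝ, StrictMono G ∧
      ∀ t : ℝ, ∀ᶠ z : S × ℝ in 𝓝 (x, t), Λ.Fa b z.1 z.2 = G (Λ.Fa a z.1 z.2) := by
  obtain ⟨G, hG, hev⟩ := Λ.Fa_rel k a b ha hb hxa hxb
  refine ⟨G, hG, fun t => ?_⟩
  have hc : Tendsto (fun z : S × ℝ => z.1) (𝓝 (x, t)) (𝓝 x) := continuous_fst.tendsto (x, t)
  exact (hc.eventually hev).mono fun z hz => hz z.2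

theorem SlD_shift {G : ℝ → ℝ} (hG : StrictMono G) (u w : ℝ) :
    StrictMono fun v : ℝ => G (v + u) - w := by
  intro v v' h
  have := hG (show v + u < v' + u by linarith)
  show G (v + u) - w < G (v' + u) - w
  linarith

theorem SlD_pred {k : ℤ} {e : ι} (h : Λ.per k e) : Λ.act (k - 1) e := by
  right
  rw [sub_add_cancel]
  exact h

theorem SlD_none {m k : ℤ} {e : ι} (he : Λ.act m e) (hp : Λ.per k e) {a : Option ι}
    (hact : Λ.actO m a) (ha : Λ.inaO k a) {x : S} (hx : x ∈ Λ.VV m (some e))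
    (hx' : x ∈ Λ.VV m a) : a = none := by
  cases a with
  | none => rfl
  | some e' =>
    exfalso
    by_cases hee : e = e'
    · subst hee
      exact ha hp
    · rcases Λ.disj m e e' he hact hee x with h1 | h1
      · exact hx h1
      · exact hx' h1

/-- a pair of the second kind against a pair of the first kind, at the slice -/
theorem SlD_mixed {k : ℤ} {e : ι} (he : Λ.per k e) {a' b' : Option ι}
    (h1' : Λ.actO (k - 1) a') (h2' : Λ.actO k b') (ha : Λ.inaO k a') (hb : Λ.inaO k b')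
    {x : S} (hx : x ∈ Λ.DD k (some e) (some e)) (hx' : x ∈ Λ.DD k a' b') (t : ℝ) :
    OrdEq (x, t) (fun z : S × ℝ => Λ.Fs k (some e) (some e) z.1 z.2)
      (fun z : S × ℝ => Λ.Fs k a' b' z.1 z.2) := by
  have hak : Λ.act k e := Or.inl he
  have h1 : a' = none := Λ.SlD_none (Λ.SlD_pred he) he h1' ha hx.1 hx'.1
  have h2 : b' = none := Λ.SlD_none hak he h2' hb hx.2 hx'.2
  subst h1
  subst h2
  obtain ⟨G, hG, hev⟩ := Λ.SlD_rel k (some e) none hak trivial hx.2 hx'.2
  apply OrdEq.of_comp _ (SlD_shift hG (Λ.val k (some e)) (Λ.val k none))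
  filter_upwards [hev t] with z hz
  have h3 : Λ.Fs k none none z.1 z.2 = Λ.Fa none z.1 z.2 - Λ.val k none := ite_self _
  have h4 : Λ.Fs k (some e) (some e) z.1 z.2 = Λ.Fa (some e) z.1 z.2 - Λ.val k (some e) :=
    ite_self _
  rw [h3, h4, sub_add_cancel, hz]

/-- **compatibility at one slice, same index** -/
theorem Fs_equiv_same {k : ℤ} {a b a' b' : Option ι} (h : Λ.Adm k a b) (h' : Λ.Adm k a' b')
    {x : S} (hx : x ∈ Λ.DD k a b) (hx' : x ∈ Λ.DD k a' b') (t : ℝ) :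
    OrdEq (x, t) (fun z : S × ℝ => Λ.Fs k a b z.1 z.2)
      (fun z : S × ℝ => Λ.Fs k a' b' z.1 z.2) := by
  have hsnd : Tendsto (fun z : S × ℝ => z.2) (𝓝 (x, t)) (𝓝 t) :=
    continuous_snd.tendsto (x, t)
  obtain ⟨hl, hu, hk⟩ := h
  obtain ⟨hl', hu', hk'⟩ := h'
  rcases lt_trichotomy t (k : ℝ) with ht | ht | ht
  · obtain ⟨G, hG, hev⟩ := Λ.SlD_rel (k - 1) a a' hl hl' hx.1 hx'.1
    apply OrdEq.of_comp _ (SlD_shift hG (Λ.val k a) (Λ.val k a'))
    filter_upwards [hev t, hsnd.eventually (Iio_mem_nhds ht)] with z hz hz2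
    have hz3 : z.2 ≤ (k : ℝ) := le_of_lt hz2
    rw [Λ.Fs_le hz3, Λ.Fs_le hz3, sub_add_cancel, hz]
  · subst ht
    rcases hk with ⟨ha, hb⟩ | ⟨e, he, rfl, rfl⟩
    · rcases hk' with ⟨ha', hb'⟩ | ⟨e, he, rfl, rfl⟩
      · obtain ⟨G1, hG1, hev1⟩ := Λ.SlD_rel (k - 1) a a' hl hl' hx.1 hx'.1
        obtain ⟨G2, hG2, hev2⟩ := Λ.SlD_rel k b b' hu hu' hx.2 hx'.2
        have e1 : G1 (Λ.val k a) = Λ.val k a' := by
          have h0 := (hev1 (k : ℝ)).self_of_nhds
          simp only at h0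
          rw [Λ.Fa_val ha, Λ.Fa_val ha'] at h0
          exact h0.symm
        have e2 : G2 (Λ.val k b) = Λ.val k b' := by
          have h0 := (hev2 (k : ℝ)).self_of_nhds
          simp only at h0
          rw [Λ.Fa_val hb, Λ.Fa_val hb'] at h0
          exact h0.symm
        have hG : StrictMono (fun v : ℝ => if v ≤ 0 then G1 (v + Λ.val k a) - Λ.val k a'
            else G2 (v + Λ.val k b) - Λ.val k b') := by
          have s1 := SlD_shift hG1 (Λ.val k a) (Λ.val k a')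
          have s2 := SlD_shift hG2 (Λ.val k b) (Λ.val k b')
          intro v w hvw
          by_cases hw : w ≤ 0
          · have hv : v ≤ 0 := hvw.le.trans hw
            simp only [if_pos hw, if_pos hv]
            exact s1 hvw
          · by_cases hv : v ≤ 0
            · simp only [if_pos hv, if_neg hw]
              calc G1 (v + Λ.val k a) - Λ.val k a' ≤ G1 (0 + Λ.val k a) - Λ.val k a' :=
                    s1.monotone hv
                _ = G2 (0 + Λ.val k b) - Λ.val k b' := by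
                    rw [zero_add, zero_add, e1, e2, sub_self, sub_self]
                _ < G2 (w + Λ.val k b) - Λ.val k b' := s2 (not_le.1 hw)
            · simp only [if_neg hv, if_neg hw]
              exact s2 hvw
        apply OrdEq.of_comp _ hG
        filter_upwards [hev1 (k : ℝ), hev2 (k : ℝ)] with z hz1 hz2
        by_cases hz : z.2 ≤ (k : ℝ)
        · have h1 : Λ.Fa a z.1 z.2 - Λ.val k a ≤ 0 := by
            have := (Λ.Fa_mono a z.1).monotone hz
            rw [Λ.Fa_val ha] at this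
            linarith
          rw [Λ.Fs_le hz, Λ.Fs_le hz, if_pos h1, sub_add_cancel, hz1]
        · have hz' := not_le.1 hz
          have h1 : 0 < Λ.Fa b z.1 z.2 - Λ.val k b := by
            have := Λ.Fa_mono b z.1 hz'
            rw [Λ.Fa_val hb] at this
            linarith
          rw [Λ.SlD_gt hz', Λ.SlD_gt hz', if_neg (not_le.2 h1), sub_add_cancel, hz2]
      · exact (Λ.SlD_mixed he hl hu ha hb hx' hx _).symm
    · rcases hk' with ⟨ha', hb'⟩ | ⟨e', he', rfl, rfl⟩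
      · exact Λ.SlD_mixed he hl' hu' ha' hb' hx hx' _
      · have hee : e = e' := by
          by_contra hne
          rcases Λ.disj k e e' hu hu' hne x with h1 | h1
          · exact hx.2 h1
          · exact hx'.2 h1
        subst hee
        exact OrdEq.refl _ _
  · obtain ⟨G, hG, hev⟩ := Λ.SlD_rel k b b' hu hu' hx.2 hx'.2
    apply OrdEq.of_comp _ (SlD_shift hG (Λ.val k b) (Λ.val k b'))
    filter_upwards [hev t, hsnd.eventually (Ioi_mem_nhds ht)] with z hz hz2
    have hz3 : (k : ℝ) < z.2 := hz2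
    rw [Λ.SlD_gt hz3, Λ.SlD_gt hz3, sub_add_cancel, hz]

/-- **compatibility of consecutive slices** -/
theorem Fs_equiv_next {k : ℤ} {a b a' b' : Option ι} (h : Λ.Adm k a b)
    (h' : Λ.Adm (k + 1) a' b') {x : S} (hx : x ∈ Λ.DD k a b) (hx' : x ∈ Λ.DD (k + 1) a' b')
    {t : ℝ} (ht : (k : ℝ) < t) (ht' : t < k + 1) :
    OrdEq (x, t) (fun z : S × ℝ => Λ.Fs k a b z.1 z.2)
      (fun z : S × ℝ => Λ.Fs (k + 1) a' b' z.1 z.2) := by
  have hsnd : Tendsto (fun z : S × ℝ => z.2) (𝓝 (x, t)) (𝓝 t) :=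
    continuous_snd.tendsto (x, t)
  have hi : k + 1 - 1 = k := by ring
  have hx1 : x ∈ Λ.VV k a' := by
    have := hx'.1
    rwa [hi] at this
  have hl : Λ.actO k a' := by
    have := h'.1
    rwa [hi] at this
  obtain ⟨G, hG, hev⟩ := Λ.SlD_rel k b a' h.2.1 hl hx.2 hx1
  apply OrdEq.of_comp _ (SlD_shift hG (Λ.val k b) (Λ.val (k + 1) a'))
  filter_upwards [hev t, hsnd.eventually (Ioi_mem_nhds ht), hsnd.eventually (Iio_mem_nhds ht')]
    with z hz hz2 hz3
  have hz4 : (k : ℝ) < z.2 := hz2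
  have hz5 : z.2 ≤ ((k + 1 : ℤ) : ℝ) := by
    have h6 : z.2 < (k : ℝ) + 1 := hz3
    push_cast
    exact h6.le
  rw [Λ.SlD_gt hz4, Λ.Fs_le hz5, sub_add_cancel, hz]

/-- **compatibility** -/
theorem Fs_equiv {k k' : ℤ} {a b a' b' : Option ι} (h : Λ.Adm k a b)
    (h' : Λ.Adm k' a' b') {x : S} (hx : x ∈ Λ.DD k a b) (hx' : x ∈ Λ.DD k' a' b')
    {t : ℝ} (ht : t ∈ Ioo ((k : ℝ) - 1) (k + 1)) (ht' : t ∈ Ioo ((k' : ℝ) - 1) (k' + 1)) :
    OrdEq (x, t) (fun z : S × ℝ => Λ.Fs k a b z.1 z.2)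
      (fun z : S × ℝ => Λ.Fs k' a' b' z.1 z.2) := by
  have h1 : k < k' + 2 := by
    have : (k : ℝ) < k' + 2 := by linarith [ht.1, ht'.2]
    exact_mod_cast this
  have h2 : k' < k + 2 := by
    have : (k' : ℝ) < k + 2 := by linarith [ht.2, ht'.1]
    exact_mod_cast this
  have h3 : k' = k ∨ k' = k + 1 ∨ k = k' + 1 := by omega
  rcases h3 with h3 | h3 | h3
  · subst h3
    exact Λ.Fs_equiv_same h h' hx hx' t
  · subst h3
    have h4 := ht'.1
    push_cast at h4
    exact Λ.Fs_equiv_next h h' hx hx' (by linarith) ht.2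
  · subst h3
    have h4 := ht.1
    push_cast at h4
    exact (Λ.Fs_equiv_next h' h hx' hx (by linarith) ht'.2).symm

end Loc

end Pool.Agent.H.MP_1611f1_gt.T2
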