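import Pool.Agent.H.MP_1611f1_gt.T2.ChD
import Pool.Agent.H.MP_1611f1_gt.T2.SlB
import Pool.Agent.H.MP_1611f1_gt.T2.SlD

/-!
Compatibility of the charts of type I.
-/

namespace Pool.Agent.H.MP_1611f1_gt.T2

open Topology Set Filter

variable {S : Type*} [TopologicalSpace S] {J : Type*} {E : Surf S J} {phi : S ≃ₜ S} {P : ℕ}
  {d s : J → ℝ} {ι : Type*} (Λ : Loc E phi P d s ι) {al be ga de : J → ℤ} {Y : Type*}
  [TopologicalSpace Y] (Fl : RotFilling E phi d al be ga de Y)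

/-- a chart of type I, pulled back to a point over the outer part -/
theorem typeI_outer [Finite J] (hP : 2 ≤ P) {c : OpenPartialHomeomorph Y ((ℝ × ℝ) × ℝ)}
    (hc : IsI Λ Fl c) {x : S} {t : ℝ} (hy : PP Fl P (x, t) ∈ c.source) :
    x ∈ Out E ∧ ∃ (k : ℤ) (a b : Option ι), Λ.Adm k a b ∧ x ∈ Λ.DD k a b ∧
      t ∈ Ioo ((k : ℝ) - 1) (k + 1) ∧
      OrdEq (x, t) (fun z => (c (PP Fl P z)).2) (fun z => Λ.Fs k a b z.1 z.2) := by
  obtain ⟨k, a, b, ξ, hA, hsrc, hval⟩ := hc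
  have hP0 : 0 < P := by omega
  rw [hsrc] at hy
  obtain ⟨⟨x₁, t₁⟩, ⟨⟨⟨hx1, hx2⟩, hx3⟩, ht1⟩, he⟩ := hy
  obtain ⟨m, hk1, hk2⟩ := (PP_eq Fl hP0 x₁ t₁ x t).1 he
  have hcast : ((k + P * m : ℤ) : ℝ) = (k : ℝ) + P * m := by push_cast; ring
  refine ⟨?_, k + P * m, Λ.shO m a, Λ.shO m b, Λ.Adm_shift hA m, ?_, ?_, ?_⟩
  · intro j w hw
    obtain ⟨θ, hθ⟩ := exists_cl (E := E) j w
    have h1 : x₁ = E.collar j (((θ + d j * m : ℝ) : AddCircle (1 : ℝ)), w.2) := by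
      rw [hk2, hw, hθ, zpow_cl Λ.rot]
      rfl
    exact hx2 j (((θ + d j * m : ℝ) : AddCircle (1 : ℝ)), w.2) h1
  · rw [Λ.DD_shift, ← hk2]
    exact hx3
  · rw [hcast, hk1]
    obtain ⟨h1, h2⟩ := ht1
    constructor
    · linarith
    · linarith
  · have hcont : Continuous fun z : S × ℝ => ((phi ^ m) z.1, z.2 - P * m) :=
      ((phi ^ m).continuous.comp continuous_fst).prodMk (continuous_snd.sub continuous_const)
    have hWo : IsOpen ((ξ.source ∩ Out E ∩ Λ.DD k a b) ×ˢ Ioo ((k : ℝ) - 1) (k + 1)) :=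
      ((ξ.open_source.inter Out_open).inter (Λ.DD_open k a b)).prod isOpen_Ioo
    have hmem : ∀ᶠ z : S × ℝ in 𝓝 (x, t), ((phi ^ m) z.1, z.2 - P * m) ∈
        (ξ.source ∩ Out E ∩ Λ.DD k a b) ×ˢ Ioo ((k : ℝ) - 1) (k + 1) := by
      refine hcont.continuousAt.eventually_mem (hWo.mem_nhds ?_)
      have ht : t - P * m = t₁ := by rw [hk1]; ring
      show ((phi ^ m) x, t - P * m) ∈ _
      rw [← hk2, ht]
      exact ⟨⟨⟨hx1, hx2⟩, hx3⟩, ht1⟩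
    refine OrdEq.of_comp id strictMono_id (hmem.mono fun z hz => ?_)
    have hPP : PP Fl P z = PP Fl P ((phi ^ m) z.1, z.2 - P * m) := by
      refine ((PP_eq Fl hP0 ((phi ^ m) z.1) (z.2 - P * m) z.1 z.2).2 ⟨m, by ring, rfl⟩).symm
    have h1 := hval _ hz
    have h2 := Λ.Fs_shift k m a b z.1 (z.2 - P * m)
    rw [sub_add_cancel] at h2
    show Λ.Fs (k + P * m) (Λ.shO m a) (Λ.shO m b) z.1 z.2 = (c (PP Fl P z)).2
    rw [hPP, h1, h2]

/-- compatibility of two charts of type I -/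
theorem compat_outer [Finite J] (hP : 2 ≤ P) {c c' : OpenPartialHomeomorph Y ((ℝ × ℝ) × ℝ)}
    (hc : IsI Λ Fl c) (hc' : IsI Λ Fl c') {x : S} {t : ℝ}
    (hy : PP Fl P (x, t) ∈ c.source) (hy' : PP Fl P (x, t) ∈ c'.source) :
    OrdEq (PP Fl P (x, t)) (fun z => (c z).2) (fun z => (c' z).2) := by
  obtain ⟨-, k, a, b, hA, hx, ht, h1⟩ := typeI_outer Λ Fl hP hc hy
  obtain ⟨-, k', a', b', hA', hx', ht', h2⟩ := typeI_outer Λ Fl hP hc' hy'
  exact OrdEq.of_openMap (PP_open Fl (by omega))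
    ((h1.trans (Λ.Fs_equiv hA hA' hx hx' ht ht')).trans h2.symm)

end Pool.Agent.H.MP_1611f1_gt.T2
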