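import Pool.Agent.H.MP_1611f1_gt.T2.CmpA

/-!
Charts of type I over the collars.
-/

namespace Pool.Agent.H.MP_1611f1_gt.T2

open Topology Set Filter

variable {S : Type*} [TopologicalSpace S] {J : Type*} {E : Surf S J} {phi : S ≃ₜ S} {P : ℕ}
  {d s : J → ℝ} {ι : Type*} (Λ : Loc E phi P d s ι) {al be ga de : J → ℤ} {Y : Type*}
  [TopologicalSpace Y] (Fl : RotFilling E phi d al be ga de Y)

/-- gluing two increasing functions at a common value -/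
theorem CmpB_glue2 {Ga Gb : ℝ → ℝ} (ha : StrictMono Ga) (hb : StrictMono Gb) {m : ℝ}
    (h : Ga m = Gb m) : StrictMono fun v => if v ≤ m then Ga v else Gb v := by
  intro v w hvw
  by_cases hv : v ≤ m
  · by_cases hw : w ≤ m
    · simp only [if_pos hv, if_pos hw]
      exact ha hvw
    · simp only [if_pos hv, if_neg hw]
      calc Ga v ≤ Ga m := ha.monotone hv
        _ = Gb m := h
        _ < Gb w := hb (not_le.mp hw)
  · have hw : ¬ w ≤ m := fun hw => hv (hvw.le.trans hw)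
    simp only [if_neg hv, if_neg hw]
    exact hb hvw

/-- over the collar, `M` is an increasing function of the function of the type -/
theorem CmpB_rel (k : ℤ) (a : Option ι) (ha : Λ.actO k a) (j : J) (θ : ℝ) (r : Ioo (1 : ℝ) 2)
    (hx : cl E j θ r ∈ Λ.VV k a) : ∃ G : ℝ → ℝ, StrictMono G ∧
    ∀ᶠ z : ℝ × Ioo (1 : ℝ) 2 in 𝓝 (θ, r), ∀ t ∈ Icc (k : ℝ) (k + 1),
      Λ.M j z.1 t = G (Λ.Fa a (cl E j z.1 z.2) t) := by
  match a, ha, hx with
  | none, _, hx =>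
    exact Λ.rel0 k j θ r hx
  | some e, ha, hx =>
    have hx' : Λ.K e (cl E j θ r) ≠ 0 := hx
    have ha' : Λ.per k e ∨ Λ.per (k + 1) e := ha
    rcases ha' with h | h
    · obtain ⟨G, hG, hG'⟩ := Λ.rel1 k e j θ r h hx'
      refine ⟨G, hG, ?_⟩
      filter_upwards [hG'] with z hz t ht
      exact hz t ⟨by linarith [ht.1], ht.2⟩
    · obtain ⟨G, hG, hG'⟩ := Λ.rel1 (k + 1) e j θ r h hx'
      refine ⟨G, hG, ?_⟩
      filter_upwards [hG'] with z hz t ht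
      refine hz t ⟨?_, ?_⟩
      · push_cast
        linarith [ht.1]
      · push_cast
        linarith [ht.2]

/-- adding a constant to the argument -/
theorem CmpB_add {G : ℝ → ℝ} (hG : StrictMono G) (v : ℝ) : StrictMono fun u => G (u + v) :=
  fun _ _ h => hG (by linarith)

/-- charts of type I over the collars -/
theorem collar_I [Finite J] (hP : 2 ≤ P) {c : OpenPartialHomeomorph Y ((ℝ × ℝ) × ℝ)}
    (hc : IsI Λ Fl c) (j : J) {z : ℝ × Ioo (1 : ℝ) 2 × ℝ}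
    (hy : QQ Fl P j z ∈ c.source) :
    OrdEq z (fun z => (c (QQ Fl P j z)).2) (fun z => Λ.MR j z.1 z.2.1 z.2.2) := by
  obtain ⟨θ, r, t⟩ := z
  -- the map to `S × ℝ`
  let K : ℝ × Ioo (1 : ℝ) 2 × ℝ → S × ℝ := fun z => (cl E j z.1 z.2.1, z.2.2)
  have hK : Continuous K := by
    refine Continuous.prodMk ?_ (by fun_prop)
    exact (cl_cont (E := E) j).comp (f := fun z : ℝ × Ioo (1 : ℝ) 2 × ℝ => (z.1, z.2.1))
      (by fun_prop)
  obtain ⟨hOut, k, a, b, hadm, hDD, ht, hord⟩ := typeI_outer Λ Fl hP hc hy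
  have h1 : OrdEq (θ, r, t) (fun z => (c (QQ Fl P j z)).2)
      (fun z => Λ.Fs k a b (K z).1 (K z).2) :=
    OrdEq.comp_cont (R := K) (z₀ := (θ, r, t)) hK.continuousAt hord
  refine h1.trans ?_
  have hr : (5 : ℝ) / 3 < r := hOut j _ rfl
  have hr' : ∀ᶠ z : ℝ × Ioo (1 : ℝ) 2 × ℝ in 𝓝 (θ, r, t), (5 : ℝ) / 3 < z.2.1 := by
    have h2 : Continuous fun z : ℝ × Ioo (1 : ℝ) 2 × ℝ => (z.2.1 : ℝ) := by fun_prop
    exact h2.continuousAt.eventually_const_lt hr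
  obtain ⟨Ga, hGa, hGa'⟩ := CmpB_rel Λ (k - 1) a hadm.1 j θ r hDD.1
  obtain ⟨Gb, hGb, hGb'⟩ := CmpB_rel Λ k b hadm.2.1 j θ r hDD.2
  have hproj : Tendsto (fun z : ℝ × Ioo (1 : ℝ) 2 × ℝ => (z.1, z.2.1)) (𝓝 (θ, r, t))
      (𝓝 (θ, r)) := by
    have h2 : Continuous fun z : ℝ × Ioo (1 : ℝ) 2 × ℝ => (z.1, z.2.1) := by fun_prop
    exact h2.continuousAt (x := (θ, r, t))
  have hGa2 : ∀ᶠ z : ℝ × Ioo (1 : ℝ) 2 × ℝ in 𝓝 (θ, r, t), ∀ t ∈ Icc ((k : ℝ) - 1) k,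
      Λ.M j z.1 t = Ga (Λ.Fa a (cl E j z.1 z.2.1) t) := by
    filter_upwards [hproj.eventually hGa'] with z hz t ht
    refine hz t ⟨?_, ?_⟩
    · push_cast
      exact ht.1
    · push_cast
      linarith [ht.2]
  have hGb2 : ∀ᶠ z : ℝ × Ioo (1 : ℝ) 2 × ℝ in 𝓝 (θ, r, t), ∀ t ∈ Icc (k : ℝ) (k + 1),
      Λ.M j z.1 t = Gb (Λ.Fa b (cl E j z.1 z.2.1) t) :=
    hproj.eventually hGb'
  have hsnd : Continuous fun z : ℝ × Ioo (1 : ℝ) 2 × ℝ => z.2.2 := by fun_prop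
  have hlo : ∀ᶠ z : ℝ × Ioo (1 : ℝ) 2 × ℝ in 𝓝 (θ, r, t), (k : ℝ) - 1 < z.2.2 :=
    hsnd.continuousAt.eventually_const_lt ht.1
  have hhi : ∀ᶠ z : ℝ × Ioo (1 : ℝ) 2 × ℝ in 𝓝 (θ, r, t), z.2.2 < (k : ℝ) + 1 :=
    hsnd.continuousAt.eventually_lt_const ht.2
  -- the two values of `Fs`
  have hFl : ∀ z : ℝ × Ioo (1 : ℝ) 2 × ℝ, z.2.2 ≤ k → Λ.Fs k a b (K z).1 (K z).2 =
      Λ.Fa a (cl E j z.1 z.2.1) z.2.2 - Λ.val k a := fun z hz => if_pos hz
  have hFg : ∀ z : ℝ × Ioo (1 : ℝ) 2 × ℝ, ¬ z.2.2 ≤ k → Λ.Fs k a b (K z).1 (K z).2 =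
      Λ.Fa b (cl E j z.1 z.2.1) z.2.2 - Λ.val k b := fun z hz => if_neg hz
  rcases lt_trichotomy t k with hti | hti | hti
  · apply OrdEq.of_comp _ (CmpB_add hGa (Λ.val k a))
    filter_upwards [hr', hGa2, hlo, hsnd.continuousAt.eventually_lt_const (u := (k : ℝ)) hti]
      with z hz1 hz2 hz3 hz4
    rw [Λ.MR_outer _ _ _ hz1.le, hz2 _ ⟨hz3.le, hz4.le⟩, hFl z hz4.le, sub_add_cancel]
  · rcases hadm.2.2 with ⟨ha, hb⟩ | ⟨e, he, rfl, rfl⟩
    · have hab : Ga (0 + Λ.val k a) = Gb (0 + Λ.val k b) := by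
        have h3 := hGa2.self_of_nhds k ⟨by linarith, le_rfl⟩
        have h4 := hGb2.self_of_nhds k ⟨le_rfl, by linarith⟩
        rw [Λ.Fa_val ha] at h3
        rw [Λ.Fa_val hb] at h4
        rw [zero_add, zero_add]
        exact h3.symm.trans h4
      apply OrdEq.of_comp _ (CmpB_glue2 (m := 0) (CmpB_add hGa (Λ.val k a))
        (CmpB_add hGb (Λ.val k b)) hab)
      filter_upwards [hr', hGa2, hGb2, hlo, hhi] with z hz1 hz2 hz3 hz4 hz5
      rw [Λ.MR_outer _ _ _ hz1.le]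
      by_cases hz : z.2.2 ≤ k
      · rw [hFl z hz]
        have h5 : Λ.Fa a (cl E j z.1 z.2.1) z.2.2 - Λ.val k a ≤ 0 := by
          have h6 := (Λ.Fa_mono a (cl E j z.1 z.2.1)).monotone hz
          rw [Λ.Fa_val ha] at h6
          linarith
        simp only [if_pos h5, sub_add_cancel]
        exact hz2 _ ⟨hz4.le, hz⟩
      · rw [hFg z hz]
        have h5 : ¬ Λ.Fa b (cl E j z.1 z.2.1) z.2.2 - Λ.val k b ≤ 0 := by
          have h6 := (Λ.Fa_mono b (cl E j z.1 z.2.1)) (not_le.mp hz)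
          rw [Λ.Fa_val hb] at h6
          exact not_le.mpr (by linarith)
        simp only [if_neg h5, sub_add_cancel]
        exact hz3 _ ⟨(not_le.mp hz).le, hz5.le⟩
    · obtain ⟨G, hG, hG'⟩ := Λ.rel1 k e j θ r he hDD.2
      apply OrdEq.of_comp _ (CmpB_add hG (Λ.val k (some e)))
      filter_upwards [hr', hproj.eventually hG', hlo, hhi] with z hz1 hz2 hz4 hz5
      have h6 : Λ.M j z.1 z.2.2 = G (Λ.Fa (some e) (cl E j z.1 z.2.1) z.2.2) :=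
        hz2 _ ⟨hz4.le, hz5.le⟩
      rw [Λ.MR_outer _ _ _ hz1.le, h6]
      by_cases hz : z.2.2 ≤ k
      · rw [hFl z hz, sub_add_cancel]
      · rw [hFg z hz, sub_add_cancel]
  · apply OrdEq.of_comp _ (CmpB_add hGb (Λ.val k b))
    filter_upwards [hr', hGb2, hhi, hsnd.continuousAt.eventually_const_lt (u := (k : ℝ)) hti]
      with z hz1 hz2 hz3 hz4
    rw [Λ.MR_outer _ _ _ hz1.le, hz2 _ ⟨hz4.le, hz3.le⟩, hFg z (not_le.mpr hz4),
      sub_add_cancel]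

end Pool.Agent.H.MP_1611f1_gt.T2
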