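import Pool.Agent.H.MP_1611f1_gt.T2.ChD

/-!
Charts of type II over the collars.
-/

namespace Pool.Agent.H.MP_1611f1_gt.T2

open Topology Set Filter

variable {S : Type*} [TopologicalSpace S] {J : Type*} {E : Surf S J} {phi : S ≃ₜ S} {P : ℕ}
  {d s : J → ℝ} {ι : Type*} (Λ : Loc E phi P d s ι) {al be ga de : J → ℤ} {Y : Type*}
  [TopologicalSpace Y] (Fl : RotFilling E phi d al be ga de Y)

/-- charts of type II over the collars -/
theorem collar_II (hP : 2 ≤ P) {c : OpenPartialHomeomorph Y ((ℝ × ℝ) × ℝ)}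
    (hc : IsII Λ Fl c) (j : J) {z : ℝ × Ioo (1 : ℝ) 2 × ℝ}
    (hy : QQ Fl P j z ∈ c.source) :
    OrdEq z (fun z => (c (QQ Fl P j z)).2) (fun z => Λ.MR j z.1 z.2.1 z.2.2) := by
  have hP0 : 0 < P := by omega
  obtain ⟨j', y₀, t₀, hs, hv⟩ := hc
  rw [hs] at hy
  obtain ⟨z', hz', heq⟩ := hy
  obtain ⟨hj, hr, k, m, h1, h2⟩ := QQ_eq Fl hP0 Λ.rot j j' z z' heq.symm
  subst hj
  set R : ℝ × Ioo (1 : ℝ) 2 × ℝ → ℝ × Ioo (1 : ℝ) 2 × ℝ :=
    fun w => (w.1 - d j * k + m, w.2.1, w.2.2 + P * k) with hR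
  have hRcont : Continuous R := by
    rw [hR]
    fun_prop
  have hRz : R z = z' := by
    rw [hR]
    ext
    · exact h1.symm
    · exact congrArg Subtype.val hr
    · exact h2.symm
  have hopen : IsOpen (Ioo y₀ (y₀ + 1) ×ˢ ((univ : Set (Ioo (1 : ℝ) 2)) ×ˢ Ioo t₀ (t₀ + 1))) :=
    isOpen_Ioo.prod (isOpen_univ.prod isOpen_Ioo)
  have hev : ∀ᶠ w in 𝓝 z,
      R w ∈ Ioo y₀ (y₀ + 1) ×ˢ ((univ : Set (Ioo (1 : ℝ) 2)) ×ˢ Ioo t₀ (t₀ + 1)) := by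
    apply hRcont.continuousAt.eventually
    rw [hRz]
    exact hopen.mem_nhds hz'
  refine OrdEq.of_comp (fun v => v - (k - s j * m)) ?_ ?_
  · intro a b hab
    show a - _ < b - _
    linarith
  · filter_upwards [hev] with w hw
    have e1 : QQ Fl P j (R w) = QQ Fl P j w :=
      QQ_per Fl hP0 Λ.rot j w.1 w.2.1 w.2.2 k m
    have e2 := hv (R w) hw
    rw [e1] at e2
    have e3 : Λ.MR j (R w).1 (R w).2.1 (R w).2.2 =
        Λ.MR j w.1 w.2.1 w.2.2 + (k - s j * m) :=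
      Λ.MR_shift hP0 j w.1 w.2.1 w.2.2 k m
    show Λ.MR j w.1 w.2.1 w.2.2 = (c (QQ Fl P j w)).2 - (k - s j * m)
    rw [e2, e3]
    ring

end Pool.Agent.H.MP_1611f1_gt.T2
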