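import Pool.Agent.H.MP_1611f1_gt.T2.ChC
import Pool.Agent.H.MP_1611f1_gt.T2.ChD

/-!
Charts of type III over the collars.
-/

namespace Pool.Agent.H.MP_1611f1_gt.T2

open Topology Set Filter

variable {S : Type*} [TopologicalSpace S] {J : Type*} {E : Surf S J} {phi : S ≃ₜ S} {P : ℕ}
  {d s : J → ℝ} {ι : Type*} (Λ : Loc E phi P d s ι) {al be ga de : J → ℤ} {Y : Type*}
  [TopologicalSpace Y] (Fl : RotFilling E phi d al be ga de Y)

/-- charts of type III over the collars -/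
theorem collar_III (hP : 2 ≤ P) (hde : ∀ j, de j ≠ 0) (hs : ∀ j, s j * de j = -(ga j))
    {c : OpenPartialHomeomorph Y ((ℝ × ℝ) × ℝ)}
    (hc : IsIII Fl c) (j : J) {z : ℝ × Ioo (1 : ℝ) 2 × ℝ}
    (hy : QQ Fl P j z ∈ c.source) :
    (z.2.1 : ℝ) < 4 / 3 ∧
    OrdEq z (fun z => (c (QQ Fl P j z)).2) (fun z => Λ.MR j z.1 z.2.1 z.2.2) := by
  obtain ⟨j', s₀, hsrc, hval⟩ := hc
  rw [hsrc] at hy
  obtain ⟨⟨w, h⟩, ⟨hw, σ, hσ, hh⟩, hq⟩ := hy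
  rw [QQ_torus Fl j z] at hq
  have hj : j' = j := Fl.q_disj j' j _ _ hq
  subst hj
  have hinj := (Fl.q_emb j').injective hq
  have hw1 : w = _ := congrArg Prod.fst hinj
  have hh1 : h = _ := congrArg Prod.snd hinj
  have hr : (z.2.1 : ℝ) < 4 / 3 := by
    have h1 : ‖(w : ℂ)‖ < 4 / 3 := hw
    rw [hw1, norm_polar] at h1
    exact h1
  refine ⟨hr, ?_⟩
  have hP0 : (0 : ℝ) < P := by
    have : 0 < P := by omega
    exact_mod_cast this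
  -- the height in coordinates
  have hcoe : ∀ z1 : ℝ × Ioo (1 : ℝ) 2 × ℝ,
      ga j' • ((z1.1 + d j' * (z1.2.2 / P) : ℝ) : AddCircle (1 : ℝ)) +
        ((de j' * (z1.2.2 / P) : ℝ) : AddCircle (1 : ℝ)) =
      ((ga j' * (z1.1 + d j' * (z1.2.2 / P)) + de j' * (z1.2.2 / P) : ℝ) :
        AddCircle (1 : ℝ)) := by
    intro z1
    rw [AddCircle.coe_add (1 : ℝ) (ga j' * (z1.1 + d j' * (z1.2.2 / P))) (de j' * (z1.2.2 / P)),
      ← AddCircle.coe_zsmul, zsmul_eq_mul]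
  obtain ⟨m, hm⟩ : ∃ m : ℤ, σ = ga j' * (z.1 + d j' * (z.2.2 / P)) + de j' * (z.2.2 / P) + m := by
    have h1 : ((σ : ℝ) : AddCircle (1 : ℝ)) =
        ((ga j' * (z.1 + d j' * (z.2.2 / P)) + de j' * (z.2.2 / P) : ℝ) : AddCircle (1 : ℝ)) := by
      rw [← hcoe z]
      exact (show h = ((σ : ℝ) : AddCircle (1 : ℝ)) from hh).symm.trans hh1
    have h2 : ((σ - (ga j' * (z.1 + d j' * (z.2.2 / P)) + de j' * (z.2.2 / P)) : ℝ) :
        AddCircle (1 : ℝ)) = 0 := by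
      rw [AddCircle.coe_sub, h1, sub_self]
    obtain ⟨m, hm⟩ := (AddCircle.coe_eq_zero_iff (1 : ℝ)).1 h2
    refine ⟨m, ?_⟩
    rw [zsmul_eq_mul, mul_one] at hm
    linarith
  set sf : ℝ × Ioo (1 : ℝ) 2 × ℝ → ℝ := fun z1 =>
    ga j' * (z1.1 + d j' * (z1.2.2 / P)) + de j' * (z1.2.2 / P) + m with hsf
  have hsfc : Continuous sf := by
    rw [hsf]
    fun_prop
  have hnear : ∀ᶠ z1 in 𝓝 z, sf z1 ∈ Ioo s₀ (s₀ + 1) ∧ (z1.2.1 : ℝ) < 4 / 3 := by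
    have h1 : ∀ᶠ z1 in 𝓝 z, sf z1 ∈ Ioo s₀ (s₀ + 1) := by
      refine hsfc.continuousAt.eventually_mem (isOpen_Ioo.mem_nhds ?_)
      change sf z ∈ Ioo s₀ (s₀ + 1)
      rw [hsf]
      change ga j' * (z.1 + d j' * (z.2.2 / P)) + de j' * (z.2.2 / P) + m ∈ Ioo s₀ (s₀ + 1)
      rw [← hm]
      exact hσ
    have h2 : ∀ᶠ z1 : ℝ × Ioo (1 : ℝ) 2 × ℝ in 𝓝 z, (z1.2.1 : ℝ) < 4 / 3 := by
      have h3 : Continuous fun z1 : ℝ × Ioo (1 : ℝ) 2 × ℝ => (z1.2.1 : ℝ) := by fun_prop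
      exact h3.continuousAt.eventually (gt_mem_nhds hr)
    exact h1.and h2
  have hdeR : (de j' : ℝ) ≠ 0 := Int.cast_ne_zero.2 (hde j')
  have habs : 0 < |(de j' : ℝ)| := abs_pos.2 hdeR
  have hG : StrictMono fun v : ℝ => 1 / |(de j' : ℝ)| * v - m / de j' := by
    intro a b hab
    have h1 : 0 < 1 / |(de j' : ℝ)| := by positivity
    have h2 := mul_lt_mul_of_pos_left hab h1
    change 1 / |(de j' : ℝ)| * a - m / de j' < 1 / |(de j' : ℝ)| * b - m / de j'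
    linarith
  refine OrdEq.of_comp _ hG (hnear.mono fun z1 hz1 => ?_)
  have hv : (c (QQ Fl P j' z1)).2 = ((de j').sign : ℝ) * sf z1 := by
    rw [QQ_torus Fl j' z1, hcoe z1]
    have h1 : ((ga j' * (z1.1 + d j' * (z1.2.2 / P)) + de j' * (z1.2.2 / P) : ℝ) :
        AddCircle (1 : ℝ)) = ((sf z1 : ℝ) : AddCircle (1 : ℝ)) := by
      rw [hsf]
      change _ = ((ga j' * (z1.1 + d j' * (z1.2.2 / P)) + de j' * (z1.2.2 / P) + m : ℝ) :
        AddCircle (1 : ℝ))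
      rw [AddCircle.coe_add (1 : ℝ) (ga j' * (z1.1 + d j' * (z1.2.2 / P)) +
        de j' * (z1.2.2 / P)) m]
      have h2 : ((m : ℝ) : AddCircle (1 : ℝ)) = 0 :=
        (AddCircle.coe_eq_zero_iff (1 : ℝ)).2 ⟨m, by rw [zsmul_eq_mul, mul_one]⟩
      rw [h2, add_zero]
    rw [h1]
    refine hval _ _ ?_ hz1.1
    rw [norm_polar]
    exact hz1.2
  change Λ.MR j' z1.1 z1.2.1 z1.2.2 = 1 / |(de j' : ℝ)| * (c (QQ Fl P j' z1)).2 - m / de j'
  rw [hv, Λ.MR_inner j' z1.1 z1.2.2 hz1.2.le]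
  have h5 : ((de j').sign : ℝ) / |(de j' : ℝ)| = 1 / de j' := by
    rw [div_eq_div_iff habs.ne' hdeR]
    have h6 : ((de j').sign : ℝ) * (de j' : ℝ) = |(de j' : ℝ)| := by
      rw [← Int.cast_mul, Int.sign_mul_self_eq_abs, Int.cast_abs]
    rw [h6, one_mul]
  have h7 : 1 / |(de j' : ℝ)| * (((de j').sign : ℝ) * sf z1) =
      sf z1 * (((de j').sign : ℝ) / |(de j' : ℝ)|) := by ring
  rw [h7, h5]
  change _ = (ga j' * (z1.1 + d j' * (z1.2.2 / P)) + de j' * (z1.2.2 / P) + m) * (1 / de j') -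
    m / de j'
  have h8 : s j' = -(ga j') / de j' := by
    rw [eq_div_iff hdeR]
    exact hs j'
  rw [h8]
  field_simp
  ring

end Pool.Agent.H.MP_1611f1_gt.T2
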