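import Pool.Agent.H.MP_1611f1_gt.T2.ChC
import Pool.Agent.H.MP_1611f1_gt.T2.ChE
import Pool.Agent.H.MP_1611f1_gt.T2.ChF
import Pool.Agent.H.MP_1611f1_gt.T2.ChG

/-!
The charts cover.
-/

namespace Pool.Agent.H.MP_1611f1_gt.T2

open Topology Set Filter

variable {S : Type*} [TopologicalSpace S] {J : Type*} {E : Surf S J} {phi : S ≃ₜ S} {P : ℕ}
  {d s : J → ℝ} {ι : Type*} (Λ : Loc E phi P d s ι) {al be ga de : J → ℤ} {Y : Type*}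
  [TopologicalSpace Y] (Fl : RotFilling E phi d al be ga de Y)

theorem CmpF_QQ (hP : 2 ≤ P) (hsd : ∀ j, s j * d j < 1) (j : J) (z : ℝ × Ioo (1 : ℝ) 2 × ℝ) :
    ∃ c ∈ AllCharts Λ Fl, QQ Fl P j z ∈ c.source := by
  obtain ⟨c, h1, h2, -⟩ := exII Λ Fl hP hsd j (z.1 - 1 / 2) (z.2.2 - 1 / 2)
  refine ⟨c, Or.inr (Or.inl h1), ?_⟩
  rw [h2]
  refine ⟨z, ⟨⟨by linarith, by linarith⟩, mem_univ _, ⟨by linarith, by linarith⟩⟩, rfl⟩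

theorem CmpF_PP [Finite J] (hP : 2 ≤ P) (hsd : ∀ j, s j * d j < 1) (x : S) (t : ℝ) :
    ∃ c ∈ AllCharts Λ Fl, PP Fl P (x, t) ∈ c.source := by
  by_cases hx : x ∈ Out E
  · obtain ⟨ξ, hξ⟩ := E.flat x
    obtain ⟨a, b, hab, hD⟩ := Λ.DD_cover ⌊t⌋ x
    obtain ⟨c, h1, h2, -⟩ := exI Λ Fl hP ⌊t⌋ a b hab ξ
    refine ⟨c, Or.inl h1, ?_⟩
    rw [h2]
    have h3 := Int.floor_le t
    have h4 := Int.lt_floor_add_one t
    exact ⟨(x, t), ⟨⟨⟨hξ, hx⟩, hD⟩, ⟨by linarith, by linarith⟩⟩, rfl⟩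
  · have hx' : ∃ j w, x = E.collar j w := by
      by_contra hcon
      push Not at hcon
      exact hx fun j w hw => absurd hw (hcon j w)
    obtain ⟨j, w, rfl⟩ := hx'
    obtain ⟨θ, hθ⟩ := exists_cl (E := E) j w
    rw [hθ]
    exact CmpF_QQ Λ Fl hP hsd j (θ, w.2, t)

theorem charts_cover [Finite J] (hP : 2 ≤ P) (hsd : ∀ j, s j * d j < 1) (hde : ∀ j, de j ≠ 0)
    (hdet : ∀ j, al j * de j - be j * ga j = 1) (y : Y) :
    ∃ c ∈ AllCharts Λ Fl, y ∈ c.source := by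
  have hP0 : 0 < P := by omega
  rcases Fl.cover y with ⟨⟨x, t⟩, rfl⟩ | ⟨j, ⟨w, h⟩, rfl⟩
  · have hP' : (P : ℝ) ≠ 0 := by exact_mod_cast hP0.ne'
    have h1 : Fl.p (x, t) = PP Fl P (x, P * t) := by
      rw [PP]
      congr 2
      field_simp
    rw [h1]
    exact CmpF_PP Λ Fl hP hsd x _
  · by_cases hw : ‖(w : ℂ)‖ < 4 / 3
    · obtain ⟨u, hu⟩ := QuotientAddGroup.mk_surjective h
      have hu' : h = ((u : ℝ) : AddCircle (1 : ℝ)) := hu.symm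
      obtain ⟨c, h1, h2, -⟩ := exIII Fl hde j (u - 1 / 2)
      refine ⟨c, Or.inr (Or.inr h1), ?_⟩
      rw [h2]
      exact ⟨(w, h), ⟨hw, u, ⟨by linarith, by linarith⟩, hu'⟩, rfl⟩
    · obtain ⟨z, hz, -⟩ := exists_QQ_torus Fl hP0 hdet j w h (by linarith [not_lt.1 hw])
      rw [hz]
      exact CmpF_QQ Λ Fl hP hsd j z

end Pool.Agent.H.MP_1611f1_gt.T2
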