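import Pool.Agent.H.MP_1611f1_gt.T2.CmpB
import Pool.Agent.H.MP_1611f1_gt.T2.CmpC
import Pool.Agent.H.MP_1611f1_gt.T2.CmpD
import Pool.Agent.H.MP_1611f1_gt.T2.CmpF

/-!
Compatibility, the foliation.
-/

namespace Pool.Agent.H.MP_1611f1_gt.T2

open Topology Set Filter

variable {S : Type*} [TopologicalSpace S] {J : Type*} {E : Surf S J} {phi : S ≃ₜ S} {P : ℕ}
  {d s : J → ℝ} {ι : Type*} (Λ : Loc E phi P d s ι) {al be ga de : J → ℤ} {Y : Type*}
  [TopologicalSpace Y] (Fl : RotFilling E phi d al be ga de Y)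

theorem CmpH_srcI {c : OpenPartialHomeomorph Y ((ℝ × ℝ) × ℝ)} (hc : IsI Λ Fl c) {y : Y}
    (hy : y ∈ c.source) : ∃ x t, y = PP Fl P (x, t) := by
  obtain ⟨k, a, b, ξ, -, hs, -⟩ := hc
  rw [hs] at hy
  obtain ⟨z, -, hz⟩ := hy
  exact ⟨z.1, z.2, hz.symm⟩

theorem CmpH_srcII {c : OpenPartialHomeomorph Y ((ℝ × ℝ) × ℝ)} (hc : IsII Λ Fl c) {y : Y}
    (hy : y ∈ c.source) : ∃ j z, y = QQ Fl P j z := by
  obtain ⟨j, y₀, t₀, hs, -⟩ := hc
  rw [hs] at hy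
  obtain ⟨z, -, hz⟩ := hy
  exact ⟨j, z, hz.symm⟩

theorem CmpH_srcIII {c : OpenPartialHomeomorph Y ((ℝ × ℝ) × ℝ)}
    (hc : IsIII Fl c) {y : Y}
    (hy : y ∈ c.source) : ∃ j z, y = Fl.q j z := by
  obtain ⟨j, s₀, hs, -⟩ := hc
  rw [hs] at hy
  obtain ⟨z, -, hz⟩ := hy
  exact ⟨j, z, hz.symm⟩

/-- over the points outside the collars there are only charts of type I -/
theorem CmpH_onlyI (hP : 0 < P) {c : OpenPartialHomeomorph Y ((ℝ × ℝ) × ℝ)}
    (hc : c ∈ AllCharts Λ Fl) {x : S} {t : ℝ} (hx : ∀ j w, x ≠ E.collar j w)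
    (hy : PP Fl P (x, t) ∈ c.source) : IsI Λ Fl c := by
  rcases hc with hc | hc | hc
  · exact hc
  · obtain ⟨j, z, h⟩ := CmpH_srcII Λ Fl hc hy
    obtain ⟨k, -, hk⟩ := (PP_eq Fl hP _ _ _ _).1 h
    rw [zpow_cl Λ.rot] at hk
    exact absurd hk (hx _ _)
  · obtain ⟨j, z, h⟩ := CmpH_srcIII Fl hc hy
    obtain ⟨w, hw⟩ := Fl.overlap x (t / P) j z h
    exact absurd hw (hx _ _)

theorem charts_compat [Finite J] (hP : 2 ≤ P) (hde : ∀ j, de j ≠ 0)
    (hdet : ∀ j, al j * de j - be j * ga j = 1) (hs : ∀ j, s j * de j = -(ga j))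
    (c) (hc : c ∈ AllCharts Λ Fl) (c')
    (hc' : c' ∈ AllCharts Λ Fl) (y : Y) (hy : y ∈ c.source) (hy' : y ∈ c'.source) :
    OrdEq y (fun z => (c z).2) (fun z => (c' z).2) := by
  have hP0 : 0 < P := by omega
  rcases trichotomy Fl hP0 hdet y with ⟨x, t, rfl, hx⟩ | ⟨j, z, rfl⟩ | ⟨j, w, h, rfl, hw⟩
  · exact compat_outer Λ Fl hP (CmpH_onlyI Λ Fl hP0 hc hx hy)
      (CmpH_onlyI Λ Fl hP0 hc' hx hy') hy hy'
  · have key : ∀ c ∈ AllCharts Λ Fl, QQ Fl P j z ∈ c.source →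
        OrdEq z (fun z => (c (QQ Fl P j z)).2) (fun z => Λ.MR j z.1 z.2.1 z.2.2) := by
      intro c hc hy
      rcases hc with hc | hc | hc
      · exact collar_I Λ Fl hP hc j hy
      · exact collar_II Λ Fl hP hc j hy
      · exact (collar_III Λ Fl hP hde hs hc j hy).2
    exact OrdEq.of_openMap (QQ_open Fl hP0 j) ((key c hc hy).trans (key c' hc' hy').symm)
  · have key : ∀ c ∈ AllCharts Λ Fl, Fl.q j (w, h) ∈ c.source → IsIII Fl c := by
      intro c hc hy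
      rcases hc with hc | hc | hc
      · obtain ⟨x, t, h'⟩ := CmpH_srcI Λ Fl hc hy
        exact absurd h'.symm (core_ne Fl j w h hw x t)
      · obtain ⟨j', z, h'⟩ := CmpH_srcII Λ Fl hc hy
        exact absurd h'.symm (core_ne Fl j w h hw _ _)
      · exact hc
    exact compat_core Fl (key c hc hy) (key c' hc' hy') hy hy'

/-- the foliation -/
theorem exists_foliation [Finite J] (hP : 2 ≤ P) (hsd : ∀ j, s j * d j < 1)
    (hde : ∀ j, de j ≠ 0) (hdet : ∀ j, al j * de j - be j * ga j = 1)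
    (hs : ∀ j, s j * de j = -(ga j)) :
    ∃ F : Foliation Y, F.charts = AllCharts Λ Fl :=
  ⟨{ charts := AllCharts Λ Fl
     cover := charts_cover Λ Fl hP hsd hde hdet
     compat := fun c hc c' hc' y hy hy' =>
      charts_compat Λ Fl hP hde hdet hs c hc c' hc' y hy hy' }, rfl⟩

end Pool.Agent.H.MP_1611f1_gt.T2
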