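import Pool.Agent.H.MP_1611f1_gt.TauA
import Pool.Agent.H.MP_1611f1_gt.T2.ChG

/-!
The closed transversals (the cores of the solid tori) and leaf paths in the meridian discs.
-/

namespace Pool.Agent.H.MP_1611f1_gt.T2

open Topology Set Filter

variable {S : Type*} [TopologicalSpace S] {J : Type*} {E : Surf S J} {phi : S ≃ₜ S} {P : ℕ}
  {d s : J → ℝ} {ι : Type*} (Λ : Loc E phi P d s ι) {al be ga de : J → ℤ} {Y : Type*}
  [TopologicalSpace Y] (Fl : RotFilling E phi d al be ga de Y)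

/-- the cores of the solid tori are closed transversals -/
theorem transversal (F : Foliation Y) (hde : ∀ j, de j ≠ 0) (hF : F.charts = AllCharts Λ Fl)
    (j : J) (w : Metric.ball (0 : ℂ) 2) (hw : ‖(w : ℂ)‖ < 4 / 3) :
    F.ClosedTransversal (fun s : ℝ => Fl.q j (w, (((de j).sign * s : ℝ) : AddCircle (1 : ℝ)))) := by
  have hsg : ((de j).sign : ℝ) * ((de j).sign : ℝ) = 1 := by
    have h1 : (de j).sign * (de j).sign = 1 := by
      rcases lt_or_gt_of_ne (hde j) with h | h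
      · rw [Int.sign_eq_neg_one_of_neg h]; norm_num
      · rw [Int.sign_eq_one_of_pos h]; norm_num
    exact_mod_cast h1
  have habs : |((de j).sign : ℝ)| = 1 := by
    have h2 : |((de j).sign : ℝ)| * |((de j).sign : ℝ)| = 1 := by
      rw [← abs_mul, hsg, abs_one]
    nlinarith [abs_nonneg ((de j).sign : ℝ)]
  refine F.transversal_of _ ?_ ?_ ?_
  · refine (Fl.q_emb j).continuous.comp (continuous_const.prodMk ?_)
    exact (AddCircle.continuous_mk' (1 : ℝ)).comp (continuous_const.mul continuous_id)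
  · intro s
    show Fl.q j (w, _) = Fl.q j (w, _)
    congr 2
    rw [mul_add, mul_one, AddCircle.coe_add]
    have h3 : ((((de j).sign : ℤ) : ℝ) : AddCircle (1 : ℝ)) = 0 := by
      rw [AddCircle.coe_eq_zero_iff]
      exact ⟨(de j).sign, by simp⟩
    rw [h3, add_zero]
  · intro s
    obtain ⟨c, hIII, hsrc, hval⟩ := exIII Fl hde j (((de j).sign : ℝ) * s - 1 / 2)
    have hin : ∀ s' : ℝ, |s' - s| < 1 / 2 → ((de j).sign : ℝ) * s' ∈
        Ioo (((de j).sign : ℝ) * s - 1 / 2) (((de j).sign : ℝ) * s - 1 / 2 + 1) := by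
      intro s' hs'
      have h4 : |((de j).sign : ℝ) * s' - ((de j).sign : ℝ) * s| < 1 / 2 := by
        rw [← mul_sub, abs_mul, habs, one_mul]; exact hs'
      rw [abs_lt] at h4
      exact ⟨by linarith [h4.1], by linarith [h4.2]⟩
    have hcv : ∀ s' : ℝ, |s' - s| < 1 / 2 →
        (c (Fl.q j (w, (((de j).sign * s' : ℝ) : AddCircle (1 : ℝ))))).2 = s' := by
      intro s' hs'
      rw [hval w _ hw (hin s' hs'), ← mul_assoc, hsg, one_mul]
    refine ⟨c, ?_, ?_, 1 / 2, by norm_num, ?_⟩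
    · rw [hF]
      exact Or.inr (Or.inr hIII)
    · rw [hsrc]
      exact ⟨(w, (((de j).sign * s : ℝ) : AddCircle (1 : ℝ))),
        ⟨hw, ((de j).sign : ℝ) * s, hin s (by simp), rfl⟩, rfl⟩
    · intro a ha b hb hab
      have ha' : |a - s| < 1 / 2 := abs_lt.2 ⟨by linarith [ha.1], by linarith [ha.2]⟩
      have hb' : |b - s| < 1 / 2 := abs_lt.2 ⟨by linarith [hb.1], by linarith [hb.2]⟩
      show (c (Fl.q j (w, (((de j).sign * a : ℝ) : AddCircle (1 : ℝ))))).2 <
        (c (Fl.q j (w, (((de j).sign * b : ℝ) : AddCircle (1 : ℝ))))).2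
      rw [hcv a ha', hcv b hb']
      exact hab

/-- leaf paths in the meridian discs -/
theorem leaf_disc (F : Foliation Y) (hde : ∀ j, de j ≠ 0) (hF : F.charts = AllCharts Λ Fl)
    (j : J) (w w' : Metric.ball (0 : ℂ) 2) (h : AddCircle (1 : ℝ)) (hw : ‖(w : ℂ)‖ < 4 / 3)
    (hw' : ‖(w' : ℂ)‖ < 4 / 3) : F.SameLeaf (Fl.q j (w, h)) (Fl.q j (w', h)) := by
  have hmem : ∀ s : unitInterval,
      ‖((1 - (s : ℝ)) • (w : ℂ) + (s : ℝ) • (w' : ℂ))‖ < 4 / 3 := by
    intro s
    have h1 : (w : ℂ) ∈ Metric.ball (0 : ℂ) (4 / 3) := mem_ball_zero_iff.2 hw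
    have h2 : (w' : ℂ) ∈ Metric.ball (0 : ℂ) (4 / 3) := mem_ball_zero_iff.2 hw'
    have h3 := (convex_ball (0 : ℂ) (4 / 3)) h1 h2 (sub_nonneg.2 s.2.2) s.2.1
      (sub_add_cancel 1 (s : ℝ))
    exact mem_ball_zero_iff.1 h3
  let c : unitInterval → Metric.ball (0 : ℂ) 2 := fun s =>
    ⟨(1 - (s : ℝ)) • (w : ℂ) + (s : ℝ) • (w' : ℂ),
      mem_ball_zero_iff.2 ((hmem s).trans (by norm_num))⟩
  have hc : Continuous c := by
    apply Continuous.subtype_mk
    fun_prop
  have hc0 : c 0 = w := by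
    apply Subtype.ext
    simp [c]
  have hc1 : c 1 = w' := by
    apply Subtype.ext
    simp [c]
  obtain ⟨u, rfl⟩ := QuotientAddGroup.mk_surjective h
  obtain ⟨ch, hIII, hsrc, hval⟩ := exIII Fl hde j (u - 1 / 2)
  have hu : u ∈ Ioo (u - 1 / 2) (u - 1 / 2 + 1) := ⟨by linarith, by linarith⟩
  have key := F.sameLeaf_of (fun s => Fl.q j (c s, ((u : ℝ) : AddCircle (1 : ℝ))))
    ((Fl.q_emb j).continuous.comp (hc.prodMk continuous_const)) (fun s => by
      refine ⟨ch, ?_, ?_, Eventually.of_forall fun s' => ?_⟩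
      · rw [hF]
        exact Or.inr (Or.inr hIII)
      · rw [hsrc]
        exact ⟨(c s, ((u : ℝ) : AddCircle (1 : ℝ))), ⟨hmem s, u, hu, rfl⟩, rfl⟩
      · rw [hval (c s') u (hmem s') hu, hval (c s) u (hmem s) hu])
  rw [hc0, hc1] at key
  exact key

end Pool.Agent.H.MP_1611f1_gt.T2
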