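import Pool.Agent.H.MP_1611f1_gt.TauA
import Pool.Agent.H.MP_1611f1_gt.T2.ChF

/-!
Radial leaf paths.
-/

namespace Pool.Agent.H.MP_1611f1_gt.T2

open Topology Set Filter

variable {S : Type*} [TopologicalSpace S] {J : Type*} {E : Surf S J} {phi : S ≃ₜ S} {P : ℕ}
  {d s : J → ℝ} {ι : Type*} (Λ : Loc E phi P d s ι) {al be ga de : J → ℤ} {Y : Type*}
  [TopologicalSpace Y] (Fl : RotFilling E phi d al be ga de Y)

/-- radial leaf paths over the collars -/
theorem leaf_radial (F : Foliation Y) (hP : 2 ≤ P) (hsd : ∀ j, s j * d j < 1)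
    (hF : F.charts = AllCharts Λ Fl) (j : J) (θ t : ℝ) (r r' : Ioo (1 : ℝ) 2) :
    ∃ t', F.SameLeaf (QQ Fl P j (θ, r, t)) (QQ Fl P j (θ, r', t')) := by
  obtain ⟨g, hg, hgc⟩ := Λ.MR_solve (by omega) j (hsd j) θ (Λ.MR j θ r t)
  have hgr : g r = t := (Λ.MR_mono (by omega) j (hsd j) θ r).injective (hgc r)
  have hmem : ∀ v : unitInterval, (1 - (v : ℝ)) * r + v * r' ∈ Ioo (1 : ℝ) 2 := fun v =>
    (convex_Ioo (1 : ℝ) 2) r.2 r'.2 (by linarith [v.2.2]) v.2.1 (by ring)
  have hrho : Continuous fun v : unitInterval =>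
      (⟨(1 - (v : ℝ)) * r + v * r', hmem v⟩ : Ioo (1 : ℝ) 2) := by
    refine Continuous.subtype_mk ?_ _
    exact ((continuous_const.sub continuous_subtype_val).mul continuous_const).add
      (continuous_subtype_val.mul continuous_const)
  obtain ⟨rho, hrc, hr0, hr1⟩ : ∃ rho : unitInterval → Ioo (1 : ℝ) 2, Continuous rho ∧
      rho 0 = r ∧ rho 1 = r' := by
    refine ⟨_, hrho, ?_, ?_⟩
    · refine Subtype.ext ?_
      change (1 - (0 : ℝ)) * r + (0 : ℝ) * r' = r
      ring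
    · refine Subtype.ext ?_
      change (1 - (1 : ℝ)) * r + (1 : ℝ) * r' = r'
      ring
  have hgrho : Continuous fun v => g (rho v) := hg.comp (continuous_subtype_val.comp hrc)
  have hγ : Continuous fun v => QQ Fl P j (θ, rho v, g (rho v)) :=
    (QQ_cont Fl (by omega) j).comp (continuous_const.prodMk (hrc.prodMk hgrho))
  have h := F.sameLeaf_of (fun v => QQ Fl P j (θ, rho v, g (rho v))) hγ ?_
  · refine ⟨g r', ?_⟩
    have h0 : QQ Fl P j (θ, rho 0, g (rho 0)) = QQ Fl P j (θ, r, t) := by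
      rw [hr0, hgr]
    have h1 : QQ Fl P j (θ, rho 1, g (rho 1)) = QQ Fl P j (θ, r', g r') := by
      rw [hr1]
    rw [← h0, ← h1]
    exact h
  · intro v
    obtain ⟨c, hc, hs, hv⟩ := exII Λ Fl hP hsd j (θ - 1 / 2) (g (rho v) - 1 / 2)
    refine ⟨c, ?_, ?_, ?_⟩
    · rw [hF]
      exact Or.inr (Or.inl hc)
    · rw [hs]
      refine ⟨(θ, rho v, g (rho v)), ⟨⟨?_, ?_⟩, mem_univ _, ⟨?_, ?_⟩⟩, rfl⟩
      · change θ - 1 / 2 < θ
        linarith
      · change θ < θ - 1 / 2 + 1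
        linarith
      · change g (rho v) - 1 / 2 < g (rho v)
        linarith
      · change g (rho v) < g (rho v) - 1 / 2 + 1
        linarith
    · have key : ∀ v' : unitInterval, g (rho v') ∈ Ioo (g (rho v) - 1 / 2) (g (rho v) - 1 / 2 + 1) →
          (c (QQ Fl P j (θ, rho v', g (rho v')))).2 = Λ.MR j θ r t := by
        intro v' hv'
        have h3 := hv (θ, rho v', g (rho v')) ⟨⟨by
          change θ - 1 / 2 < θ
          linarith, by
          change θ < θ - 1 / 2 + 1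
          linarith⟩, mem_univ _, hv'⟩
        exact h3.trans (hgc (rho v'))
      have h4 : ∀ᶠ v' in 𝓝 v, g (rho v') ∈ Ioo (g (rho v) - 1 / 2) (g (rho v) - 1 / 2 + 1) :=
        (hgrho.tendsto v).eventually (Ioo_mem_nhds (by linarith) (by linarith))
      filter_upwards [h4] with v' hv'
      exact (key v' hv').trans (key v ⟨by linarith, by linarith⟩).symm

end Pool.Agent.H.MP_1611f1_gt.T2
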