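import Pool.Agent.H.MP_1611f1_gt.TauA
import Pool.Agent.H.MP_1611f1_gt.TauC
import Pool.Agent.H.MP_1611f1_gt.T2.ChE

/-!
Horizontal leaf paths: from the outer part to the collars.
-/

namespace Pool.Agent.H.MP_1611f1_gt.T2

open Topology Set Filter

variable {S : Type*} [TopologicalSpace S] {J : Type*} {E : Surf S J} {phi : S ≃ₜ S} {P : ℕ}
  {d s : J → ℝ} {ι : Type*} (Λ : Loc E phi P d s ι) {al be ga de : J → ℤ} {Y : Type*}
  [TopologicalSpace Y] (Fl : RotFilling E phi d al be ga de Y)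

/-- horizontal leaf paths inside the level sets of the collapse maps -/
theorem leaf_horizontal [Finite J] (F : Foliation Y) (hP : 2 ≤ P)
    (hF : F.charts = AllCharts Λ Fl) (k : ℤ) {t : ℝ} (ht : t ∈ Ico (k : ℝ) (k + 1))
    (γ : unitInterval → S) (hγ : Continuous γ)
    (hγ' : ∀ s, γ s ∈ Out E ∧ ∀ e, Λ.act k e → Λ.K e (γ s) = Λ.K e (γ 0)) :
    F.SameLeaf (PP Fl P (γ 0, t)) (PP Fl P (γ 1, t)) := by
  refine F.sameLeaf_of (fun s => PP Fl P (γ s, t))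
    ((PP_cont Fl (by omega)).comp (hγ.prodMk continuous_const)) fun s => ?_
  obtain ⟨hout, -⟩ := hγ' s
  obtain ⟨a, b, hadm, hD⟩ := Λ.DD_cover k (γ s)
  obtain ⟨ξ, hξ⟩ := E.flat (γ s)
  obtain ⟨c, hc, hsrc, hval⟩ := exI Λ Fl hP k a b hadm ξ
  have htI : t ∈ Ioo ((k : ℝ) - 1) (k + 1) := ⟨by linarith [ht.1], ht.2⟩
  have hU : IsOpen (ξ.source ∩ Out E ∩ Λ.DD k a b) :=
    (ξ.open_source.inter Out_open).inter (Λ.DD_open k a b)
  have hmem : γ s ∈ ξ.source ∩ Out E ∩ Λ.DD k a b := ⟨⟨hξ, hout⟩, hD⟩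
  have hev : ∀ᶠ s' in 𝓝 s, γ s' ∈ ξ.source ∩ Out E ∩ Λ.DD k a b :=
    hγ.continuousAt (hU.mem_nhds hmem)
  have hFa : ∀ s', Λ.Fa b (γ s') t = Λ.Fa b (γ 0) t := by
    intro s'
    cases b with
    | none => rfl
    | some e =>
      show Fe2 _ _ (lft (Λ.K e (γ s'))) t = Fe2 _ _ (lft (Λ.K e (γ 0))) t
      rw [(hγ' s').2 e hadm.2.1]
  have key : ∀ s', γ s' ∈ ξ.source ∩ Out E ∩ Λ.DD k a b →
      (c (PP Fl P (γ s', t))).2 = Λ.Fa b (γ 0) t - Λ.val k b := by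
    intro s' hx
    rw [hval (γ s', t) ⟨hx, htI⟩]
    show Λ.Fs k a b (γ s') t = _
    rw [Λ.Fs_ge hadm _ ht.1, hFa]
  refine ⟨c, ?_, ?_, ?_⟩
  · rw [hF]
    exact Or.inl hc
  · rw [hsrc]
    exact ⟨(γ s, t), ⟨hmem, htI⟩, rfl⟩
  · filter_upwards [hev] with s' hs'
    exact (key _ hs').trans (key _ hmem).symm

theorem LfD_cl (j : J) (w : AddCircle (1 : ℝ) × Ioo (1 : ℝ) 2) {θ : ℝ}
    (h : (θ : AddCircle (1 : ℝ)) = w.1) : E.collar j w = cl E j θ w.2 := by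
  unfold cl
  rw [h]

/-- the retraction, with its effect on the collapse maps -/
theorem LfD_ret [Finite J] : ∃ r : S → S, Continuous r ∧
    (∀ x, (∀ j w, x = E.collar j w → 11 / 6 ≤ (w.2 : ℝ)) → r x = x) ∧
    (∀ z, r z ∈ Out E) ∧
    (∀ z (e : ι), Λ.K e (r z) = Λ.K e z) ∧
    (∀ j w, ∃ w', r (E.collar j w) = E.collar j w') := by
  obtain ⟨r, hr, h1, h2, h3⟩ := E.exists_retract
  refine ⟨r, hr, h1, ?_, ?_, fun j w => ⟨_, (h3 j w).choose_spec.1⟩⟩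
  · intro z j w hz
    by_cases hc : ∃ j w, z = E.collar j w
    · obtain ⟨j', w', rfl⟩ := hc
      obtain ⟨w'', h4, -, h5⟩ := h3 j' w'
      rw [h4] at hz
      obtain rfl := E.disj _ _ _ _ hz
      rw [← (E.emb j').injective hz]
      have h6 : (5 : ℝ) / 3 < 11 / 6 := by norm_num
      exact h6.trans_le h5
    · push Not at hc
      rw [h2 z hc] at hz
      exact absurd hz (hc j w)
  · intro z e
    by_cases hc : ∃ j w, z = E.collar j w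
    · obtain ⟨j', w', rfl⟩ := hc
      obtain ⟨w'', h4, h5, -⟩ := h3 j' w'
      obtain ⟨θ, hθ⟩ : ∃ θ : ℝ, (θ : AddCircle (1 : ℝ)) = w'.1 :=
        QuotientAddGroup.mk_surjective w'.1
      rw [h4, LfD_cl j' w'' (hθ.trans h5.symm), LfD_cl j' w' hθ]
      exact Λ.rad e j' θ _ _
    · push Not at hc
      rw [h2 z hc]

/-- from the outer part (outside the collars or at radius `≥ 11/6`) to a collar -/
theorem leaf_outer [Finite J] (F : Foliation Y) (hP : 2 ≤ P)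
    (hF : F.charts = AllCharts Λ Fl) (x : S) (t : ℝ)
    (hx : ∀ j w, x = E.collar j w → 11 / 6 ≤ (w.2 : ℝ)) :
    ∃ j z, F.SameLeaf (PP Fl P (x, t)) (QQ Fl P j z) := by
  have ht : t ∈ Ico ((⌊t⌋ : ℤ) : ℝ) ((⌊t⌋ : ℤ) + 1) := ⟨Int.floor_le t, Int.lt_floor_add_one t⟩
  obtain ⟨r, hr, h1, h2, h3, h0⟩ := LfD_ret Λ
  obtain ⟨j, w, δ, hδ⟩ := Λ.reach ⌊t⌋ x
  have h4 := leaf_horizontal Λ Fl F hP hF ⌊t⌋ ht (fun s => r (δ s))
    (hr.comp δ.continuous) (fun s => ⟨h2 _, by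
      intro e he
      simp only [Path.source]
      rw [h3, h3]
      exact hδ s e he⟩)
  simp only [Path.source, Path.target] at h4
  rw [h1 x hx] at h4
  obtain ⟨w', h6⟩ := h0 j w
  rw [h6] at h4
  obtain ⟨θ, hθ⟩ := exists_cl j w' (E := E)
  rw [hθ] at h4
  exact ⟨j, (θ, w'.2, t), h4⟩

end Pool.Agent.H.MP_1611f1_gt.T2
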