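import Pool.Agent.H.MP_1611f1_gt.T2.CmpH
import Pool.Agent.H.MP_1611f1_gt.T2.LfA
import Pool.Agent.H.MP_1611f1_gt.T2.LfB
import Pool.Agent.H.MP_1611f1_gt.T2.LfD

/-!
Tautness.
-/

namespace Pool.Agent.H.MP_1611f1_gt.T2

open Topology Set Filter

variable {S : Type*} [TopologicalSpace S] {J : Type*} {E : Surf S J} {phi : S ≃ₜ S} {P : ℕ}
  {d s : J → ℝ} {ι : Type*} (Λ : Loc E phi P d s ι) {al be ga de : J → ℤ} {Y : Type*}
  [TopologicalSpace Y] (Fl : RotFilling E phi d al be ga de Y)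

include Λ in
theorem LfG_collar (F : Foliation Y) (hP : 2 ≤ P) (hsd : ∀ j, s j * d j < 1)
    (hF : F.charts = AllCharts Λ Fl) (j : J) (z : ℝ × Ioo (1 : ℝ) 2 × ℝ) :
    ∃ (w : Metric.ball (0 : ℂ) 2) (h : AddCircle (1 : ℝ)), ‖(w : ℂ)‖ < 4 / 3 ∧
      F.SameLeaf (QQ Fl P j z) (Fl.q j (w, h)) := by
  obtain ⟨θ, r, t⟩ := z
  obtain ⟨t', ht'⟩ := leaf_radial Λ Fl F hP hsd hF j θ t r ⟨7 / 6, by norm_num, by norm_num⟩
  rw [QQ_torus Fl j (θ, ⟨7 / 6, by norm_num, by norm_num⟩, t')] at ht'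
  refine ⟨_, _, ?_, ht'⟩
  rw [norm_polar]
  norm_num

include Λ in
theorem LfG_solid [Finite J] (F : Foliation Y) (hP : 2 ≤ P) (hsd : ∀ j, s j * d j < 1)
    (hdet : ∀ j, al j * de j - be j * ga j = 1)
    (hF : F.charts = AllCharts Λ Fl) (y : Y) :
    ∃ (j : J) (w : Metric.ball (0 : ℂ) 2) (h : AddCircle (1 : ℝ)), ‖(w : ℂ)‖ < 4 / 3 ∧
      F.SameLeaf y (Fl.q j (w, h)) := by
  rcases trichotomy Fl (P := P) (by omega) hdet y with ⟨x, t, rfl, hx⟩ | ⟨j, z, rfl⟩ |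
    ⟨j, w, h, rfl, hw⟩
  · obtain ⟨j, z, hz⟩ := leaf_outer Λ Fl F hP hF x t fun j w e => absurd e (hx j w)
    obtain ⟨w, h, hw, h2⟩ := LfG_collar Λ Fl F hP hsd hF j z
    exact ⟨j, w, h, hw, Foliation.SameLeaf.trans F hz h2⟩
  · obtain ⟨w, h, hw, h2⟩ := LfG_collar Λ Fl F hP hsd hF j z
    exact ⟨j, w, h, hw, h2⟩
  · have hw' : ‖(w : ℂ)‖ < 4 / 3 := by linarith
    exact ⟨j, w, h, hw', Foliation.SameLeaf.refl F _⟩

theorem taut [Finite J] (F : Foliation Y) (hP : 2 ≤ P) (hsd : ∀ j, s j * d j < 1)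
    (hde : ∀ j, de j ≠ 0) (hdet : ∀ j, al j * de j - be j * ga j = 1)
    (hF : F.charts = AllCharts Λ Fl) : F.Taut := by
  intro y
  obtain ⟨j, w, h, hw, hy⟩ := LfG_solid Λ Fl F hP hsd hdet hF y
  induction h using QuotientAddGroup.induction_on with
  | H a =>
    refine ⟨_, (de j).sign * a, transversal Λ Fl F hde hF j w hw, ?_⟩
    have h1 : ((de j).sign : ℝ) * ((de j).sign * a) = a := by
      have h2 : ((de j).sign : ℝ) * (de j).sign = 1 := by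
        rcases lt_or_gt_of_ne (hde j) with h3 | h3
        · rw [Int.sign_eq_neg_one_of_neg h3]; norm_num
        · rw [Int.sign_eq_one_of_pos h3]; norm_num
      rw [← mul_assoc, h2, one_mul]
    show F.SameLeaf y (Fl.q j (w, (((de j).sign * ((de j).sign * a) : ℝ) : AddCircle (1 : ℝ))))
    rw [h1]
    exact hy

include Λ in
/-- **the abstract theorem** -/
theorem taut_filling [Finite J] (hP : 2 ≤ P) (hsd : ∀ j, s j * d j < 1)
    (hde : ∀ j, de j ≠ 0) (hdet : ∀ j, al j * de j - be j * ga j = 1)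
    (hs : ∀ j, s j * de j = -(ga j)) (Fl : RotFilling E phi d al be ga de Y) :
    ∃ F : Foliation Y, F.Taut := by
  obtain ⟨F, hF⟩ := exists_foliation Λ Fl hP hsd hde hdet hs
  exact ⟨F, taut Λ Fl F hP hsd hde hdet hF⟩

end Pool.Agent.H.MP_1611f1_gt.T2
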