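import Pool.Agent.H.MP_1611f1_gt.T2.SeqA

/-!
Counting the moves.
-/

namespace Pool.Agent.H.MP_1611f1_gt.T2

open Topology Set Filter

/-- integer sequences with given steps -/
theorem SeqB_sum (y : ℤ → ℤ) : ∃ c : ℤ → ℤ, c 0 = 0 ∧ (∀ k, c (k + 1) = c k + y k) ∧
    ∀ P : ℕ, (∀ k, y (k + P) = y k) → ∀ k, c (k + P) = c k + c P := by
  obtain ⟨ψ, h0, hs⟩ := exists_seq (Γ := Multiplicative ℤ) (fun k => Multiplicative.ofAdd (y k))
  refine ⟨fun k => Multiplicative.toAdd (ψ k), by simp [h0], fun k => ?_, fun P hP k => ?_⟩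
  · show Multiplicative.toAdd (ψ (k + 1)) = Multiplicative.toAdd (ψ k) + y k
    rw [hs, toAdd_mul, toAdd_ofAdd, add_comm]
  · show Multiplicative.toAdd (ψ (k + P)) = Multiplicative.toAdd (ψ k) + Multiplicative.toAdd (ψ P)
    rw [seq_per (y := fun k => Multiplicative.ofAdd (y k)) (fun k => by simp only [hP]) h0 hs,
      toAdd_mul]

/-- the number of moves of the arc `i` before the time `k` -/
theorem exists_cnt {I : Type*} [DecidableEq I] {P : ℕ} (hP : 0 < P) (own : ℤ → I)
    (hper : ∀ k, own (k + P) = own k) (hsurj : ∀ i, ∃ k, own k = i) :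
    ∃ (cnt : I → ℤ → ℤ) (N : I → ℕ),
      (∀ i k, cnt i (k + 1) = cnt i k + if own k = i then 1 else 0) ∧
      (∀ i k, cnt i (k + P) = cnt i k + N i) ∧ (∀ i, 0 < N i) ∧
      ∀ i c, ∃ k, own k = i ∧ cnt i k = c := by
  choose cnt h0 hs hp using fun i : I => SeqB_sum (fun k => if own k = i then 1 else 0)
  have hper' : ∀ i, ∀ k : ℤ, (if own (k + P) = i then (1 : ℤ) else 0) =
      if own k = i then 1 else 0 := fun i k => by rw [hper]
  have hmono : ∀ i, Monotone (cnt i) := by
    intro i
    refine monotone_int_of_le_succ fun k => ?_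
    rw [hs]
    split_ifs <;> omega
  have hN0 : ∀ i, 0 ≤ cnt i P := by
    intro i
    rw [← h0 i]
    exact hmono i (by omega)
  -- periodicity with multiples
  have hown : ∀ (m : ℤ) (k : ℤ), own (k + P * m) = own k := by
    intro m
    induction m using Int.induction_on with
    | zero => intro k; simp
    | succ n ih =>
      intro k
      have h1 : k + P * ((n : ℤ) + 1) = (k + P * n) + P := by ring
      rw [h1, hper, ih]
    | pred n ih =>
      intro k
      have h1 : k + P * (-(n : ℤ)) = (k + P * (-(n : ℤ) - 1)) + P := by ring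
      rw [← ih k, h1, hper]
  have hcnt : ∀ (i : I) (m : ℤ) (k : ℤ), cnt i (k + P * m) = cnt i k + cnt i P * m := by
    intro i m
    induction m using Int.induction_on with
    | zero => intro k; simp
    | succ n ih =>
      intro k
      have h1 : k + P * ((n : ℤ) + 1) = (k + P * n) + P := by ring
      rw [h1, hp i P (hper' i), ih]
      ring
    | pred n ih =>
      intro k
      have h1 : k + P * (-(n : ℤ)) = (k + P * (-(n : ℤ) - 1)) + P := by ring
      have h2 := ih k
      rw [h1, hp i P (hper' i)] at h2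
      linarith
  have hpos : ∀ i, 1 ≤ cnt i P := by
    intro i
    obtain ⟨k, hk⟩ := hsurj i
    have hP' : (P : ℤ) ≠ 0 := by omega
    have h1 : own (k % P) = i := by
      rw [← hk, ← hown (k / P) (k % P), Int.emod_add_mul_ediv]
    have h2 : 0 ≤ k % P := Int.emod_nonneg _ hP'
    have h3 : k % P < P := Int.emod_lt_of_pos _ (by omega)
    have h4 : cnt i (k % P + 1) = cnt i (k % P) + 1 := by rw [hs, if_pos h1]
    have h5 : cnt i 0 ≤ cnt i (k % P) := hmono i h2
    have h6 : cnt i (k % P + 1) ≤ cnt i P := hmono i (by omega)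
    rw [h0] at h5
    omega
  refine ⟨cnt, fun i => (cnt i P).toNat, hs, fun i k => ?_, fun i => ?_, fun i c => ?_⟩
  · rw [hp i P (hper' i), Int.toNat_of_nonneg (hN0 i)]
  · have := hpos i
    show 0 < (cnt i P).toNat
    omega
  · have hval : ∀ m : ℤ, cnt i (P * m) = cnt i P * m := by
      intro m
      have h1 := hcnt i m 0
      rw [zero_add, h0, zero_add] at h1
      exact h1
    have hN := hpos i
    obtain ⟨k, hk, hmax⟩ := Int.exists_greatest_of_bdd (P := fun k => cnt i k ≤ c)
      ⟨P * (|c| + 1), fun z hz => by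
        by_contra hlt
        have h1 : cnt i (P * (|c| + 1)) ≤ cnt i z := hmono i (by omega)
        rw [hval] at h1
        have h2 : |c| + 1 ≤ cnt i P * (|c| + 1) := by
          have := abs_nonneg c
          nlinarith
        have h3 := le_abs_self c
        omega⟩
      ⟨P * (-|c|), by
        show cnt i (P * (-|c|)) ≤ c
        rw [hval]
        have h1 := neg_abs_le c
        have h2 : cnt i P * (-|c|) ≤ -|c| := by
          have := abs_nonneg c
          nlinarith
        omega⟩
    have h1 : ¬ cnt i (k + 1) ≤ c := fun h => by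
      have := hmax _ h
      omega
    have h2 := hs i k
    by_cases h3 : own k = i
    · rw [if_pos h3] at h2
      exact ⟨k, h3, by omega⟩
    · rw [if_neg h3] at h2
      omega

end Pool.Agent.H.MP_1611f1_gt.T2
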