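import Pool.Agent.H.MP_1611f1_gt.T2.MvB
import Pool.Agent.H.MP_1611f1_gt.T2.SeqB

/-!
From the moves to the arcs at the integer times: the system.
-/

namespace Pool.Agent.H.MP_1611f1_gt.T2

open Topology Set Filter

variable {S : Type*} [TopologicalSpace S] {b : ℕ} {E : Surf S (ZMod b)} {A : Strips E} {P : ℕ}
  {d : ZMod b → ℝ}

theorem cnt_sum {I : Type*} [DecidableEq I] (own : ℤ → I) (own' : Fin P → I)
    (h : ∀ k : Fin P, own ((k : ℕ) : ℤ) = own' k) (cnt : I → ℤ → ℤ)
    (hcnt : ∀ i k, cnt i (k + 1) = cnt i k + if own k = i then 1 else 0) (i : I) :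
    cnt i P = cnt i 0 + ((Finset.univ.filter fun k => own' k = i).card : ℤ) := by
  have h1 : ∀ n : ℕ, cnt i n = cnt i 0 +
      ∑ k ∈ Finset.range n, if own ((k : ℕ) : ℤ) = i then (1 : ℤ) else 0 := by
    intro n
    induction n with
    | zero => simp
    | succ n ih =>
      rw [Finset.sum_range_succ, ← add_assoc, ← ih]
      have := hcnt i n
      push_cast
      exact this
  rw [h1, Finset.card_filter, Finset.sum_range]
  push_cast
  congr 1
  refine Finset.sum_congr rfl fun k _ => ?_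
  rw [h k]

theorem exists_sys [NeZero b] (hb : 2 ≤ b) (Φ : Moves A P d) :
    ∃ N : ZMod b → ℕ, (∀ j, 0 < N j) ∧ (∀ j, N j = Φ.num j) ∧
      Nonempty (Sys E Φ.phi P d N) := by
  obtain ⟨Q⟩ := exists_prods Φ
  have hP : 0 < P := by
    obtain ⟨k, -⟩ := Φ.surj 0
    exact Nat.lt_of_le_of_lt (Nat.zero_le _) k.isLt
  obtain ⟨cnt, N, hcnt, hper, hN, hex⟩ := exists_cnt hP Q.own Q.own_per Q.own_surj
  choose tm htm1 htm2 using hex
  have hne : ∀ {k : ℤ} {i : ZMod b}, Q.own k ≠ i → i ≠ Φ.own (Q.idx k) := by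
    intro k i h h'
    rw [Q.own_eq] at h
    exact h h'.symm
  have keyS : ∀ i k x, A.c i (Q.h (tm i (cnt i k)) x) = A.c i (Q.h k x) := by
    intro i k x
    refine congrFun (Q.const i cnt hcnt (fun k x => A.c i (Q.h k x)) (fun k hk => ?_)
      (htm2 i (cnt i k))) x
    funext x
    show A.c i (Q.h (k + 1) x) = A.c i (Q.h k x)
    rw [Q.h_step]
    exact Φ.keep (Q.idx k) i _ (hne hk)
  have keyT : ∀ i k θ, A.Tl i (Q.Lf (tm i (cnt i k)) i θ) = A.Tl i (Q.Lf k i θ) := by
    intro i k θ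
    refine congrFun (Q.const i cnt hcnt (fun k θ => A.Tl i (Q.Lf k i θ)) (fun k hk => ?_)
      (htm2 i (cnt i k))) θ
    funext θ
    show A.Tl i (Q.Lf (k + 1) i θ) = A.Tl i (Q.Lf k i θ)
    rw [Q.Lf_step]
    exact Φ.keep_T (Q.idx k) i _ (hne hk)
  have keyH : ∀ i k θ, A.Hd i (Q.Lf (tm i (cnt i k)) (i + 1) θ) = A.Hd i (Q.Lf k (i + 1) θ) := by
    intro i k θ
    refine congrFun (Q.const i cnt hcnt (fun k θ => A.Hd i (Q.Lf k (i + 1) θ)) (fun k hk => ?_)
      (htm2 i (cnt i k))) θ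
    funext θ
    show A.Hd i (Q.Lf (k + 1) (i + 1) θ) = A.Hd i (Q.Lf k (i + 1) θ)
    rw [Q.Lf_step]
    exact Φ.keep_H (Q.idx k) i _ (hne hk)
  have hsucc : ∀ i c, c + 1 = cnt i (tm i c + 1) := by
    intro i c
    rw [hcnt, if_pos (htm1 i c), htm2]
  have hown : ∀ i c, Φ.own (Q.idx (tm i c)) = i := by
    intro i c
    rw [← Q.own_eq, htm1]
  have hcntm : ∀ i k m, cnt i (k + P * m) = cnt i k + N i * m := by
    intro i k m
    induction m using Int.induction_on with
    | zero => simp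
    | succ m ih =>
      have h := hper i (k + P * m)
      rw [ih] at h
      have h2 : k + (P : ℤ) * (m + 1) = k + P * m + P := by ring
      rw [h2, h]
      ring
    | pred m ih =>
      have h := hper i (k + P * (-m - 1))
      have h2 : k + (P : ℤ) * (-m - 1) + P = k + P * (-m) := by ring
      rw [h2, ih] at h
      linarith
  have hhm : ∀ k m, Q.h (k + P * m) = Q.h k * Φ.phi ^ m := by
    intro k m
    induction m using Int.induction_on with
    | zero => simp
    | succ m ih =>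
      have h2 : k + (P : ℤ) * (m + 1) = k + P * m + P := by ring
      rw [h2, Q.h_per, ih, mul_assoc, ← zpow_add_one]
    | pred m ih =>
      have h2 : k + (P : ℤ) * (-m) = k + P * (-m - 1) + P := by ring
      rw [h2, Q.h_per] at ih
      have h3 := congrArg (fun f => f * Φ.phi⁻¹) ih
      simp only [mul_inv_cancel_right] at h3
      rw [h3, mul_assoc, ← zpow_sub_one]
  have hnum : ∀ j, N j = Φ.num j := by
    intro j
    have h1 := cnt_sum Q.own Φ.own (fun k => by rw [Q.own_eq, Q.idx_eq]) cnt hcnt j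
    have h2 := hper j 0
    rw [zero_add, h1] at h2
    have h3 : ((Finset.univ.filter fun k => Φ.own k = j).card : ℤ) = N j := by linarith
    exact_mod_cast h3.symm
  refine ⟨N, hN, hnum, ⟨{
    own := Q.own
    cnt := cnt
    cnt_step := hcnt
    cnt_per := hper
    st := fun i c => ⟨fun x => A.c i (Q.h (tm i c) x),
      (A.c i).continuous.comp (Q.h (tm i c)).continuous⟩
    Tl := fun i c θ => A.Tl i (Q.Lf (tm i c) i θ)
    Hd := fun i c θ => A.Hd i (Q.Lf (tm i c) (i + 1) θ)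
    Tl_cont := fun i c => (A.Tl_cont i).comp (Q.Lf (tm i c) i).continuous
    Hd_cont := fun i c => (A.Hd_cont i).comp (Q.Lf (tm i c) (i + 1)).continuous
    Tl_one := fun i c θ => by rw [Q.Lf_one, A.Tl_one]
    Hd_one := fun i c θ => by rw [Q.Lf_one, A.Hd_one]
    tail := fun i c θ r => by
      show A.c i (Q.h (tm i c) (cl E i θ r)) = _
      rw [Q.h_cl]
      exact A.tail i _ r
    head := fun i c θ r => by
      show A.c i (Q.h (tm i c) (cl E (i + 1) θ r)) = _
      rw [Q.h_cl]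
      exact A.head i _ r
    other := fun i c j θ r h1 h2 => by
      show A.c i (Q.h (tm i c) (cl E j θ r)) = _
      rw [Q.h_cl]
      exact A.other i j _ h1 h2
    Tl_right := fun i c θ => by
      have h1 : A.Tl i (Q.Lf (tm i (c + 1)) i θ) =
          A.Tl i (Φ.G (Q.idx (tm i c)) i (Q.Lf (tm i c) i θ)) := by
        conv_lhs => rw [hsucc i c]
        rw [keyT, Q.Lf_step]
        rfl
      have h2 := Φ.right_T (Q.idx (tm i c)) (Q.Lf (tm i c) i θ)
      rw [hown] at h2
      rw [h1]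
      exact h2
    Hd_right := fun i c θ => by
      have h1 : A.Hd i (Q.Lf (tm i (c + 1)) (i + 1) θ) =
          A.Hd i (Φ.G (Q.idx (tm i c)) (i + 1) (Q.Lf (tm i c) (i + 1) θ)) := by
        conv_lhs => rw [hsucc i c]
        rw [keyH, Q.Lf_step]
        rfl
      have h2 := Φ.right_H (Q.idx (tm i c)) (Q.Lf (tm i c) (i + 1) θ)
      rw [hown] at h2
      rw [h1]
      exact h2
    st_per := fun i c m x => by
      show A.c i (Q.h (tm i (c + N i * m)) x) = A.c i (Q.h (tm i c) ((Φ.phi ^ m) x))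
      have h1 : c + N i * m = cnt i (tm i c + P * m) := by rw [hcntm, htm2]
      rw [h1, keyS, hhm]
      rfl
    Tl_per := fun i c θ => by
      have h1 : c + N i = cnt i (tm i c + P) := by rw [hper, htm2]
      rw [h1, keyT, Q.Lf_per]
    Hd_per := fun i c θ => by
      have h1 : c + N i = cnt i (tm i c + P) := by rw [hper, htm2]
      rw [h1, keyH, Q.Lf_per]
    rot := fun j θ r => phi_cl Φ j θ r
    disj := fun k i i' x h => by
      show A.c i (Q.h (tm i (cnt i k)) x) = 0 ∨ A.c i' (Q.h (tm i' (cnt i' k)) x) = 0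
      rw [keyS, keyS]
      exact A.disj i i' _ h
    off := fun i c x => by
      show A.c i (Q.h (tm i c) x) = 0 ∨ A.c i (Q.h (tm i (c + 1)) x) = 0
      have h1 : A.c i (Q.h (tm i (c + 1)) x) =
          A.c i (Φ.g (Q.idx (tm i c)) (Q.h (tm i c) x)) := by
        conv_lhs => rw [hsucc i c]
        rw [keyS, Q.h_step]
        rfl
      have h2 := Φ.off (Q.idx (tm i c)) (Q.h (tm i c) x)
      rw [hown] at h2
      rw [h1]
      exact h2.symm
    fixH := fun k i θ hk hθ => by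
      have e : i - 1 + 1 = i := sub_add_cancel i 1
      rw [keyT] at hθ
      rw [keyH, keyH, e, Q.Lf_step]
      exact A.fixHd hb (Φ.G (Q.idx k) i) i (Q.Lf k i θ) (Φ.keep_T (Q.idx k) i _ (hne hk)) hθ
    fixT := fun k i θ hk hθ => by
      rw [keyH] at hθ
      rw [keyT, keyT, Q.Lf_step]
      exact A.fixTl hb (Φ.G (Q.idx k) (i + 1)) i (Q.Lf k (i + 1) θ)
        (Φ.keep_H (Q.idx k) i _ (hne hk)) hθ
    reach := fun k x => ?_ }⟩⟩
  obtain ⟨j, z, γ, hγ⟩ := Φ.reach (Q.idx k) (Q.h k x)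
  obtain ⟨z1, r⟩ := z
  obtain ⟨θ, rfl⟩ := QuotientAddGroup.mk_surjective z1
  have hz : (Q.h k).symm (E.collar j ((θ : AddCircle (1 : ℝ)), r)) =
      E.collar j ((((Q.Lf k j).symm θ : ℝ) : AddCircle (1 : ℝ)), r) := by
    have h1 := Q.h_cl k j ((Q.Lf k j).symm θ) r
    rw [OrderIso.apply_symm_apply] at h1
    show (Q.h k).symm (cl E j θ r) = cl E j ((Q.Lf k j).symm θ) r
    rw [← h1, Homeomorph.symm_apply_apply]
  refine ⟨j, ((((Q.Lf k j).symm θ : ℝ) : AddCircle (1 : ℝ)), r),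
    (γ.map (Q.h k).symm.continuous).cast ((Q.h k).symm_apply_apply x).symm hz.symm, fun t => ?_⟩
  have hγ1 := hγ t
  have hy : Q.h k ((Q.h k).symm (γ t)) = γ t := (Q.h k).apply_symm_apply (γ t)
  show (∀ i, A.c i (Q.h (tm i (cnt i k)) ((Q.h k).symm (γ t))) =
      A.c i (Q.h (tm i (cnt i k)) x)) ∧
    ∀ i, A.c i (Q.h (tm i (cnt i (k + 1))) ((Q.h k).symm (γ t))) =
      A.c i (Q.h (tm i (cnt i (k + 1))) x)
  constructor
  · intro i
    rw [keyS, keyS, hy]
    exact hγ1.1 i
  · intro i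
    rw [keyS, keyS, Q.h_step]
    show A.c i (Φ.g (Q.idx k) (Q.h k ((Q.h k).symm (γ t)))) =
      A.c i (Φ.g (Q.idx k) (Q.h k x))
    rw [hy]
    by_cases hi : i = Φ.own (Q.idx k)
    · rw [hi]
      exact hγ1.2
    · rw [Φ.keep _ _ _ hi, Φ.keep _ _ _ hi]
      exact hγ1.1 i

theorem two_le_P [NeZero b] (hb : 2 ≤ b) (Φ : Moves A P d) : 2 ≤ P := by
  have h1 := Fintype.card_le_of_surjective _ Φ.surj
  rw [Fintype.card_fin, ZMod.card] at h1
  exact hb.trans h1

end Pool.Agent.H.MP_1611f1_gt.T2
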