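import Pool.Agent.H.MP_1611f1_gt.T2.LfG
import Pool.Agent.H.MP_1611f1_gt.T2.MvC
import Pool.Agent.H.MP_1611f1_gt.T2.Asm
import Pool.Agent.H.MP_1611f1_gt.T2.AsmE

/-!
The main theorem on positive monodromies.
-/

namespace Pool.Agent.H.MP_1611f1_gt.T2

open Topology Set Filter

theorem main {S : Type*} [TopologicalSpace S] {b : ℕ} (hb : 2 ≤ b) {Y : Type*}
    [TopologicalSpace Y] (E : Surf S (ZMod b)) (A : Strips E) {P : ℕ} {d : ZMod b → ℝ}
    (Φ : Moves A P d) (al be ga de : ZMod b → ℤ) (hdet : ∀ j, al j * de j - be j * ga j = 1)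
    (hde : ∀ j, de j ≠ 0)
    (hslope : (∀ j, 0 ≤ -(ga j : ℝ) / de j) ∨
      ∃ ρ : ZMod b → ℝ, (∀ j, 0 < ρ j) ∧ (∀ j, Φ.num j * ρ j < 1) ∧
        ∀ j, -(ga j : ℝ) / de j = ρ j / (1 - Φ.num j * ρ j) - ρ (j - 1))
    (Fl : RotFilling E Φ.phi d al be ga de Y) : ∃ F : Foliation Y, F.Taut := by
  have hb' : NeZero b := ⟨by omega⟩
  obtain ⟨N, hN, hNum, ⟨Ys⟩⟩ := exists_sys hb Φ
  obtain rfl : N = Φ.num := funext hNum
  have hP := two_le_P hb Φ
  have hdeR : ∀ j, (de j : ℝ) ≠ 0 := fun j => by exact_mod_cast hde j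
  have hdn := d_nonpos Ys
  have key : ∀ s : ZMod b → ℝ, (∀ j, s j = -(ga j : ℝ) / de j) → Nonempty (Par Φ.num s) →
      (∀ j, s j * d j < 1) → ∃ F : Foliation Y, F.Taut := by
    intro s hs hpar hsd
    obtain ⟨Z⟩ := hpar
    obtain ⟨Λ⟩ := exists_loc Ys Z hb (by omega)
    refine taut_filling Λ hP hsd hde hdet (fun j => ?_) Fl
    rw [hs]
    field_simp [hdeR j]
  rcases hslope with h | ⟨ρ, hρ, hq, hs⟩
  · refine key (fun j => -(ga j : ℝ) / de j) (fun _ => rfl) (exists_par _ hN _ h) fun j => ?_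
    have h1 := h j
    have h2 := hdn j
    have h3 := mul_nonpos_of_nonneg_of_nonpos h1 h2
    exact h3.trans_lt one_pos
  · refine key (fun j => ρ j / (1 - Φ.num j * ρ j) - ρ (j - 1)) (fun j => (hs j).symm)
      (par_of_rho hN ρ hρ hq fun _ => rfl) fun j => ?_
    have h1 : 0 ≤ ρ j / (1 - Φ.num j * ρ j) :=
      div_nonneg (hρ j).le (by linarith [hq j])
    have h2 := hdn j
    have h3 := d_ge Ys j
    have h4 := hq (j - 1)
    have h5 := hρ (j - 1)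
    have h6 : ρ (j - 1) * (-d j) ≤ ρ (j - 1) * Φ.num (j - 1) :=
      mul_le_mul_of_nonneg_left (by linarith) h5.le
    have h7 := mul_nonpos_of_nonneg_of_nonpos h1 h2
    show (ρ j / (1 - Φ.num j * ρ j) - ρ (j - 1)) * d j < 1
    nlinarith

end Pool.Agent.H.MP_1611f1_gt.T2
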