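import Mathlib

/-!
Sequences in a group with given steps; counting.
-/

namespace Pool.Agent.H.MP_1611f1_gt.T2

open Topology Set Filter

/-- sequences in a group with given steps -/
theorem exists_seq {Γ : Type*} [Group Γ] (y : ℤ → Γ) :
    ∃ ψ : ℤ → Γ, ψ 0 = 1 ∧ ∀ k, ψ (k + 1) = y k * ψ k := by
  obtain ⟨a, ha0, ha⟩ : ∃ a : ℕ → Γ, a 0 = 1 ∧ ∀ n, a (n + 1) = y n * a n :=
    ⟨fun n => Nat.rec 1 (fun n p => y n * p) n, rfl, fun _ => rfl⟩
  obtain ⟨b, hb0, hb⟩ : ∃ b : ℕ → Γ, b 0 = 1 ∧ ∀ n : ℕ, b (n + 1) = (y (-((n : ℤ) + 1)))⁻¹ * b n :=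
    ⟨fun n => Nat.rec 1 (fun n p => (y (-((n : ℤ) + 1)))⁻¹ * p) n, rfl, fun _ => rfl⟩
  obtain ⟨ψ, hψ⟩ : ∃ ψ : ℤ → Γ, ∀ k, ψ k = if 0 ≤ k then a k.toNat else b (-k).toNat :=
    ⟨_, fun _ => rfl⟩
  have h1 : ∀ n : ℕ, ψ n = a n := by
    intro n
    rw [hψ, if_pos (Int.natCast_nonneg n), Int.toNat_natCast]
  have h2 : ∀ n : ℕ, ψ (-(n : ℤ)) = b n := by
    intro n
    rcases Nat.eq_zero_or_pos n with h | h
    · subst h
      have h3 := h1 0
      rw [ha0, ← hb0] at h3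
      simpa using h3
    · rw [hψ, if_neg (by omega), neg_neg, Int.toNat_natCast]
  refine ⟨ψ, by simpa [ha0] using h1 0, fun k => ?_⟩
  rcases le_or_gt 0 k with hk | hk
  · obtain ⟨n, rfl⟩ := Int.eq_ofNat_of_zero_le hk
    have h3 : (n : ℤ) + 1 = ((n + 1 : ℕ) : ℤ) := by push_cast; rfl
    rw [h3, h1, h1, ha]
  · obtain ⟨n, hn⟩ : ∃ n : ℕ, k = -((n + 1 : ℕ) : ℤ) :=
      ⟨(-k - 1).toNat, by omega⟩
    have h3 : k + 1 = -(n : ℤ) := by rw [hn]; push_cast; ring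
    have h4 : k = -((n : ℤ) + 1) := by rw [hn]; push_cast; rfl
    have h5 : ψ k = b (n + 1) := by rw [hn, h2]
    rw [h3, h2, h5, hb, h4, mul_inv_cancel_left]

theorem seq_per {Γ : Type*} [Group Γ] {P : ℕ} {y ψ : ℤ → Γ} (hy : ∀ k, y (k + P) = y k)
    (h0 : ψ 0 = 1) (hs : ∀ k, ψ (k + 1) = y k * ψ k) (k : ℤ) : ψ (k + P) = ψ k * ψ P := by
  have key : ψ (k + P) * (ψ P)⁻¹ = ψ k := by
    induction k using Int.induction_on with
    | zero => rw [zero_add, mul_inv_cancel, h0]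
    | succ n ih =>
      have h1 : ((n : ℤ) + 1 + P) = (n + P) + 1 := by ring
      rw [h1, hs, hs, hy, mul_assoc, ih]
    | pred n ih =>
      have h1 : ψ (-(n : ℤ) + P) = y (-(n : ℤ) - 1) * ψ (-(n : ℤ) - 1 + P) := by
        have h2 : (-(n : ℤ) + P) = (-(n : ℤ) - 1 + P) + 1 := by ring
        rw [h2, hs, hy]
      have h3 : ψ (-(n : ℤ)) = y (-(n : ℤ) - 1) * ψ (-(n : ℤ) - 1) := by
        have h2 := hs (-(n : ℤ) - 1)
        rw [sub_add_cancel] at h2
        exact h2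
      rw [h1, h3, mul_assoc] at ih
      exact mul_left_cancel ih
  rw [← key, inv_mul_cancel_right]

theorem seq_prod {Γ : Type*} [Group Γ] {P : ℕ} (x : Fin P → Γ) {y ψ : ℤ → Γ}
    (hy : ∀ k : Fin P, y ((k : ℕ) : ℤ) = x k)
    (h0 : ψ 0 = 1) (hs : ∀ k, ψ (k + 1) = y k * ψ k) :
    ψ P = (List.ofFn fun i => x (Fin.rev i)).prod := by
  have key : ∀ (m : ℕ) (x' : Fin m → Γ), (∀ k : Fin m, y ((k : ℕ) : ℤ) = x' k) →
      ψ m = (List.ofFn fun i => x' (Fin.rev i)).prod := by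
    intro m
    induction m with
    | zero =>
      intro x' _
      simpa using h0
    | succ m ih =>
      intro x' hx'
      have h1 : ψ ((m + 1 : ℕ) : ℤ) = y m * ψ m := by
        push_cast
        exact hs m
      have h2 : y m = x' (Fin.last m) := by
        have h3 := hx' (Fin.last m)
        simpa using h3
      have h4 := ih (fun i => x' i.castSucc) (fun k => by
        have h5 := hx' k.castSucc
        simpa using h5)
      rw [List.ofFn_succ, List.prod_cons, h1, h2, h4, Fin.rev_zero]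
      have h6 : ∀ i : Fin m, Fin.rev i.succ = (Fin.rev i).castSucc := fun i => Fin.rev_succ i
      simp only [h6]
  exact key P x hy

end Pool.Agent.H.MP_1611f1_gt.T2
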