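import Pool.Agent.H.MP_1611f1_gt.T2.Sys
import Pool.Agent.H.MP_1611f1_gt.T2.SeqA

/-!
From the moves to the arcs at the integer times.
-/

namespace Pool.Agent.H.MP_1611f1_gt.T2

open Topology Set Filter

variable {S : Type*} [TopologicalSpace S] {b : ℕ} {E : Surf S (ZMod b)} {A : Strips E} {P : ℕ}
  {d : ZMod b → ℝ}

/-- the homeomorphisms `h k`, with the lifts `Lf k j` of their action on the collars: the products
of the moves before the time `k`, for all `k ∈ ℤ` -/
structure Prods (Φ : Moves A P d) where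
  own : ℤ → ZMod b
  own_per : ∀ k, own (k + P) = own k
  own_surj : ∀ i, ∃ k, own k = i
  h : ℤ → (S ≃ₜ S)
  Lf : ℤ → ZMod b → (ℝ ≃o ℝ)
  idx : ℤ → Fin P
  idx_eq : ∀ k : Fin P, idx ((k : ℕ) : ℤ) = k
  own_eq : ∀ k, own k = Φ.own (idx k)
  h_step : ∀ k, h (k + 1) = Φ.g (idx k) * h k
  Lf_step : ∀ k j, Lf (k + 1) j = Φ.G (idx k) j * Lf k j
  h_per : ∀ k, h (k + P) = h k * Φ.phi
  Lf_per : ∀ k j θ, Lf (k + P) j θ = Lf k j (θ + d j)
  Lf_one : ∀ k j θ, Lf k j (θ + 1) = Lf k j θ + 1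
  h_cl : ∀ k j θ r, h k (cl E j θ r) = cl E j (Lf k j θ) r

theorem exists_prods [NeZero b] (Φ : Moves A P d) : Nonempty (Prods Φ) := by
  have hP : 0 < P := by
    obtain ⟨k, -⟩ := Φ.surj 0
    exact lt_of_le_of_lt (Nat.zero_le _) k.isLt
  have hPz : (0 : ℤ) < P := by exact_mod_cast hP
  obtain ⟨idx, hidx⟩ : ∃ idx : ℤ → Fin P, ∀ k, ((idx k : ℕ) : ℤ) = k % P := by
    refine ⟨fun k => ⟨(k % (P : ℤ)).toNat, ?_⟩, fun k => ?_⟩
    · have h1 := Int.emod_lt_of_pos k hPz
      have h2 := Int.emod_nonneg k hPz.ne'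
      omega
    · exact Int.toNat_of_nonneg (Int.emod_nonneg k hPz.ne')
  have idx_per : ∀ k, idx (k + P) = idx k := by
    intro k
    apply Fin.ext
    have h1 := hidx (k + P)
    have h2 := hidx k
    rw [Int.add_emod_right] at h1
    omega
  have idx_fin : ∀ k : Fin P, idx ((k : ℕ) : ℤ) = k := by
    intro k
    apply Fin.ext
    have h1 := hidx ((k : ℕ) : ℤ)
    rw [Int.emod_eq_of_lt (by omega) (by exact_mod_cast k.isLt)] at h1
    omega
  obtain ⟨ψ, hψ0, hψ⟩ := exists_seq (Γ := (S ≃ₜ S) × (ZMod b → (ℝ ≃o ℝ)))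
    (fun k => (Φ.g (idx k), fun j => Φ.G (idx k) j))
  have hper := seq_per (P := P) (y := fun k => (Φ.g (idx k), fun j => Φ.G (idx k) j)) (ψ := ψ)
    (fun k => by simp only [idx_per]) hψ0 hψ
  have hprod := seq_prod (P := P) (fun k : Fin P => ((Φ.g k, fun j => Φ.G k j) :
    (S ≃ₜ S) × (ZMod b → (ℝ ≃o ℝ)))) (y := fun k => (Φ.g (idx k), fun j => Φ.G (idx k) j)) (ψ := ψ)
    (fun k => by simp only [idx_fin]) hψ0 hψ
  have hP1 : (ψ P).1 = Φ.phi := by
    have h1 := congrArg (MonoidHom.fst (S ≃ₜ S) (ZMod b → (ℝ ≃o ℝ))) hprod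
    rw [map_list_prod, List.map_ofFn] at h1
    exact h1
  have hP2 : ∀ j, (ψ P).2 j = (List.ofFn fun i => Φ.G (Fin.rev i) j).prod := by
    intro j
    have h1 := congrArg ((Pi.evalMonoidHom (fun _ : ZMod b => (ℝ ≃o ℝ)) j).comp
      (MonoidHom.snd (S ≃ₜ S) (ZMod b → (ℝ ≃o ℝ)))) hprod
    rw [map_list_prod, List.map_ofFn] at h1
    exact h1
  have s1 : ∀ k, (ψ (k + 1)).1 = Φ.g (idx k) * (ψ k).1 := fun k => by rw [hψ]; rfl
  have s2 : ∀ k j, (ψ (k + 1)).2 j = Φ.G (idx k) j * (ψ k).2 j := fun k j => by rw [hψ]; rfl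
  have one_up : ∀ k j, (∀ θ, (ψ k).2 j (θ + 1) = (ψ k).2 j θ + 1) ↔
      ∀ θ, (ψ (k + 1)).2 j (θ + 1) = (ψ (k + 1)).2 j θ + 1 := by
    intro k j
    have e1 : ∀ θ, (ψ (k + 1)).2 j θ = Φ.G (idx k) j ((ψ k).2 j θ) := fun θ => by rw [s2]; rfl
    constructor
    · intro h θ
      rw [e1, e1, h, Φ.G_one]
    · intro h θ
      have h1 := h θ
      rw [e1, e1, ← Φ.G_one] at h1
      exact (Φ.G (idx k) j).injective h1
  have cl_up : ∀ k j, (∀ θ r, (ψ k).1 (cl E j θ r) = cl E j ((ψ k).2 j θ) r) ↔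
      ∀ θ r, (ψ (k + 1)).1 (cl E j θ r) = cl E j ((ψ (k + 1)).2 j θ) r := by
    intro k j
    have e1 : ∀ θ, (ψ (k + 1)).2 j θ = Φ.G (idx k) j ((ψ k).2 j θ) := fun θ => by rw [s2]; rfl
    have e2 : ∀ x, (ψ (k + 1)).1 x = Φ.g (idx k) ((ψ k).1 x) := fun x => by rw [s1]; rfl
    have e3 : ∀ θ r, Φ.g (idx k) (cl E j θ r) = cl E j (Φ.G (idx k) j θ) r :=
      fun θ r => Φ.g_col (idx k) j θ r
    constructor
    · intro h θ r
      rw [e2, h, e3, e1]
    · intro h θ r
      have h1 := h θ r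
      rw [e2, e1, ← e3] at h1
      exact (Φ.g (idx k)).injective h1
  refine ⟨{ own := fun k => Φ.own (idx k)
            own_per := fun k => by rw [idx_per]
            own_surj := fun i => ?_
            h := fun k => (ψ k).1
            Lf := fun k j => (ψ k).2 j
            idx := idx
            idx_eq := idx_fin
            own_eq := fun k => rfl
            h_step := s1
            Lf_step := s2
            h_per := fun k => ?_
            Lf_per := fun k j θ => ?_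
            Lf_one := fun k j => ?_
            h_cl := fun k j => ?_ }⟩
  · obtain ⟨k, hk⟩ := Φ.surj i
    exact ⟨((k : ℕ) : ℤ), by rw [idx_fin, hk]⟩
  · have h1 : (ψ (k + P)).1 = (ψ k).1 * (ψ P).1 := by rw [hper]; rfl
    rw [h1, hP1]
  · have h1 : (ψ (k + P)).2 j = (ψ k).2 j * (ψ P).2 j := by rw [hper]; rfl
    have h2 : (ψ P).2 j θ = θ + d j := by rw [hP2]; exact Φ.rot j θ
    rw [h1]
    change (ψ k).2 j ((ψ P).2 j θ) = _
    rw [h2]
  · induction k using Int.induction_on with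
    | zero => intro θ; rw [hψ0]; rfl
    | succ n ih => exact (one_up _ _).1 ih
    | pred n ih =>
      refine (one_up _ _).2 ?_
      rw [sub_add_cancel]
      exact ih
  · induction k using Int.induction_on with
    | zero => intro θ r; rw [hψ0]; rfl
    | succ n ih => exact (cl_up _ _).1 ih
    | pred n ih =>
      refine (cl_up _ _).2 ?_
      rw [sub_add_cancel]
      exact ih

/-- between two times with the same number of moves the arc does not move -/
theorem Prods.const {Φ : Moves A P d} (Q : Prods Φ) (i : ZMod b) (cnt : ZMod b → ℤ → ℤ)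
    (hcnt : ∀ i k, cnt i (k + 1) = cnt i k + if Q.own k = i then 1 else 0) {X : Type*}
    (F : ℤ → X) (hF : ∀ k, Q.own k ≠ i → F (k + 1) = F k) {k k' : ℤ}
    (h : cnt i k = cnt i k') : F k = F k' := by
  have mono : ∀ (k : ℤ) (n : ℕ), cnt i k ≤ cnt i (k + n) := by
    intro k n
    induction n with
    | zero => simp
    | succ n ih =>
      have h1 := hcnt i (k + n)
      have h2 : k + ((n + 1 : ℕ) : ℤ) = k + n + 1 := by push_cast; ring
      rw [h2, h1]
      split_ifs <;> omega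
  have key : ∀ (k : ℤ) (n : ℕ), cnt i k = cnt i (k + n) → F k = F (k + n) := by
    intro k n
    induction n with
    | zero => intro _; simp
    | succ n ih =>
      intro h0
      have h1 := hcnt i (k + n)
      have h2 : k + ((n + 1 : ℕ) : ℤ) = k + n + 1 := by push_cast; ring
      have h3 := mono k n
      rw [h2] at h0 ⊢
      by_cases h4 : Q.own (k + n) = i
      · rw [if_pos h4] at h1
        omega
      · rw [if_neg h4, add_zero] at h1
        rw [hF _ h4]
        exact ih (h0.trans h1)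
  rcases le_total k k' with hk | hk
  · obtain ⟨n, rfl⟩ : ∃ n : ℕ, k' = k + n := ⟨(k' - k).toNat, by omega⟩
    exact key k n h
  · obtain ⟨n, rfl⟩ : ∃ n : ℕ, k = k' + n := ⟨(k - k').toNat, by omega⟩
    exact (key k' n h.symm).symm

theorem phi_cl [NeZero b] (Φ : Moves A P d) (j : ZMod b) (θ : ℝ) (r : Ioo (1 : ℝ) 2) :
    Φ.phi (cl E j θ r) = cl E j (θ + d j) r := by
  obtain ⟨Q⟩ := exists_prods Φ
  have h1 := Q.h_per 0
  have h2 := Q.h_cl (0 + P) j θ r
  have h3 := Q.h_cl 0 j (θ + d j) r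
  rw [Q.Lf_per, ← h3, h1] at h2
  exact (Q.h 0).injective h2

end Pool.Agent.H.MP_1611f1_gt.T2
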