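import Pool.Agent.H.MP_1611f1_gt.T2.MvA

/-!
The strips which do not move on a collar.
-/

namespace Pool.Agent.H.MP_1611f1_gt.T2

open Topology Set Filter

variable {S : Type*} [TopologicalSpace S] {b : ℕ} {E : Surf S (ZMod b)} {A : Strips E} {P : ℕ}
  {d : ZMod b → ℝ}

/-- a continuous function which is an integer wherever the monotone function `T` is not an
integer does not change if `T` does not change -/
theorem MvB_const {T H : ℝ → ℝ} (hT : Monotone T) (hH : Continuous H)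
    (hint : ∀ θ, ((T θ : ℝ) : AddCircle (1 : ℝ)) ≠ 0 → ∃ n : ℤ, H θ = n) {θ θ' : ℝ}
    (h : T θ' = T θ) (hθ : ((T θ : ℝ) : AddCircle (1 : ℝ)) ≠ 0) : H θ' = H θ := by
  have hI : ∀ x ∈ uIcc θ θ', ∃ n : ℤ, H x = n := by
    intro x hx
    have hTx : T x = T θ := by
      rcases le_total θ θ' with hle | hle
      · rw [uIcc_of_le hle] at hx
        exact le_antisymm ((hT hx.2).trans h.le) (hT hx.1)
      · rw [uIcc_of_ge hle] at hx
        exact le_antisymm (hT hx.2) (h.ge.trans (hT hx.1))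
    refine hint x ?_
    rw [hTx]
    exact hθ
  obtain ⟨n, hn⟩ := hI θ left_mem_uIcc
  obtain ⟨n', hn'⟩ := hI θ' right_mem_uIcc
  by_contra hne
  have hnn : n' ≠ n := by
    rintro rfl
    exact hne (hn'.trans hn.symm)
  have hiv := intermediate_value_uIcc (a := θ) (b := θ') (f := H) hH.continuousOn
  have hmem : (((min n n' : ℤ) : ℝ) + 1 / 2) ∈ uIcc (H θ) (H θ') := by
    rw [hn, hn']
    rcases lt_or_gt_of_ne hnn with hlt | hlt
    · have h1 : (n' : ℝ) + 1 ≤ n := by exact_mod_cast hlt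
      rw [min_eq_right hlt.le, uIcc_of_ge (by linarith)]
      constructor <;> linarith
    · have h1 : (n : ℝ) + 1 ≤ n' := by exact_mod_cast hlt
      rw [min_eq_left hlt.le, uIcc_of_le (by linarith)]
      constructor <;> linarith
  obtain ⟨x, hx, hxv⟩ := hiv hmem
  obtain ⟨m, hm⟩ := hI x hx
  rw [hm] at hxv
  have h2 : (2 * m : ℝ) = 2 * ((min n n' : ℤ) : ℝ) + 1 := by linarith
  have h3 : 2 * m = 2 * min n n' + 1 := by exact_mod_cast h2
  omega

theorem MvB_int {x : ℝ} (h : ((x : ℝ) : AddCircle (1 : ℝ)) = 0) : ∃ n : ℤ, x = n := by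
  obtain ⟨m, hm⟩ := (AddCircle.coe_eq_zero_iff (1 : ℝ)).1 h
  exact ⟨m, by rw [← hm, zsmul_eq_mul, mul_one]⟩

theorem MvB_ne (hb : 2 ≤ b) (i : ZMod b) : i + 1 ≠ i := by
  have : Fact (1 < b) := ⟨hb⟩
  intro h
  exact one_ne_zero (add_left_cancel (h.trans (add_zero i).symm))

/-- a move which preserves the tail strip `i` preserves the value of the lift of the head strip
`i - 1` at the points of the tail strip -/
theorem Strips.fixHd (hb : 2 ≤ b) (A : Strips E) (G : ℝ → ℝ) (i : ZMod b) (θ : ℝ)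
    (hG : A.Tl i (G θ) = A.Tl i θ) (hθ : ((A.Tl i θ : ℝ) : AddCircle (1 : ℝ)) ≠ 0) :
    A.Hd (i - 1) (G θ) = A.Hd (i - 1) θ := by
  have r : Ioo (1 : ℝ) 2 := ⟨3 / 2, by norm_num, by norm_num⟩
  refine MvB_const (A.Tl_mono i) (A.Hd_cont (i - 1)) ?_ hG hθ
  intro x hx
  have h1 := A.tail i x r
  have h2 := A.head (i - 1) x r
  rw [sub_add_cancel] at h2
  have hne : i ≠ i - 1 := by
    intro h
    refine MvB_ne hb (i - 1) ?_
    rw [sub_add_cancel]
    exact h
  rcases A.disj i (i - 1) (E.collar i ((x : AddCircle (1 : ℝ)), r)) hne with h | h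
  · rw [h1] at h
    exact absurd h hx
  · rw [h2] at h
    obtain ⟨n, hn⟩ := MvB_int h
    exact ⟨-n, by rw [Int.cast_neg, ← hn, neg_neg]⟩

theorem Strips.fixTl (hb : 2 ≤ b) (A : Strips E) (G : ℝ → ℝ) (i : ZMod b) (θ : ℝ)
    (hG : A.Hd i (G θ) = A.Hd i θ) (hθ : ((A.Hd i θ : ℝ) : AddCircle (1 : ℝ)) ≠ 0) :
    A.Tl (i + 1) (G θ) = A.Tl (i + 1) θ := by
  have r : Ioo (1 : ℝ) 2 := ⟨3 / 2, by norm_num, by norm_num⟩
  refine MvB_const (A.Hd_mono i) (A.Tl_cont (i + 1)) ?_ hG hθ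
  intro x hx
  have h1 := A.tail (i + 1) x r
  have h2 := A.head i x r
  rcases A.disj (i + 1) i (E.collar (i + 1) ((x : AddCircle (1 : ℝ)), r)) (MvB_ne hb i)
    with h | h
  · rw [h1] at h
    exact MvB_int h
  · rw [h2, AddCircle.coe_neg, neg_eq_zero] at h
    exact absurd h hx

end Pool.Agent.H.MP_1611f1_gt.T2
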