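import Mathlib

/-!
The parameters: the weights `ρ`, `f` of the strips and the clocks.
-/

namespace Pool.Agent.H.MP_1611f1_gt.T2

open Topology Set Filter

/-- the parameters for the slopes `s j`, when the arc `j` is moved `N j` times -/
structure Par {b : ℕ} [NeZero b] (N : ZMod b → ℕ) (s : ZMod b → ℝ) where
  ρ : ZMod b → ℝ
  f : ZMod b → ℝ
  w : ZMod b → ZMod b → ℝ
  ρ_nonneg : ∀ j, 0 ≤ ρ j
  f_nonneg : ∀ j, 0 ≤ f j
  q_pos : ∀ j, 0 < 1 - N j * ρ j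
  f_eq : ∀ j, (1 - N j * ρ j) * f j = ρ j
  s_eq : ∀ j, s j = f j - ρ (j - 1)
  w_pos : ∀ j a, 0 < w j a
  w_diag : ∀ a, ρ a < w a a
  w_rec : ∀ j a, w j a = (1 - N j * ρ j) * w (j - 1) a + if j = a then ρ j else 0
  w_sum : ∀ j, ∑ a, w j a * N a = 1

/-- induction along the cycle -/
theorem cyc_ind {b : ℕ} [NeZero b] {p : ZMod b → Prop} (a : ZMod b) (h0 : p a)
    (h : ∀ j, p j → p (j + 1)) (j : ZMod b) : p j := by
  have key : ∀ n : ℕ, p (a + (n : ZMod b)) := by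
    intro n
    induction n with
    | zero => simpa using h0
    | succ n ih =>
      have := h _ ih
      rwa [add_assoc, ← Nat.cast_succ] at this
  have h1 := key (j - a).val
  rwa [ZMod.natCast_zmod_val, add_sub_cancel] at h1

/-- the map of the fixed point problem -/
theorem ParA_G {n : ℕ} (hn : 0 < n) {x y : ℝ} (hx : 0 ≤ x) (hxy : x ≤ y) :
    0 ≤ x / (1 + n * x) ∧ x / (1 + n * x) ≤ 1 ∧ x / (1 + n * x) ≤ y / (1 + n * y) := by
  have hn1 : (1 : ℝ) ≤ n := by exact_mod_cast hn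
  have hy : 0 ≤ y := hx.trans hxy
  have h1 : 0 < 1 + n * x := by nlinarith
  have h2 : 0 < 1 + n * y := by nlinarith
  refine ⟨div_nonneg hx h1.le, ?_, ?_⟩
  · rw [div_le_one h1]
    nlinarith
  · rw [div_le_div_iff₀ h1 h2]
    nlinarith

/-- the solution of the fixed point problem -/
theorem ParA_sol {n : ℕ} (hn : 0 < n) {y r : ℝ} (hy : 0 ≤ y) (hr : y / (1 + n * y) = r) :
    0 ≤ r ∧ (0 < y → 0 < r) ∧ 0 < 1 - n * r ∧ (1 - n * r) * y = r := by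
  have hn1 : (1 : ℝ) ≤ n := by exact_mod_cast hn
  have h1 : 0 < 1 + n * y := by nlinarith
  have h2 : 1 - n * r = 1 / (1 + n * y) := by
    rw [← hr]
    field_simp
    ring
  refine ⟨?_, ?_, ?_, ?_⟩
  · rw [← hr]
    exact div_nonneg hy h1.le
  · intro h
    rw [← hr]
    exact div_pos h h1
  · rw [h2]
    positivity
  · rw [h2, ← hr]
    ring

/-- the weights `ρ` -/
theorem exists_rho {b : ℕ} [NeZero b] (N : ZMod b → ℕ) (hN : ∀ j, 0 < N j) (s : ZMod b → ℝ)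
    (hs : ∀ j, 0 ≤ s j) (hs0 : ∃ j, s j ≠ 0) :
    ∃ ρ : ZMod b → ℝ, (∀ j, 0 < ρ j) ∧ (∀ j, 0 < 1 - N j * ρ j) ∧
      ∀ j, (1 - N j * ρ j) * (s j + ρ (j - 1)) = ρ j := by
  have : Fact ((0 : ℝ) ≤ 1) := ⟨zero_le_one⟩
  let F : (ZMod b → Set.Icc (0 : ℝ) 1) →o (ZMod b → Set.Icc (0 : ℝ) 1) :=
    ⟨fun v j => ⟨(s j + v (j - 1)) / (1 + N j * (s j + v (j - 1))),
      (ParA_G (hN j) (add_nonneg (hs j) (v (j - 1)).2.1) le_rfl).1,
      (ParA_G (hN j) (add_nonneg (hs j) (v (j - 1)).2.1) le_rfl).2.1⟩, by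
      intro v v' hv j
      exact (ParA_G (hN j) (add_nonneg (hs j) (v (j - 1)).2.1)
        (add_le_add le_rfl (hv (j - 1)))).2.2⟩
  have hfix : F (OrderHom.lfp F) = OrderHom.lfp F := OrderHom.map_lfp F
  let ρ : ZMod b → ℝ := fun j => (OrderHom.lfp F j : ℝ)
  have hρ : ∀ j, (s j + ρ (j - 1)) / (1 + N j * (s j + ρ (j - 1))) = ρ j := by
    intro j
    have := congrArg Subtype.val (congrFun hfix j)
    exact this
  have h0 : ∀ j, 0 ≤ ρ j := fun j => (OrderHom.lfp F j).2.1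
  have hy : ∀ j, 0 ≤ s j + ρ (j - 1) := fun j => add_nonneg (hs j) (h0 _)
  refine ⟨ρ, ?_, fun j => (ParA_sol (hN j) (hy j) (hρ j)).2.2.1,
    fun j => (ParA_sol (hN j) (hy j) (hρ j)).2.2.2⟩
  obtain ⟨j0, hj0⟩ := hs0
  apply cyc_ind (p := fun j => 0 < ρ j) j0
  · have : 0 < s j0 := lt_of_le_of_ne (hs j0) (Ne.symm hj0)
    exact (ParA_sol (hN j0) (hy j0) (hρ j0)).2.1 (add_pos_of_pos_of_nonneg this (h0 _))
  · intro j hj
    apply (ParA_sol (hN (j + 1)) (hy (j + 1)) (hρ (j + 1))).2.1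
    apply add_pos_of_nonneg_of_pos (hs _)
    rwa [add_sub_cancel_right]

end Pool.Agent.H.MP_1611f1_gt.T2
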