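import Pool.Agent.H.MP_1611f1_gt.G2.PlA

/-!
Piecewise linear functions: more lemmas.
-/

namespace Pool.Agent.H.MP_1611f1_gt.T2

open Topology Set Filter

theorem plf_congr_zone {S S' : ℤ → ℝ} {k : ℤ} (h0 : S k = S' k) (h1 : S (k + 1) = S' (k + 1))
    {t : ℝ} (ht : t ∈ Icc (k : ℝ) (k + 1)) : plf S t = plf S' t := by
  have hu : t - k ∈ Icc (0 : ℝ) 1 := ⟨by linarith [ht.1], by linarith [ht.2]⟩
  have e : t = (k : ℝ) + (t - k) := by ring
  rw [e, plf_add S k _ hu, plf_add S' k _ hu, h0, h1]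

theorem plf_lin (a b c : ℝ) (S S' : ℤ → ℝ) (t : ℝ) :
    plf (fun n => a * S n + b * S' n + c) t = a * plf S t + b * plf S' t + c := by
  unfold plf
  ring

theorem plf_add_int (S : ℤ → ℝ) (m : ℤ) (t : ℝ) :
    plf S (t + m) = plf (fun n => S (n + m)) t := by
  rw [plf, plf, Int.floor_add_intCast, Int.fract_add_intCast]
  have : ⌊t⌋ + m + 1 = ⌊t⌋ + 1 + m := by ring
  rw [this]

/-- the function near the integer `n` -/
theorem PlU_near (S : ℤ → ℝ) (n : ℤ) {t : ℝ} (h1 : (n : ℝ) - 1 ≤ t) (h2 : t ≤ n + 1) :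
    plf S t = S n + (S (n + 1) - S n) * max (t - n) 0 + (S n - S (n - 1)) * min (t - n) 0 := by
  rcases le_total (n : ℝ) t with h | h
  · have e : t = (n : ℝ) + (t - n) := by ring
    have hu : t - n ∈ Icc (0 : ℝ) 1 := ⟨by linarith, by linarith⟩
    rw [max_eq_left hu.1, min_eq_right hu.1]
    have h3 := plf_add S n _ hu
    rw [← e] at h3
    rw [h3]
    ring
  · have e : t = ((n - 1 : ℤ) : ℝ) + (t - n + 1) := by push_cast; ring
    have hu : t - n + 1 ∈ Icc (0 : ℝ) 1 := ⟨by linarith, by linarith⟩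
    have h0 : t - n ≤ 0 := by linarith
    rw [max_eq_right h0, min_eq_left h0]
    have h3 := plf_add S (n - 1) _ hu
    rw [← e, sub_add_cancel] at h3
    rw [h3]
    ring

theorem plf_cont_param {X : Type*} [TopologicalSpace X] {a : X → ℤ → ℝ}
    (h : ∀ k, Continuous fun x => a x k) : Continuous fun z : X × ℝ => plf (a z.1) z.2 := by
  rw [continuous_iff_continuousAt]
  rintro ⟨x, t⟩
  have hc : ∀ k, Continuous fun z : X × ℝ => a z.1 k := fun k => (h k).comp continuous_fst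
  have hF : Continuous fun z : X × ℝ => a z.1 ⌊t⌋ +
      (a z.1 (⌊t⌋ + 1) - a z.1 ⌊t⌋) * max (z.2 - (⌊t⌋ : ℝ)) 0 +
      (a z.1 ⌊t⌋ - a z.1 (⌊t⌋ - 1)) * min (z.2 - (⌊t⌋ : ℝ)) 0 := by
    have h2 : Continuous fun z : X × ℝ => z.2 - (⌊t⌋ : ℝ) := continuous_snd.sub continuous_const
    exact ((hc _).add (((hc _).sub (hc _)).mul (h2.max continuous_const))).add
      (((hc _).sub (hc _)).mul (h2.min continuous_const))
  refine hF.continuousAt.congr ?_
  have h1 : Tendsto (fun z : X × ℝ => z.2) (𝓝 (x, t)) (𝓝 t) := continuous_snd.tendsto (x, t)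
  have h3 : (⌊t⌋ : ℝ) - 1 < t := by linarith [Int.floor_le t]
  have h4 : t < (⌊t⌋ : ℝ) + 1 := Int.lt_floor_add_one t
  filter_upwards [h1.eventually (Ioi_mem_nhds h3), h1.eventually (Iio_mem_nhds h4)] with z hz1 hz2
  exact (PlU_near (a z.1) ⌊t⌋ (le_of_lt hz1) (le_of_lt hz2)).symm

theorem plf_surj_of_unbounded {S : ℤ → ℝ} (hS : ∀ n, S n < S (n + 1)) (hlo : ∀ y, ∃ n, S n ≤ y)
    (hhi : ∀ y, ∃ n, y ≤ S n) : Function.Surjective (plf S) := by
  have hmo : StrictMono S := strictMono_int_of_lt_succ hS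
  intro y
  obtain ⟨n, hn1, hn2⟩ : ∃ n : ℤ, S n ≤ y ∧ y < S (n + 1) := by
    obtain ⟨N, hN⟩ := hhi y
    obtain ⟨ub, h1, h2⟩ := Int.exists_greatest_of_bdd (P := fun n : ℤ => S n ≤ y)
      ⟨N, fun z hz => hmo.le_iff_le.1 (le_trans hz hN)⟩ (hlo y)
    refine ⟨ub, h1, ?_⟩
    by_contra h
    have := h2 (ub + 1) (not_lt.1 h)
    omega
  have hd : 0 < S (n + 1) - S n := by linarith [hS n]
  refine ⟨n + (y - S n) / (S (n + 1) - S n), ?_⟩
  rw [plf_add S n _ ⟨div_nonneg (by linarith) hd.le, (div_le_one hd).2 (by linarith)⟩]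
  field_simp
  ring

/-- the piecewise linear order isomorphism -/
noncomputable def plI (S : ℤ → ℝ) (hS : ∀ n, S n < S (n + 1)) (hlo : ∀ y, ∃ n, S n ≤ y)
    (hhi : ∀ y, ∃ n, y ≤ S n) : ℝ ≃o ℝ :=
  StrictMono.orderIsoOfSurjective _ (plf_strictMono hS) (plf_surj_of_unbounded hS hlo hhi)

theorem plI_apply {S : ℤ → ℝ} {hS : ∀ n, S n < S (n + 1)} {hlo : ∀ y, ∃ n, S n ≤ y}
    {hhi : ∀ y, ∃ n, y ≤ S n} (x : ℝ) : plI S hS hlo hhi x = plf S x := rfl

end Pool.Agent.H.MP_1611f1_gt.T2
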