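import Pool.Agent.H.MP_1611f1_gt.T2.Loc

/-!
The types: openness, continuity, comparison.
-/

namespace Pool.Agent.H.MP_1611f1_gt.T2

open Topology Set Filter

variable {S : Type*} [TopologicalSpace S] {J : Type*} {E : Surf S J} {phi : S ≃ₜ S} {P : ℕ}
  {d s : J → ℝ} {ι : Type*} (Λ : Loc E phi P d s ι)

namespace Loc

theorem Fa_mono (a : Option ι) (x : S) : StrictMono (Λ.Fa a x) := by
  cases a with
  | none => exact fun s t h => h
  | some e => exact Fe2_mono _ _ _

theorem SlA_lft {e : ι} {x : S} (hx : Λ.K e x ≠ 0) : ContinuousAt (fun y => lft (Λ.K e y)) x :=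
  ContinuousAt.comp (g := lft) (lft_contAt hx) (Λ.K e).continuous.continuousAt

theorem Fa_cont (k : ℤ) (a : Option ι) :
    ContinuousOn (fun z : S × ℝ => Λ.Fa a z.1 z.2) (Λ.VV k a ×ˢ univ) := by
  cases a with
  | none => exact continuous_snd.continuousOn
  | some e =>
    rintro ⟨x, t⟩ ⟨hx, -⟩
    have hx' : Λ.K e x ≠ 0 := hx
    have h1 : ContinuousAt (fun z : S × ℝ => lft (Λ.K e z.1)) (x, t) :=
      ContinuousAt.comp (x := (x, t)) (g := fun y => lft (Λ.K e y)) (f := fun z : S × ℝ => z.1)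
        (Λ.SlA_lft hx') continuousAt_fst
    have h2 : ContinuousAt (fun z : S × ℝ => (lft (Λ.K e z.1), z.2)) (x, t) :=
      h1.prodMk continuousAt_snd
    exact (ContinuousAt.comp (x := (x, t)) (g := fun z : ℝ × ℝ => Fe2 (Λ.A e) (Λ.B e) z.1 z.2)
      (f := fun z : S × ℝ => (lft (Λ.K e z.1), z.2))
      (Fe2_cont (Λ.A e) (Λ.B e)).continuousAt h2).continuousWithinAt

/-- the value at an integer time at which the type is not present -/
theorem Fa_val {k : ℤ} {a : Option ι} (h : Λ.inaO k a) (x : S) : Λ.Fa a x k = Λ.val k a := by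
  cases a with
  | none => rfl
  | some e => exact Fe2_eq _ _ _ (Λ.AB k e h)

theorem act_fin (k : ℤ) : {e | Λ.act k e}.Finite :=
  ((Λ.fin k).union (Λ.fin (k + 1))).subset (fun _ he => he)

theorem VV_open (k : ℤ) (a : Option ι) : IsOpen (Λ.VV k a) := by
  cases a with
  | none =>
    have h : Λ.VV k none = ⋂ e ∈ {e | Λ.act k e}, {x | ‖Λ.K e x‖ < 1 / 4} := by
      ext x
      simp only [mem_iInter]
      exact Iff.rfl
    rw [h]
    refine (Λ.act_fin k).isOpen_biInter (fun e _ => ?_)
    exact isOpen_lt (continuous_norm.comp (Λ.K e).continuous) continuous_const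
  | some e => exact isOpen_ne.preimage (Λ.K e).continuous

/-- near a point of a strip with small norm, the function is one of the two isomorphisms -/
theorem SlA_near {e : ι} {x : S} (hx : Λ.K e x ≠ 0) (hn : ‖Λ.K e x‖ < 1 / 4) :
    ∃ T : ℝ ≃o ℝ, ∀ᶠ x' in 𝓝 x, ∀ t, Λ.Fa (some e) x' t = T t := by
  rcases (norm_lt_iff (Λ.K e x)).mp hn with h | h
  · refine ⟨Λ.A e, ?_⟩
    filter_upwards [(Λ.SlA_lft hx).eventually_lt_const h] with x' hx' t
    exact Fe2_small _ _ hx'.le t
  · refine ⟨Λ.B e, ?_⟩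
    filter_upwards [(Λ.SlA_lft hx).eventually_const_lt h] with x' hx' t
    exact Fe2_large _ _ hx'.le t

/-- on the intersection of two types the functions differ by an increasing function -/
theorem Fa_rel (k : ℤ) (a b : Option ι) (ha : Λ.actO k a) (hb : Λ.actO k b) {x : S}
    (hxa : x ∈ Λ.VV k a) (hxb : x ∈ Λ.VV k b) :
    ∃ G : ℝ → ℝ, StrictMono G ∧ ∀ᶠ x' in 𝓝 x, ∀ t, Λ.Fa b x' t = G (Λ.Fa a x' t) := by
  cases a with
  | none =>
    cases b with
    | none => exact ⟨id, strictMono_id, Eventually.of_forall fun x' t => rfl⟩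
    | some e =>
      obtain ⟨T, hT⟩ := Λ.SlA_near (e := e) hxb (hxa e hb)
      exact ⟨T, T.strictMono, hT⟩
  | some e =>
    cases b with
    | none =>
      obtain ⟨T, hT⟩ := Λ.SlA_near (e := e) hxa (hxb e ha)
      refine ⟨T.symm, T.symm.strictMono, ?_⟩
      filter_upwards [hT] with x' hx' t
      rw [hx' t, T.symm_apply_apply]
      rfl
    | some e' =>
      by_cases hee : e = e'
      · subst hee
        exact ⟨id, strictMono_id, Eventually.of_forall fun x' t => rfl⟩
      · rcases Λ.disj k e e' ha hb hee x with h | h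
        · exact absurd h hxa
        · exact absurd h hxb

end Loc

end Pool.Agent.H.MP_1611f1_gt.T2
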