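import Pool.Agent.H.MP_1611f1_gt.T2.Loc

/-!
The arcs at the integer times.
-/

namespace Pool.Agent.H.MP_1611f1_gt.T2

open Topology Set Filter

/-- The arcs at the integer times: `st i c` is the collapse map of the arc `i` after `c` moves,
`Tl i c`, `Hd i c` are its lifts on the circles around the two ends, `cnt i k` is the number of
moves of the arc `i` before the time `k`, and `own k` is the arc moved in the zone `[k, k+1]`. -/
structure Sys {S : Type*} [TopologicalSpace S] {b : ℕ} (E : Surf S (ZMod b)) (phi : S ≃ₜ S)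
    (P : ℕ) (d : ZMod b → ℝ) (N : ZMod b → ℕ) where
  own : ℤ → ZMod b
  cnt : ZMod b → ℤ → ℤ
  cnt_step : ∀ i k, cnt i (k + 1) = cnt i k + if own k = i then 1 else 0
  cnt_per : ∀ i k, cnt i (k + P) = cnt i k + N i
  st : ZMod b → ℤ → C(S, AddCircle (1 : ℝ))
  Tl : ZMod b → ℤ → ℝ → ℝ
  Hd : ZMod b → ℤ → ℝ → ℝ
  Tl_cont : ∀ i c, Continuous (Tl i c)
  Hd_cont : ∀ i c, Continuous (Hd i c)
  Tl_one : ∀ i c θ, Tl i c (θ + 1) = Tl i c θ + 1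
  Hd_one : ∀ i c θ, Hd i c (θ + 1) = Hd i c θ + 1
  tail : ∀ i c θ r, st i c (cl E i θ r) = ((Tl i c θ : ℝ) : AddCircle (1 : ℝ))
  head : ∀ i c θ r, st i c (cl E (i + 1) θ r) = ((-(Hd i c θ) : ℝ) : AddCircle (1 : ℝ))
  other : ∀ i c j θ r, j ≠ i → j ≠ i + 1 → st i c (cl E j θ r) = 0
  Tl_right : ∀ i c θ, Tl i (c + 1) θ ≤ Tl i c θ ∧ Tl i c θ ≤ Tl i (c + 1) θ + 1
  Hd_right : ∀ i c θ, Hd i (c + 1) θ ≤ Hd i c θ ∧ Hd i c θ ≤ Hd i (c + 1) θ + 1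
  st_per : ∀ i c m x, st i (c + N i * m) x = st i c ((phi ^ m) x)
  Tl_per : ∀ i c θ, Tl i (c + N i) θ = Tl i c (θ + d i)
  Hd_per : ∀ i c θ, Hd i (c + N i) θ = Hd i c (θ + d (i + 1))
  rot : ∀ j θ r, phi (cl E j θ r) = cl E j (θ + d j) r
  disj : ∀ k i i' x, i ≠ i' → st i (cnt i k) x = 0 ∨ st i' (cnt i' k) x = 0
  off : ∀ i c x, st i c x = 0 ∨ st i (c + 1) x = 0
  fixH : ∀ k i θ, own k ≠ i → ((Tl i (cnt i k) θ : ℝ) : AddCircle (1 : ℝ)) ≠ 0 →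
    Hd (i - 1) (cnt (i - 1) (k + 1)) θ = Hd (i - 1) (cnt (i - 1) k) θ
  fixT : ∀ k i θ, own k ≠ i → ((Hd i (cnt i k) θ : ℝ) : AddCircle (1 : ℝ)) ≠ 0 →
    Tl (i + 1) (cnt (i + 1) (k + 1)) θ = Tl (i + 1) (cnt (i + 1) k) θ
  reach : ∀ (k : ℤ) (x : S), ∃ (j : ZMod b) (z : AddCircle (1 : ℝ) × Ioo (1 : ℝ) 2),
    JoinedIn {y | (∀ i, st i (cnt i k) y = st i (cnt i k) x) ∧
      ∀ i, st i (cnt i (k + 1)) y = st i (cnt i (k + 1)) x} x (E.collar j z)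

namespace Sys

variable {S : Type*} [TopologicalSpace S] {b : ℕ} {E : Surf S (ZMod b)}
  {phi : S ≃ₜ S} {P : ℕ} {d : ZMod b → ℝ} {N : ZMod b → ℕ} (Y : Sys E phi P d N)

theorem cnt_per_int (i : ZMod b) (k m : ℤ) : Y.cnt i (k + P * m) = Y.cnt i k + N i * m := by
  induction m using Int.induction_on with
  | zero => simp
  | succ m ih =>
    have h := Y.cnt_per i (k + P * m)
    rw [ih] at h
    have h2 : k + (P : ℤ) * (m + 1) = k + P * m + P := by ring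
    rw [h2, h]
    ring
  | pred m ih =>
    have h := Y.cnt_per i (k + P * (-m - 1))
    have h2 : k + (P : ℤ) * (-m - 1) + P = k + P * (-m) := by ring
    rw [h2, ih] at h
    linarith

theorem cnt_own (k : ℤ) : Y.cnt (Y.own k) (k + 1) = Y.cnt (Y.own k) k + 1 := by
  rw [Y.cnt_step, if_pos rfl]

theorem cnt_ne {i : ZMod b} {k : ℤ} (h : Y.own k ≠ i) : Y.cnt i (k + 1) = Y.cnt i k := by
  rw [Y.cnt_step, if_neg h, add_zero]

theorem cnt_le (i : ZMod b) (k : ℤ) :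
    Y.cnt i k ≤ Y.cnt i (k + 1) ∧ Y.cnt i (k + 1) ≤ Y.cnt i k + 1 := by
  rw [Y.cnt_step]
  split_ifs <;> omega

end Sys

end Pool.Agent.H.MP_1611f1_gt.T2
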