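import Pool.Agent.H.MP_1611f1_gt.T2.Sys
import Pool.Agent.H.MP_1611f1_gt.T2.ParA
import Pool.Agent.H.MP_1611f1_gt.T2.PlU
import Pool.Agent.H.MP_1611f1_gt.T2.ChT

/-!
The clocks and the transverse functions at the integer times.
-/

namespace Pool.Agent.H.MP_1611f1_gt.T2

open Topology Set Filter

variable {S : Type*} [TopologicalSpace S] {b : ℕ} [NeZero b] {E : Surf S (ZMod b)}
  {phi : S ≃ₜ S} {P : ℕ} {d : ZMod b → ℝ} {N : ZMod b → ℕ} {s : ZMod b → ℝ}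
  (Y : Sys E phi P d N) (Z : Par N s)

/-- the clocks at the integer times -/
noncomputable def kp (j : ZMod b) (k : ℤ) : ℝ := ∑ a, Z.w j a * Y.cnt a k

/-- the function at the side `0` of the strip `e` at the integer times -/
noncomputable def SA (e : ZMod b × ℤ) (k : ℤ) : ℝ :=
  kp Y Z (e.1 - 1) k + Z.f e.1 * (if e.2 ≤ Y.cnt e.1 k then 1 else 0)

/-- the function at the side `1` of the strip `e` at the integer times -/
noncomputable def SB (e : ZMod b × ℤ) (k : ℤ) : ℝ :=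
  kp Y Z (e.1 - 1) k + Z.f e.1 * (if e.2 + 1 ≤ Y.cnt e.1 k then 1 else 0)

/-- the function over the collar `j` at the integer times -/
noncomputable def XX (j : ZMod b) (θ : ℝ) (k : ℤ) : ℝ :=
  kp Y Z (j - 1) k - Z.f j * chT (Y.Tl j (Y.cnt j k) θ) +
    Z.ρ (j - 1) * chT (Y.Hd (j - 1) (Y.cnt (j - 1) k) θ)

theorem kp_step (j : ZMod b) (k : ℤ) :
    kp Y Z j (k + 1) = kp Y Z j k + Z.w j (Y.own k) := by
  unfold kp
  have h : ∀ a, Z.w j a * (Y.cnt a (k + 1) : ℝ) =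
      Z.w j a * (Y.cnt a k : ℝ) + (if Y.own k = a then Z.w j a else 0) := by
    intro a
    rw [Y.cnt_step]
    split_ifs <;> push_cast <;> ring
  rw [Finset.sum_congr rfl fun a _ => h a, Finset.sum_add_distrib, Finset.sum_ite_eq]
  simp

theorem kp_per (j : ZMod b) (k : ℤ) : kp Y Z j (k + P) = kp Y Z j k + 1 := by
  unfold kp
  rw [← Z.w_sum j, ← Finset.sum_add_distrib]
  refine Finset.sum_congr rfl fun a _ => ?_
  rw [Y.cnt_per]
  push_cast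
  ring

theorem Xi_kp_per_int (j : ZMod b) (k m : ℤ) : kp Y Z j (k + P * m) = kp Y Z j k + m := by
  unfold kp
  have h : (m : ℝ) = ∑ a, Z.w j a * N a * m := by
    rw [← Finset.sum_mul, Z.w_sum, one_mul]
  rw [h, ← Finset.sum_add_distrib]
  refine Finset.sum_congr rfl fun a _ => ?_
  rw [Y.cnt_per_int]
  push_cast
  ring

theorem Xi_kp_lt (j : ZMod b) (k : ℤ) : kp Y Z j k < kp Y Z j (k + 1) := by
  rw [kp_step]
  linarith [Z.w_pos j (Y.own k)]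

theorem kp_rec (j : ZMod b) (k : ℤ) :
    kp Y Z j k = (1 - N j * Z.ρ j) * kp Y Z (j - 1) k + Z.ρ j * Y.cnt j k := by
  unfold kp
  have h : ∀ a, Z.w j a * (Y.cnt a k : ℝ) =
      (1 - N j * Z.ρ j) * (Z.w (j - 1) a * (Y.cnt a k : ℝ)) +
        (if j = a then Z.ρ j * (Y.cnt a k : ℝ) else 0) := by
    intro a
    rw [Z.w_rec j a]
    split_ifs <;> ring
  rw [Finset.sum_congr rfl fun a _ => h a, Finset.sum_add_distrib, Finset.sum_ite_eq,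
    ← Finset.mul_sum]
  simp

theorem Xi_ind_le {p q : Prop} [Decidable p] [Decidable q] (h : p → q) :
    (if p then (1 : ℝ) else 0) ≤ (if q then 1 else 0) := by
  by_cases hp : p
  · rw [if_pos hp, if_pos (h hp)]
  · rw [if_neg hp]
    split_ifs <;> norm_num

theorem Xi_ind_nonneg (p : Prop) [Decidable p] : (0 : ℝ) ≤ (if p then 1 else 0) := by
  split_ifs <;> norm_num

theorem Xi_ind_le_one (p : Prop) [Decidable p] : (if p then (1 : ℝ) else 0) ≤ 1 := by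
  split_ifs <;> norm_num

theorem SA_step (e : ZMod b × ℤ) (k : ℤ) : SA Y Z e k < SA Y Z e (k + 1) := by
  unfold SA
  have h1 := Xi_kp_lt Y Z (e.1 - 1) k
  have h2 : (if e.2 ≤ Y.cnt e.1 k then (1 : ℝ) else 0) ≤
      (if e.2 ≤ Y.cnt e.1 (k + 1) then 1 else 0) :=
    Xi_ind_le fun h => h.trans (Y.cnt_le e.1 k).1
  have h3 := mul_le_mul_of_nonneg_left h2 (Z.f_nonneg e.1)
  linarith

theorem SB_step (e : ZMod b × ℤ) (k : ℤ) : SB Y Z e k < SB Y Z e (k + 1) := by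
  unfold SB
  have h1 := Xi_kp_lt Y Z (e.1 - 1) k
  have h2 : (if e.2 + 1 ≤ Y.cnt e.1 k then (1 : ℝ) else 0) ≤
      (if e.2 + 1 ≤ Y.cnt e.1 (k + 1) then 1 else 0) :=
    Xi_ind_le fun h => h.trans (Y.cnt_le e.1 k).1
  have h3 := mul_le_mul_of_nonneg_left h2 (Z.f_nonneg e.1)
  linarith

theorem Xi_lo (j : ZMod b) {φ : ℤ → ℝ} {c : ℝ} (hc : 0 ≤ c) (h : ∀ k, φ k ≤ 1) (y : ℝ) :
    ∃ k, kp Y Z j k + c * φ k ≤ y := by
  refine ⟨0 + P * ⌊y - kp Y Z j 0 - c⌋, ?_⟩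
  rw [Xi_kp_per_int]
  have h1 := Int.floor_le (y - kp Y Z j 0 - c)
  have h2 := mul_le_mul_of_nonneg_left (h (0 + P * ⌊y - kp Y Z j 0 - c⌋)) hc
  linarith

theorem Xi_hi (j : ZMod b) {φ : ℤ → ℝ} {c : ℝ} (hc : 0 ≤ c) (h : ∀ k, 0 ≤ φ k) (y : ℝ) :
    ∃ k, y ≤ kp Y Z j k + c * φ k := by
  refine ⟨0 + P * ⌈y - kp Y Z j 0⌉, ?_⟩
  rw [Xi_kp_per_int]
  have h1 := Int.le_ceil (y - kp Y Z j 0)
  have h2 := mul_nonneg hc (h (0 + P * ⌈y - kp Y Z j 0⌉))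
  linarith

theorem SA_lo (e : ZMod b × ℤ) (y : ℝ) : ∃ k, SA Y Z e k ≤ y := by
  exact Xi_lo Y Z (e.1 - 1) (φ := fun k => if e.2 ≤ Y.cnt e.1 k then 1 else 0) (Z.f_nonneg e.1)
    (fun k => Xi_ind_le_one _) y

theorem SA_hi (e : ZMod b × ℤ) (y : ℝ) : ∃ k, y ≤ SA Y Z e k := by
  exact Xi_hi Y Z (e.1 - 1) (φ := fun k => if e.2 ≤ Y.cnt e.1 k then 1 else 0) (Z.f_nonneg e.1)
    (fun k => Xi_ind_nonneg _) y

theorem SB_lo (e : ZMod b × ℤ) (y : ℝ) : ∃ k, SB Y Z e k ≤ y := by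
  exact Xi_lo Y Z (e.1 - 1) (φ := fun k => if e.2 + 1 ≤ Y.cnt e.1 k then 1 else 0)
    (Z.f_nonneg e.1) (fun k => Xi_ind_le_one _) y

theorem SB_hi (e : ZMod b × ℤ) (y : ℝ) : ∃ k, y ≤ SB Y Z e k := by
  exact Xi_hi Y Z (e.1 - 1) (φ := fun k => if e.2 + 1 ≤ Y.cnt e.1 k then 1 else 0)
    (Z.f_nonneg e.1) (fun k => Xi_ind_nonneg _) y

/-- the two functions agree at the integer times at which the strip is not present -/
theorem SA_eq_SB {e : ZMod b × ℤ} {k : ℤ} (h : e.2 ≠ Y.cnt e.1 k) : SA Y Z e k = SB Y Z e k := by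
  unfold SA SB
  have h1 : (e.2 ≤ Y.cnt e.1 k) ↔ (e.2 + 1 ≤ Y.cnt e.1 k) := by omega
  simp only [h1]

theorem SA_shift (e : ZMod b × ℤ) (m k : ℤ) :
    SA Y Z (e.1, e.2 + N e.1 * m) (k + P * m) = SA Y Z e k + m := by
  unfold SA
  simp only
  rw [Xi_kp_per_int, Y.cnt_per_int]
  have h1 : (e.2 + (N e.1 : ℤ) * m ≤ Y.cnt e.1 k + (N e.1 : ℤ) * m) ↔ e.2 ≤ Y.cnt e.1 k :=
    add_le_add_iff_right _
  simp only [h1]
  ring

theorem SB_shift (e : ZMod b × ℤ) (m k : ℤ) :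
    SB Y Z (e.1, e.2 + N e.1 * m) (k + P * m) = SB Y Z e k + m := by
  unfold SB
  simp only
  rw [Xi_kp_per_int, Y.cnt_per_int]
  have h1 : (e.2 + (N e.1 : ℤ) * m + 1 ≤ Y.cnt e.1 k + (N e.1 : ℤ) * m) ↔
      e.2 + 1 ≤ Y.cnt e.1 k := by
    constructor <;> intro h <;> linarith
  simp only [h1]
  ring

end Pool.Agent.H.MP_1611f1_gt.T2
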