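import Pool.Agent.H.MP_1611f1_gt.T2.Xi

/-!
The function over the collars.
-/

namespace Pool.Agent.H.MP_1611f1_gt.T2

open Topology Set Filter

variable {S : Type*} [TopologicalSpace S] {b : ℕ} [NeZero b] {E : Surf S (ZMod b)}
  {phi : S ≃ₜ S} {P : ℕ} {d : ZMod b → ℝ} {N : ZMod b → ℕ} {s : ZMod b → ℝ}
  (Y : Sys E phi P d N) (Z : Par N s)

theorem XX_cont (j : ZMod b) (k : ℤ) : Continuous fun θ => XX Y Z j θ k := by
  unfold XX
  exact (continuous_const.sub (continuous_const.mul (chT_cont.comp (Y.Tl_cont _ _)))).add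
    (continuous_const.mul (chT_cont.comp (Y.Hd_cont _ _)))

theorem XiM_ne (hb : 2 ≤ b) (j : ZMod b) : j ≠ j - 1 := by
  intro h
  have h1 : (1 : ZMod b) = 0 := by
    have h2 : j - (j - 1) = j - j := by rw [← h]
    simpa using h2
  have h3 : Nontrivial (ZMod b) := by
    have : Fact (1 < b) := ⟨by omega⟩
    exact ZMod.nontrivial b
  exact one_ne_zero h1

theorem XX_step (hb : 2 ≤ b) (j : ZMod b) (θ : ℝ) (k : ℤ) :
    XX Y Z j θ k < XX Y Z j θ (k + 1) := by
  unfold XX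
  rw [kp_step]
  have hw := Z.w_pos (j - 1) (Y.own k)
  have hne := XiM_ne hb j
  by_cases h1 : Y.own k = j
  · have h2 : Y.own k ≠ j - 1 := by
      rw [h1]
      exact hne
    have h3 : Y.cnt j (k + 1) = Y.cnt j k + 1 := by
      have h4 := Y.cnt_own k
      rw [h1] at h4
      exact h4
    rw [Y.cnt_ne h2, h3]
    have h4 := chT_mono (Y.Tl_right j (Y.cnt j k) θ).1
    have h5 := mul_le_mul_of_nonneg_left h4 (Z.f_nonneg j)
    linarith
  · rw [Y.cnt_ne h1]
    by_cases h2 : Y.own k = j - 1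
    · have h3 : Y.cnt (j - 1) (k + 1) = Y.cnt (j - 1) k + 1 := by
        have h4 := Y.cnt_own k
        rw [h2] at h4
        exact h4
      rw [h3, h2]
      have h4 := chT_mono (Y.Hd_right (j - 1) (Y.cnt (j - 1) k) θ).2
      rw [chT_add_one] at h4
      have h5 := mul_le_mul_of_nonneg_left h4 (Z.ρ_nonneg (j - 1))
      have h6 := Z.w_diag (j - 1)
      linarith
    · rw [Y.cnt_ne h2]
      linarith

theorem XX_th (j : ZMod b) (θ : ℝ) (k : ℤ) : XX Y Z j (θ + 1) k = XX Y Z j θ k - s j := by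
  unfold XX
  rw [Y.Tl_one, Y.Hd_one, chT_add_one, chT_add_one, Z.s_eq j]
  ring

theorem XX_t (j : ZMod b) (θ : ℝ) (k : ℤ) :
    XX Y Z j θ (k + P) = XX Y Z j (θ + d j) k + 1 := by
  unfold XX
  rw [kp_per, Y.cnt_per, Y.cnt_per, Y.Tl_per, Y.Hd_per, sub_add_cancel]
  ring

/-- the function over the collar `j` -/
noncomputable def MX (j : ZMod b) (θ t : ℝ) : ℝ := plf (XX Y Z j θ) t

theorem MX_cont (j : ZMod b) : Continuous fun z : ℝ × ℝ => MX Y Z j z.1 z.2 :=
  plf_cont_param (a := fun θ => XX Y Z j θ) (XX_cont Y Z j)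

theorem MX_mono (hb : 2 ≤ b) (j : ZMod b) (θ : ℝ) : StrictMono (MX Y Z j θ) :=
  plf_strictMono (XX_step Y Z hb j θ)

theorem MX_th (j : ZMod b) (θ t : ℝ) : MX Y Z j (θ + 1) t = MX Y Z j θ t - s j := by
  unfold MX
  have h : XX Y Z j (θ + 1) =
      fun n => 1 * XX Y Z j θ n + 0 * XX Y Z j θ n + (-(s j)) := by
    funext n
    rw [XX_th]
    ring
  rw [h, plf_lin]
  ring

theorem MX_t (j : ZMod b) (θ t : ℝ) : MX Y Z j θ (t + P) = MX Y Z j (θ + d j) t + 1 := by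
  unfold MX
  have h0 := plf_add_int (XX Y Z j θ) (P : ℤ) t
  have h : (fun n : ℤ => XX Y Z j θ (n + (P : ℤ))) =
      fun n => 1 * XX Y Z j (θ + d j) n + 0 * XX Y Z j (θ + d j) n + 1 := by
    funext n
    rw [XX_t]
    ring
  rw [h, plf_lin] at h0
  rw [Int.cast_natCast] at h0
  rw [h0]
  ring

end Pool.Agent.H.MP_1611f1_gt.T2
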